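import Pool.Agent.H56.DC.LFT

/-!
Part BAS. The matrix with rows `x₀ e_i + x₁ e_{i+1}` in two variables.

The minors are `minor M j = (-1) ^ j * x₀ ^ j * x₁ ^ (t - j)` (`bas_minor`): use `cramer`-like
uniqueness or the block structure, or this: the vector `w j = (-1) ^ j x₀ ^ j x₁ ^ (t-j)` satisfies
`M w = 0`, so by `cramer` `w i * minor M j = w j * minor M i`, and `minor M t = (-1)^t x₀ ^ t`
(`M` without the last column is lower or upper triangular with `x₀` on the diagonal), so
`(-1) ^ t x₀ ^ t * minor M j = w j * (-1)^t x₀ ^ t`; cancel.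
-/

set_option autoImplicit false

namespace Pool.Agent.H56.DC

open MvPolynomial

theorem bas_entry {k : Type} [Field k] (t : ℕ) (i : Fin t) (j : Fin (t + 1)) :
    Lin ![J0 k t, J1 k t] i j = (if j = i.castSucc then X 0 else 0) +
      (if j = i.succ then X 1 else 0) := by
  unfold Lin
  rw [Fin.sum_univ_two]
  simp only [Matrix.cons_val_zero, Matrix.cons_val_one, J0, J1]
  split_ifs <;> simp

/-- a row applied to a vector -/
theorem bas_row {k : Type} [Field k] (t : ℕ) (i : Fin t) (w : Fin (t + 1) → MvPolynomial (Fin 2) k) :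
    ∑ j, Lin ![J0 k t, J1 k t] i j * w j = X 0 * w i.castSucc + X 1 * w i.succ := by
  simp only [bas_entry, add_mul, ite_mul, zero_mul, Finset.sum_add_distrib,
    Finset.sum_ite_eq', Finset.mem_univ, if_true]

theorem bas_last {k : Type} [Field k] (t : ℕ) :
    minor (Lin ![J0 k t, J1 k t]) (Fin.last t) = (-1) ^ t * X 0 ^ t := by
  unfold minor
  rw [Fin.val_last]
  congr 1
  have h : ∀ i : Fin t, ((Lin ![J0 k t, J1 k t]).submatrix id (Fin.last t).succAbove) i i =
      X 0 := by
    intro i
    rw [Matrix.submatrix_apply, Fin.succAbove_last, id_eq, bas_entry, if_pos rfl, if_neg, add_zero]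
    intro h
    have := congrArg Fin.val h
    simp at this
  rw [Matrix.det_of_isUpperTriangular]
  · rw [Finset.prod_congr rfl (fun i _ => h i), Finset.prod_const, Finset.card_univ,
      Fintype.card_fin]
  · intro i j hij
    simp only [Matrix.submatrix_apply, id_eq, bas_entry, Fin.succAbove_last]
    have hij' : (j : ℕ) < i := hij
    rw [if_neg, if_neg, add_zero]
    · intro h
      have := congrArg Fin.val h
      simp at this
      omega
    · intro h
      have := congrArg Fin.val h
      simp at this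
      omega

/-- the kernel vector -/
noncomputable def kv (k : Type) [Field k] (t j : ℕ) : MvPolynomial (Fin 2) k :=
  (-1) ^ j * X 0 ^ j * X 1 ^ (t - j)

theorem bas_minor {k : Type} [Field k] (t : ℕ) (j : Fin (t + 1)) :
    minor (Lin ![J0 k t, J1 k t]) j = (-1) ^ (j : ℕ) * X 0 ^ (j : ℕ) * X 1 ^ (t - j : ℕ) := by
  have h1 := cramer (Lin ![J0 k t, J1 k t]) (fun j => kv k t j) (fun i => by
    rw [bas_row]
    unfold kv
    have h2 : t - (i.castSucc : ℕ) = (t - (i.succ : ℕ)) + 1 := by
      simp only [Fin.val_castSucc, Fin.val_succ]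
      omega
    rw [h2]
    simp only [Fin.val_castSucc, Fin.val_succ]
    ring) (Fin.last t) j
  rw [bas_last] at h1
  have h3 : kv k t (Fin.last t : Fin (t + 1)) = (-1) ^ t * X 0 ^ t := by
    unfold kv
    rw [Fin.val_last, Nat.sub_self, pow_zero, mul_one]
  have h4 : ((-1) ^ t * X 0 ^ t : MvPolynomial (Fin 2) k) ≠ 0 :=
    mul_ne_zero (pow_ne_zero _ (neg_ne_zero.2 one_ne_zero)) (pow_ne_zero _ (X_ne_zero 0))
  rw [h3, mul_comm (kv k t j)] at h1
  exact mul_left_cancel₀ h4 h1

/-- divisibility by `x₀` -/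
theorem dvd_of_mul_pow {k : Type} [Field k] (a b : MvPolynomial (Fin 2) k) (n : ℕ)
    (h : a * X 1 ^ n = X 0 * b) : ∃ c, a = X 0 * c := by
  rw [← rho_ker]
  have h1 := congrArg (rho k 1) h
  rw [map_mul, map_mul, map_pow, rho_X0, zero_mul] at h1
  have h2 : rho k 1 (X 1) = X 0 := rho_Xs (0 : Fin 1)
  rw [h2] at h1
  exact (mul_eq_zero.1 h1).resolve_right (pow_ne_zero _ (X_ne_zero 0))

theorem bas_aux {k : Type} [Field k] (t : ℕ) : ∀ (v : ℕ → MvPolynomial (Fin 2) k)
    (c : MvPolynomial (Fin 2) k),
    ∑ j ∈ Finset.range (t + 1), v j * kv k t j = c * X 1 ^ (t + 1) →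
    ∃ U : ℕ → MvPolynomial (Fin 2) k, U 0 = c ∧ U (t + 1) = 0 ∧
      ∀ j ≤ t, v j = X 0 * U (j + 1) + X 1 * U j := by
  induction t with
  | zero =>
    intro v c h
    refine ⟨fun j => if j = 0 then c else 0, if_pos rfl, by simp, ?_⟩
    intro j hj
    have hj0 : j = 0 := by omega
    subst hj0
    simp [kv] at h
    simp [h]
    ring
  | succ t ih =>
    intro v c h
    rw [Finset.sum_range_succ'] at h
    have e1 : ∀ j ∈ Finset.range (t + 1), v (j + 1) * kv k (t + 1) (j + 1) =
        -(X 0 * (v (j + 1) * kv k t j)) := by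
      intro j _
      unfold kv
      rw [Nat.add_sub_add_right]
      ring
    rw [Finset.sum_congr rfl e1, Finset.sum_neg_distrib, ← Finset.mul_sum] at h
    have e2 : v 0 * kv k (t + 1) 0 = v 0 * X 1 ^ (t + 1) := by
      unfold kv
      rw [pow_zero, pow_zero, Nat.sub_zero]
      ring
    rw [e2] at h
    have e3 : (v 0 - c * X 1) * X 1 ^ (t + 1) =
        X 0 * ∑ j ∈ Finset.range (t + 1), v (j + 1) * kv k t j := by
      linear_combination h
    obtain ⟨c', hc'⟩ := dvd_of_mul_pow _ _ _ e3
    rw [hc', mul_assoc] at e3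
    have e4 := mul_left_cancel₀ (X_ne_zero 0) e3
    obtain ⟨U, hU0, hUt, hU⟩ := ih (fun j => v (j + 1)) c' e4.symm
    refine ⟨fun j => Nat.casesOn j c U, rfl, hUt, ?_⟩
    intro j hj
    rcases j with _ | j
    · show v 0 = X 0 * U 0 + X 1 * c
      rw [hU0]
      linear_combination hc'
    · exact hU j (by omega)

/-- if `∑ j, v j (-1)^j x₀^j x₁^(t-j) = 0` then `v` is a combination of the rows of `M`. Proof: `x₀`
divides `v 0 * x₁ ^ t` so `v 0 = x₀ u 0`; subtract `u 0` times the first row; then `v 0 = 0` and the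
relation is divisible by `x₀`, leaving the same relation for `t - 1`. (Or: define
`u i = ∑ j ≤ i, (-1)^(i-j) v j x₁^(i-j) / x₀^(i-j+1)` step by step: by induction on `i` the polynomial
`u i` with `x₀ u i + x₁ u (i-1) = v i` exists.) -/
theorem bas_HB {k : Type} [Field k] (t : ℕ) : HB (Lin ![J0 k t, J1 k t]) := by
  intro v hv
  obtain ⟨U, hU0, hUt, hU⟩ := bas_aux t (fun j => if h : j < t + 1 then v ⟨j, h⟩ else 0) 0 (by
    rw [zero_mul, ← hv, Finset.sum_range]
    refine Finset.sum_congr rfl fun j _ => ?_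
    rw [dif_pos j.2, bas_minor]
    rfl)
  refine ⟨fun i => U (i + 1), fun j => ?_⟩
  have h1 := hU j (by omega)
  rw [dif_pos j.2] at h1
  rw [h1]
  simp only [bas_entry, mul_add, mul_ite, mul_zero, Finset.sum_add_distrib]
  congr 1
  · -- the terms with `x₀`
    by_cases hj : (j : ℕ) < t
    · rw [Finset.sum_eq_single (⟨j, hj⟩ : Fin t)]
      · rw [if_pos (by ext; rfl)]
        ring
      · intro i _ hi
        rw [if_neg]
        intro h
        apply hi
        ext
        have := congrArg Fin.val h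
        simpa using this.symm
      · intro h
        exact absurd (Finset.mem_univ _) h
    · have hjt : (j : ℕ) = t := by omega
      rw [hjt, hUt, mul_zero]
      symm
      apply Finset.sum_eq_zero
      intro i _
      rw [if_neg]
      intro h
      have := congrArg Fin.val h
      simp at this
      omega
  · by_cases hj : (j : ℕ) = 0
    · rw [hj, hU0, mul_zero]
      symm
      apply Finset.sum_eq_zero
      intro i _
      rw [if_neg]
      intro h
      have := congrArg Fin.val h
      simp at this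
      omega
    · have hj' : (j : ℕ) - 1 < t := by omega
      rw [Finset.sum_eq_single (⟨(j : ℕ) - 1, hj'⟩ : Fin t)]
      · rw [if_pos (by ext; simp; omega)]
        have : (j : ℕ) - 1 + 1 = j := by omega
        simp only [this]
        ring
      · intro i _ hi
        rw [if_neg]
        intro h
        apply hi
        ext
        have := congrArg Fin.val h
        simp at this
        simp only
        omega
      · intro h
        exact absurd (Finset.mem_univ _) h

theorem bas_aux2 {k : Type} [Field k] (t : ℕ) : ∀ (w : ℕ → MvPolynomial (Fin 2) k),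
    (∀ i < t, X 0 * w i + X 1 * w (i + 1) = 0) →
    ∃ h : MvPolynomial (Fin 2) k, ∀ j ≤ t, w j = h * kv k t j := by
  induction t with
  | zero =>
    intro w _
    refine ⟨w 0, fun j hj => ?_⟩
    have hj0 : j = 0 := by omega
    subst hj0
    simp [kv]
  | succ t ih =>
    intro w hw
    obtain ⟨h, hh⟩ := ih (fun j => w (j + 1)) (fun i hi => hw (i + 1) (by omega))
    have e1 := hw 0 (by omega)
    have e2 := hh 0 (by omega)
    simp only [zero_add] at e1 e2
    have e3 : kv k t 0 = X 1 ^ t := by simp [kv]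
    rw [e3] at e2
    rw [e2] at e1
    have e4 : h * X 1 ^ (t + 1) = X 0 * (-w 0) := by
      linear_combination e1
    obtain ⟨c, hc⟩ := dvd_of_mul_pow _ _ _ e4
    have e5 : w 0 = -c * X 1 ^ (t + 1) := by
      rw [hc, mul_assoc] at e4
      have := mul_left_cancel₀ (X_ne_zero 0) e4
      linear_combination this
    refine ⟨-c, fun j hj => ?_⟩
    rcases j with _ | j
    · rw [e5]
      simp [kv]
    · have e6 := hh j (by omega)
      rw [e6, hc]
      unfold kv
      rw [Nat.add_sub_add_right]
      ring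

/-- if `x₀ w i + x₁ w (i+1) = 0` for all `i < t` then `w j = h (-1)^j x₀^j x₁^(t-j)`: by induction
`x₀ ^ j w 0 = (-1)^j x₁ ^ j w j`, so `x₁ ^ t ∣ w 0`. -/
theorem bas_CK {k : Type} [Field k] (t : ℕ) : CK (Lin ![J0 k t, J1 k t]) := by
  intro w hw
  obtain ⟨h, hh⟩ := bas_aux2 t (fun j => if h : j < t + 1 then w ⟨j, h⟩ else 0) (by
    intro i hi
    have h1 := hw ⟨i, hi⟩
    rw [bas_row] at h1
    rw [dif_pos (by omega), dif_pos (by omega)]
    exact h1)
  refine ⟨h, fun j => ?_⟩
  have h1 := hh j (by omega)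
  rw [dif_pos j.2] at h1
  rw [bas_minor]
  exact h1

/-- the exponent of `x₀^j x₁^(m-j)` -/
noncomputable def e2 (m j : ℕ) : Fin 2 →₀ ℕ := Finsupp.single 0 j + Finsupp.single 1 (m - j)

theorem e2_zero (m j : ℕ) : e2 m j 0 = j := by simp [e2]

theorem e2_one (m j : ℕ) : e2 m j 1 = m - j := by simp [e2]

theorem monomial_e2 {k : Type} [Field k] (m j : ℕ) (a : k) :
    (monomial (e2 m j) a : MvPolynomial (Fin 2) k) = C a * (X 0 ^ j * X 1 ^ (m - j)) := by
  unfold e2
  rw [X_pow_eq_monomial, X_pow_eq_monomial, monomial_mul, mul_one, C_mul_monomial, mul_one]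

theorem eq_e2 {m : ℕ} {d : Fin 2 →₀ ℕ} (hd : d.degree = m) : d = e2 m (d 0) ∧ d 0 ≤ m := by
  have h1 : d 0 + d 1 = m := by
    rw [← hd, Finsupp.degree_eq_sum, Fin.sum_univ_two]
  refine ⟨?_, by omega⟩
  ext i
  fin_cases i
  · exact (e2_zero m (d 0)).symm
  · show d 1 = e2 m (d 0) 1
    rw [e2_one]
    omega

/-- the forms of degree `m` -/
noncomputable def frm (k : Type) [Field k] (m : ℕ) :
    (Fin (m + 1) → k) →ₗ[k] MvPolynomial (Fin 2) k where
  toFun c := ∑ j : Fin (m + 1), monomial (e2 m (j : ℕ)) (c j)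
  map_add' c c' := by simp [Finset.sum_add_distrib]
  map_smul' a c := by simp [Finset.smul_sum, smul_monomial]

theorem coeff_frm {k : Type} [Field k] (m : ℕ) (c : Fin (m + 1) → k) (j : Fin (m + 1)) :
    coeff (e2 m j) (frm k m c) = c j := by
  classical
  show coeff (e2 m j) (∑ i : Fin (m + 1), monomial (e2 m (i : ℕ)) (c i)) = c j
  rw [coeff_sum, Finset.sum_eq_single j]
  · rw [coeff_monomial, if_pos rfl]
  · intro i _ hij
    rw [coeff_monomial, if_neg]
    intro h
    apply hij
    have := DFunLike.congr_fun h 0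
    rw [e2_zero, e2_zero] at this
    exact Fin.ext this
  · intro h
    exact absurd (Finset.mem_univ _) h

theorem frm_injective {k : Type} [Field k] (m : ℕ) : Function.Injective (frm k m) := by
  intro c c' h
  funext j
  rw [← coeff_frm m c j, h, coeff_frm]

theorem range_frm {k : Type} [Field k] (m : ℕ) :
    LinearMap.range (frm k m) = homogeneousSubmodule (Fin 2) k m := by
  classical
  apply le_antisymm
  · rintro _ ⟨c, rfl⟩
    show (∑ j : Fin (m + 1), monomial (e2 m (j : ℕ)) (c j)) ∈ homogeneousSubmodule (Fin 2) k m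
    apply Submodule.sum_mem
    intro j _
    apply isHomogeneous_monomial
    rw [Finsupp.degree_eq_sum, Fin.sum_univ_two, e2_zero, e2_one]
    omega
  · intro p hp
    rw [← support_sum_monomial_coeff p]
    apply Submodule.sum_mem
    intro d hd
    have hdeg : d.degree = m := by
      rw [Finsupp.degree_eq_weight_one]
      exact hp (mem_support_iff.1 hd)
    obtain ⟨h1, h2⟩ := eq_e2 hdeg
    refine ⟨Pi.single ⟨d 0, by omega⟩ (coeff d p), ?_⟩
    show ∑ j : Fin (m + 1), monomial (e2 m (j : ℕ)) (Pi.single (M := fun _ => k) ⟨d 0, by omega⟩ (coeff d p) j) = _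
    rw [Finset.sum_eq_single (⟨d 0, by omega⟩ : Fin (m + 1))]
    · rw [Pi.single_eq_same, ← h1]
    · intro j _ hj
      rw [Pi.single_eq_of_ne hj, map_zero]
    · intro h
      exact absurd (Finset.mem_univ _) h

theorem finrank_forms (k : Type) [Field k] (m : ℕ) :
    Module.finrank k (homogeneousSubmodule (Fin 2) k m) = m + 1 := by
  rw [← range_frm, LinearMap.finrank_range_of_inj (frm_injective m), Module.finrank_fin_fun]

/-- the ideal is `(x₀, x₁) ^ t`: it has no nonzero form of degree `< t` and it contains all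
monomials of degree `≥ t`; the space of forms of degree `m` in two variables has dimension `m + 1`. -/
theorem bas_hf {k : Type} [Field k] (t m : ℕ) :
    hf (DI (Lin ![J0 k t, J1 k t])) m = if m < t then m + 1 else 0 := by
  unfold hf
  split_ifs with hm
  · rw [← finrank_forms k m]
    have hinj : Function.Injective ((Ideal.Quotient.mkₐ k
        (DI (Lin ![J0 k t, J1 k t]))).toLinearMap.domRestrict
          (homogeneousSubmodule (Fin 2) k m)) := by
      rw [← LinearMap.ker_eq_bot, LinearMap.ker_eq_bot']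
      intro p hp
      have h1 : (p : MvPolynomial (Fin 2) k) ∈ DI (Lin ![J0 k t, J1 k t]) :=
        Ideal.Quotient.eq_zero_iff_mem.1 hp
      exact Subtype.ext (DI_low _ (Lin_isHomogeneous _) m hm _ h1 p.2)
    rw [← LinearMap.finrank_range_of_inj hinj, LinearMap.range_domRestrict]
  · have h0 : (homogeneousSubmodule (Fin 2) k m).map (Ideal.Quotient.mkₐ k
        (DI (Lin ![J0 k t, J1 k t]))).toLinearMap = ⊥ := by
      rw [Submodule.eq_bot_iff]
      rintro _ ⟨p, hp, rfl⟩
      apply Ideal.Quotient.eq_zero_iff_mem.2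
      rw [← support_sum_monomial_coeff p]
      apply Ideal.sum_mem
      intro d hd
      have hdeg : d.degree = m := by
        rw [Finsupp.degree_eq_weight_one]
        exact hp (mem_support_iff.1 hd)
      obtain ⟨h1, h2⟩ := eq_e2 hdeg
      rw [h1, monomial_e2]
      -- the minor which divides the monomial
      let j : Fin (t + 1) := ⟨min (d 0) t, by omega⟩
      have h3 : minor (Lin ![J0 k t, J1 k t]) j ∈ DI (Lin ![J0 k t, J1 k t]) :=
        Ideal.subset_span ⟨j, rfl⟩
      rw [bas_minor] at h3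
      have h4 : (C (coeff (e2 m (d 0)) p) * (X 0 ^ (d 0) * X 1 ^ (m - d 0)) :
          MvPolynomial (Fin 2) k) = (C (coeff (e2 m (d 0)) p) * (-1) ^ (j : ℕ) *
            X 0 ^ (d 0 - (j : ℕ)) * X 1 ^ ((m - d 0) - (t - j : ℕ))) *
            ((-1) ^ (j : ℕ) * X 0 ^ (j : ℕ) * X 1 ^ (t - j : ℕ)) := by
        have e1 : (X 0 : MvPolynomial (Fin 2) k) ^ (d 0) =
            X 0 ^ (d 0 - (j : ℕ)) * X 0 ^ (j : ℕ) := by
          rw [← pow_add]
          congr 1
          have : (j : ℕ) = min (d 0) t := rfl
          omega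
        have e3 : (X 1 : MvPolynomial (Fin 2) k) ^ (m - d 0) =
            X 1 ^ ((m - d 0) - (t - j : ℕ)) * X 1 ^ (t - j : ℕ) := by
          rw [← pow_add]
          congr 1
          have : (j : ℕ) = min (d 0) t := rfl
          omega
        have e4 : ((-1) ^ (j : ℕ) * (-1) ^ (j : ℕ) : MvPolynomial (Fin 2) k) = 1 := by
          rw [← mul_pow]
          simp
        rw [e1, e3]
        linear_combination -(C (coeff (e2 m (d 0)) p) * X 0 ^ (d 0 - (j : ℕ)) * X 0 ^ (j : ℕ) *
          (X 1 ^ ((m - d 0) - (t - j : ℕ)) * X 1 ^ (t - j : ℕ))) * e4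
      rw [h4]
      exact Ideal.mul_mem_left _ _ h3
    rw [h0, finrank_bot]

end Pool.Agent.H56.DC
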