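import Pool.Agent.H56.DC.RGP

/-!
Part CNN. A homogeneous ideal with `R1`, `R2` which is locally prime at all points of `P³` is prime.
-/

set_option autoImplicit false

namespace Pool.Agent.H56.DC

open MvPolynomial

theorem cnn_idem_pow (I : Ideal (MvPolynomial (Fin 4) ℂ)) (h : MvPolynomial (Fin 4) ℂ)
    (hh : h * h - h ∈ I) (h0 : coeff 0 h = 0) (n : ℕ) :
    h ∈ I ⊔ idealOfVars (Fin 4) ℂ ^ n := by
  have h1 : h ∈ idealOfVars (Fin 4) ℂ := by
    rw [← pow_one (idealOfVars (Fin 4) ℂ), mem_pow_idealOfVars_iff']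
    intro x hx
    have : x = 0 := by
      rw [← Finsupp.degree_eq_zero_iff]; omega
    rw [this, h0]
  induction n with
  | zero => rw [pow_zero, Ideal.one_eq_top, sup_top_eq]; trivial
  | succ n ih =>
    have h2 : h = h * h - (h * h - h) := by ring
    rw [h2]
    refine Ideal.sub_mem _ ?_ (Ideal.mem_sup_left hh)
    obtain ⟨a, ha, b, hb, e⟩ := Submodule.mem_sup.mp ih
    have h3 : h * h = a * h + b * h := by rw [← add_mul, e]
    rw [h3]
    refine Ideal.add_mem _ (Ideal.mem_sup_left (I.mul_mem_right _ ha)) (Ideal.mem_sup_right ?_)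
    rw [pow_succ]
    exact Ideal.mul_mem_mul hb h1

theorem cnn_mem (I : Ideal (MvPolynomial (Fin 4) ℂ)) (hI : IsHom I)
    (h : MvPolynomial (Fin 4) ℂ) (hh : ∀ n, h ∈ I ⊔ idealOfVars (Fin 4) ℂ ^ n) : h ∈ I := by
  rw [← sum_homogeneousComponent h]
  refine Ideal.sum_mem _ fun i hi => ?_
  obtain ⟨a, ha, b, hb, e⟩ := Submodule.mem_sup.mp (hh (i + 1))
  rw [← e, map_add]
  refine I.add_mem (hI a ha i) ?_
  have : homogeneousComponent i b = 0 := by
    apply homogeneousComponent_eq_zero'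
    intro d hd
    have := (mem_pow_idealOfVars_iff (i + 1) b).mp hb d hd
    omega
  rw [this]
  exact I.zero_mem

/-- idempotents modulo a homogeneous ideal `I` with `1 ∉ I` are `0` or `1`. Proof: the constant term
`c` of `h` satisfies `c ^ 2 - c ∈ I`, so `c = 0` or `1`; replacing `h` by `1 - h` we may assume `c = 0`.
If `h ∉ I` let `n` be minimal with `h_n ∉ I`; then `h_n ≡ ∑_{i + j = n} h_i h_j ≡ 0`. -/
theorem idem (I : Ideal (MvPolynomial (Fin 4) ℂ)) (hI : IsHom I)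
    (h1 : (1 : MvPolynomial (Fin 4) ℂ) ∉ I) (h : MvPolynomial (Fin 4) ℂ) (hh : h * h - h ∈ I) :
    h ∈ I ∨ 1 - h ∈ I := by
  have hc : coeff 0 h * coeff 0 h - coeff 0 h = 0 := by
    by_contra hne
    have h2 := hI _ hh 0
    rw [homogeneousComponent_zero] at h2
    have e : coeff 0 (h * h - h) = coeff 0 h * coeff 0 h - coeff 0 h := by
      rw [coeff_sub]
      congr 1
      exact (constantCoeff : MvPolynomial (Fin 4) ℂ →+* ℂ).map_mul h h
    rw [e] at h2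
    apply h1
    have h3 := I.mul_mem_left (C (coeff 0 h * coeff 0 h - coeff 0 h)⁻¹) h2
    rw [← C_mul, inv_mul_cancel₀ hne, C_1] at h3
    exact h3
  have hc' : coeff 0 h = 0 ∨ coeff 0 h = 1 := by
    have : coeff 0 h * (coeff 0 h - 1) = 0 := by rw [← hc]; ring
    rcases mul_eq_zero.mp this with h2 | h2
    · exact Or.inl h2
    · exact Or.inr (sub_eq_zero.mp h2)
  rcases hc' with h0 | h0
  · exact Or.inl (cnn_mem I hI h (cnn_idem_pow I h hh h0))
  · right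
    apply cnn_mem I hI _ (cnn_idem_pow I _ _ _)
    · have : (1 - h) * (1 - h) - (1 - h) = h * h - h := by ring
      rw [this]; exact hh
    · rw [coeff_sub, h0]
      have : coeff 0 (1 : MvPolynomial (Fin 4) ℂ) = 1 := coeff_zero_one
      rw [this, sub_self]

/-- an ideal whose only common zero is at most the origin contains a power of each variable
(Nullstellensatz: `MvPolynomial.vanishingIdeal_zeroLocus_eq_radical`) -/
theorem pow_mem_of_zero (J : Ideal (MvPolynomial (Fin 4) ℂ))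
    (h : ∀ x : Fin 4 → ℂ, x ≠ 0 → ∃ F ∈ J, eval x F ≠ 0) (i : Fin 4) : ∃ N, X i ^ N ∈ J := by
  have h1 : X i ∈ J.radical := by
    rw [← MvPolynomial.vanishingIdeal_zeroLocus_eq_radical (K := ℂ)]
    rw [MvPolynomial.mem_vanishingIdeal_iff]
    intro x hx
    rw [MvPolynomial.mem_zeroLocus_iff] at hx
    by_cases hx0 : x = 0
    · simp [hx0]
    · obtain ⟨F, hF, hF0⟩ := h x hx0
      exact absurd (hx F hF) hF0
  obtain ⟨N, hN⟩ := h1
  exact ⟨N, hN⟩

/-- the ideal of all `s` with `s * f ∈ I` -/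
def cnn_a (I : Ideal (MvPolynomial (Fin 4) ℂ)) (f : MvPolynomial (Fin 4) ℂ) :
    Ideal (MvPolynomial (Fin 4) ℂ) where
  carrier := {s | s * f ∈ I}
  add_mem' {s s'} hs hs' := by
    show (s + s') * f ∈ I
    rw [add_mul]; exact I.add_mem hs hs'
  zero_mem' := by show 0 * f ∈ I; rw [zero_mul]; exact I.zero_mem
  smul_mem' c s hs := by
    show (c * s) * f ∈ I
    rw [mul_assoc]; exact I.mul_mem_left _ hs

/-- the ideal of all `s` with `s * a ⊆ I` -/
def cnn_b (I a : Ideal (MvPolynomial (Fin 4) ℂ)) : Ideal (MvPolynomial (Fin 4) ℂ) where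
  carrier := {s | ∀ r ∈ a, s * r ∈ I}
  add_mem' {s s'} hs hs' := by
    intro r hr
    rw [add_mul]; exact I.add_mem (hs r hr) (hs' r hr)
  zero_mem' := by intro r _; rw [zero_mul]; exact I.zero_mem
  smul_mem' c s hs := by
    intro r hr
    rw [smul_eq_mul, mul_assoc]; exact I.mul_mem_left _ (hs r hr)

theorem cnn_prod (I a : Ideal (MvPolynomial (Fin 4) ℂ)) (x : Fin 4 → ℂ)
    (h : ∀ r ∈ a, ∃ s, eval x s ≠ 0 ∧ s * r ∈ I) :
    ∃ s ∈ cnn_b I a, eval x s ≠ 0 := by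
  classical
  obtain ⟨S, hS⟩ := (isNoetherianRing_iff_ideal_fg _).mp inferInstance a
  have hSa : ∀ r ∈ S, r ∈ a := fun r hr => hS ▸ Ideal.subset_span hr
  choose! s hs1 hs2 using h
  refine ⟨∏ r ∈ S, s r, ?_, ?_⟩
  · have h1 : a ≤ cnn_a I (∏ r ∈ S, s r) := by
      rw [← hS, Ideal.span_le]
      intro r hr
      show r * ∏ r ∈ S, s r ∈ I
      rw [← Finset.mul_prod_erase S s hr, ← mul_assoc]
      apply I.mul_mem_right
      rw [mul_comm]
      exact hs2 r (hSa r hr)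
    intro r hr
    rw [mul_comm]
    exact h1 hr
  · rw [map_prod]
    exact Finset.prod_ne_zero_iff.mpr fun r hr => hs1 r (hSa r hr)

/-- Proof: let `f * g ∈ I`, `a = {s | s * f ∈ I}`, `b = {s | ∀ r ∈ a, s * r ∈ I}`; `I ≤ a`, `I ≤ b`,
`g ∈ a`. Claim: `a + b` has no common zero `x ≠ 0`. If `x` is not a common zero of `I`, fine. Otherwise
suppose all elements of `a` vanish at `x`; `a` is generated by finitely many `a_i`, `a_i * f ∈ I` and `hloc`
give `s_i` with `s_i(x) ≠ 0` and `s_i a_i ∈ I` (`s_i f ∈ I` is impossible as then `s_i ∈ a`); the product of the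
`s_i` is in `b`. So by `pow_mem_of_zero` `x₀ ^ N = α + β`, `x₁ ^ N = α' + β'` with `α, α' ∈ a`, `β, β' ∈ b`
(a common `N`). Modulo `I`: `α x₁ ^ N ≡ α α' ≡ α' x₀ ^ N`, so `α ≡ x₀ ^ N h` by `pow_R2`; and
`α ^ 2 ≡ α x₀ ^ N`, so `x₀ ^ (2N) (h ^ 2 - h) ∈ I`, `h ^ 2 - h ∈ I` by `pow_R1`, and by `idem` `h ∈ I` or
`1 - h ∈ I`. If `h ∈ I` then `α ∈ I`, `x₀ ^ N ∈ b` and `x₀ ^ N g ∈ I`, `g ∈ I`. If `1 - h ∈ I` then
`x₀ ^ N ∈ a`, `x₀ ^ N f ∈ I`, `f ∈ I`. -/
theorem con_prime (I : Ideal (MvPolynomial (Fin 4) ℂ)) (hI : IsHom I)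
    (h1 : (1 : MvPolynomial (Fin 4) ℂ) ∉ I) (hR1 : R1 I) (hR2 : R2 I)
    (hloc : ∀ x : Fin 4 → ℂ, x ≠ 0 → (∀ F ∈ I, eval x F = 0) → ∀ f g : MvPolynomial (Fin 4) ℂ,
      f * g ∈ I → (∃ s, eval x s ≠ 0 ∧ s * f ∈ I) ∨ (∃ s, eval x s ≠ 0 ∧ s * g ∈ I)) :
    I.IsPrime := by
  refine ⟨fun h => h1 (h ▸ trivial), ?_⟩
  intro f g hfg
  obtain ⟨a, ha⟩ : ∃ a, a = cnn_a I f := ⟨_, rfl⟩
  obtain ⟨b, hb⟩ : ∃ b, b = cnn_b I a := ⟨_, rfl⟩
  have mem_a : ∀ s, s ∈ a ↔ s * f ∈ I := fun s => by rw [ha]; rfl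
  have mem_b : ∀ s, s ∈ b ↔ ∀ r ∈ a, s * r ∈ I := fun s => by rw [hb]; rfl
  have hIa : I ≤ a := fun s hs => (mem_a s).mpr (I.mul_mem_right _ hs)
  have hIb : I ≤ b := fun s hs => (mem_b s).mpr fun r _ => I.mul_mem_right _ hs
  have hg : g ∈ a := (mem_a g).mpr (by rw [mul_comm]; exact hfg)
  have claim : ∀ x : Fin 4 → ℂ, x ≠ 0 → ∃ F ∈ a ⊔ b, eval x F ≠ 0 := by
    intro x hx
    by_contra hc
    push Not at hc
    have hIx : ∀ F ∈ I, eval x F = 0 := fun F hF => hc F (Ideal.mem_sup_left (hIa hF))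
    obtain ⟨s, hs, hs0⟩ := cnn_prod I a x (by
      intro r hr
      rcases hloc x hx hIx r f ((mem_a r).mp hr) with h2 | ⟨s, hs0, hs⟩
      · exact h2
      · exact absurd (hc s (Ideal.mem_sup_left ((mem_a s).mpr hs))) hs0)
    rw [← hb] at hs
    exact hs0 (hc s (Ideal.mem_sup_right hs))
  obtain ⟨N0, hN0⟩ := pow_mem_of_zero (a ⊔ b) claim 0
  obtain ⟨N1, hN1⟩ := pow_mem_of_zero (a ⊔ b) claim 1
  have k0 : X 0 ^ (N0 + N1) ∈ a ⊔ b := by
    rw [add_comm, pow_add]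
    exact Ideal.mul_mem_left _ _ hN0
  have k1 : X 1 ^ (N0 + N1) ∈ a ⊔ b := by
    rw [pow_add]
    exact Ideal.mul_mem_left _ _ hN1
  generalize N0 + N1 = N at k0 k1
  obtain ⟨α, hα, β, hβ, e0⟩ := Submodule.mem_sup.mp k0
  obtain ⟨α', hα', β', hβ', e1⟩ := Submodule.mem_sup.mp k1
  rw [mem_b] at hβ hβ'
  have h2 : X 1 ^ N * α - α' * X 0 ^ N ∈ I := by
    have : X 1 ^ N * α - α' * X 0 ^ N = β' * α - β * α' := by
      rw [← e0, ← e1]; ring
    rw [this]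
    exact I.sub_mem (hβ' α hα) (hβ α' hα')
  have h3 : X 1 ^ N * α ∈ I ⊔ Ideal.span {X 0 ^ N} :=
    (rgp_mem_sup I _ _).mpr ⟨_, h2, α', by ring⟩
  obtain ⟨f0, hf0, h, e2⟩ := (rgp_mem_sup I _ _).mp (pow_R2 I hR1 hR2 N N α h3)
  have h4 : X 0 ^ (N + N) * (h * h - h) ∈ I := by
    have : X 0 ^ (N + N) * (h * h - h) = f0 * (X 0 ^ N - α - h * X 0 ^ N) - β * α := by
      rw [pow_add]
      linear_combination (X 0 ^ N - α - h * X 0 ^ N) * e2 + α * e0
    rw [this]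
    exact I.sub_mem (I.mul_mem_right _ hf0) (hβ α hα)
  rcases idem I hI h1 h (pow_R1 I hR1 _ _ h4) with h5 | h5
  · right
    have hαI : α ∈ I := by
      rw [e2]; exact I.add_mem hf0 (I.mul_mem_right _ h5)
    have h6 : X 0 ^ N * g ∈ I := by
      rw [← e0, add_mul]
      exact I.add_mem (I.mul_mem_right _ hαI) (hβ g hg)
    exact pow_R1 I hR1 N g h6
  · left
    have h6 : X 0 ^ N * f ∈ I := by
      have : X 0 ^ N * f = (1 - h) * (X 0 ^ N * f) + (α * f - f0 * f) := by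
        rw [e2]; ring
      rw [this]
      exact I.add_mem (I.mul_mem_right _ h5)
        (I.sub_mem ((mem_a α).mp hα) (I.mul_mem_right _ hf0))
    exact pow_R1 I hR1 N f h6

end Pool.Agent.H56.DC
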