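import Pool.Agent.H56.DC.Defs

/-!
Part DM1. Krull's intersection theorem at a point, and orders of vanishing of polynomials.
-/

set_option autoImplicit false

namespace Pool.Agent.H56.DC

open MvPolynomial

/-- the ideal of polynomials vanishing at `x` -/
noncomputable def mx (x : Fin 4 → ℂ) : Ideal (MvPolynomial (Fin 4) ℂ) := RingHom.ker (eval x)

/-- Krull: `Ideal.mem_iInf_smul_pow_eq_bot_iff` or `Ideal.iInf_pow_smul_eq_bot...` for the noetherian
ring `S = ℂ[x]`, the ideal `mx x` and the module `S / J`: the class of `F` is fixed by some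
`r ∈ mx x`; take `s = 1 - r`. -/
theorem krull (x : Fin 4 → ℂ) (J : Ideal (MvPolynomial (Fin 4) ℂ)) (F : MvPolynomial (Fin 4) ℂ)
    (h : ∀ N, F ∈ J ⊔ mx x ^ N) : ∃ s : MvPolynomial (Fin 4) ℂ, eval x s ≠ 0 ∧ s * F ∈ J := by
  have key : (Ideal.Quotient.mk J F : MvPolynomial (Fin 4) ℂ ⧸ J) ∈
      (⨅ i : ℕ, (mx x) ^ i • ⊤ : Submodule (MvPolynomial (Fin 4) ℂ) (MvPolynomial (Fin 4) ℂ ⧸ J)) := by
    rw [Submodule.mem_iInf]
    intro N
    obtain ⟨a, ha, b, hb, hab⟩ := Submodule.mem_sup.1 (h N)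
    have h1 : (Ideal.Quotient.mk J F : MvPolynomial (Fin 4) ℂ ⧸ J) = b • (1 : MvPolynomial (Fin 4) ℂ ⧸ J) := by
      have h2 : b • (1 : MvPolynomial (Fin 4) ℂ ⧸ J) = Ideal.Quotient.mk J (b * 1) := rfl
      rw [← hab, map_add, Ideal.Quotient.eq_zero_iff_mem.2 ha, zero_add, h2, mul_one]
    rw [h1]
    exact Submodule.smul_mem_smul hb trivial
  obtain ⟨⟨r, hr⟩, hrF⟩ := ((mx x).mem_iInf_smul_pow_eq_bot_iff _).1 key
  refine ⟨1 - r, ?_, ?_⟩
  · have hr0 : eval x r = 0 := hr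
    simp [hr0]
  · rw [← Ideal.Quotient.eq_zero_iff_mem, map_mul, map_sub, map_one, sub_mul, one_mul]
    have h2 : (Ideal.Quotient.mk J r) * (Ideal.Quotient.mk J F) = Ideal.Quotient.mk J F := by
      rw [← map_mul]
      exact hrF
    rw [h2, sub_self]

/-- a polynomial not vanishing at `x` is invertible modulo `mx x ^ N` -/
theorem inv_mod (x : Fin 4 → ℂ) (s : MvPolynomial (Fin 4) ℂ) (hs : eval x s ≠ 0) (N : ℕ) :
    ∃ s', s' * s - 1 ∈ mx x ^ N := by
  have h1 : C (eval x s)⁻¹ * s - 1 ∈ mx x := by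
    change eval x _ = 0
    rw [map_sub, map_mul, eval_C, map_one, inv_mul_cancel₀ hs, sub_self]
  have h2 : (C (eval x s)⁻¹ * s - 1) ^ N ∈ mx x ^ N := Ideal.pow_mem_pow h1 N
  have h3 : C (eval x s)⁻¹ * s ∣ (1 - C (eval x s)⁻¹ * s) ^ N - 1 := by
    have := sub_dvd_pow_sub_pow (1 - C (eval x s)⁻¹ * s) 1 N
    rw [one_pow] at this
    have h4 : (1 - C (eval x s)⁻¹ * s) - 1 = -(C (eval x s)⁻¹ * s) := by ring
    rw [h4] at this
    exact (neg_dvd).1 this
  obtain ⟨t, ht⟩ := h3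
  refine ⟨-(t * C (eval x s)⁻¹), ?_⟩
  have h5 : -(t * C (eval x s)⁻¹) * s - 1 = -(1 - C (eval x s)⁻¹ * s) ^ N := by
    linear_combination ht
  rw [h5]
  apply neg_mem
  have h6 : (1 - C (eval x s)⁻¹ * s) = -(C (eval x s)⁻¹ * s - 1) := by ring
  rw [h6, neg_pow]
  exact Ideal.mul_mem_left _ _ h2

/-- orders of vanishing at the origin are additive: compare the forms of lowest degree
(`MvPolynomial.mem_pow_idealOfVars_iff`, `homogeneousComponent`, or `MvPowerSeries.order`) -/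
theorem order_add {k : Type} [Field k] {r : ℕ} (F G : MvPolynomial (Fin r) k) (n m : ℕ)
    (h : F * G ∈ idealOfVars (Fin r) k ^ (n + m)) :
    F ∈ idealOfVars (Fin r) k ^ n ∨ G ∈ idealOfVars (Fin r) k ^ m := by
  have key : ∀ (H : MvPolynomial (Fin r) k) (l : ℕ), H ∈ idealOfVars (Fin r) k ^ l ↔
      (l : ℕ∞) ≤ MvPowerSeries.order (H : MvPowerSeries (Fin r) k) := by
    intro H l
    rw [mem_pow_idealOfVars_iff']
    constructor
    · intro hH
      apply MvPowerSeries.nat_le_order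
      intro d hd
      rw [MvPolynomial.coeff_coe]
      exact hH d hd
    · intro hH d hd
      have := MvPowerSeries.coeff_of_lt_order (f := (H : MvPowerSeries (Fin r) k)) (d := d)
        (lt_of_lt_of_le (by exact_mod_cast hd) hH)
      rwa [MvPolynomial.coeff_coe] at this
  rw [key] at h ⊢
  rw [key]
  rw [MvPolynomial.coe_mul, MvPowerSeries.order_mul] at h
  by_contra hcon
  push Not at hcon
  obtain ⟨h1, h2⟩ := hcon
  have h3 : MvPowerSeries.order (F : MvPowerSeries (Fin r) k) + MvPowerSeries.order (G : MvPowerSeries (Fin r) k)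
      < (n : ℕ∞) + (m : ℕ∞) := ENat.add_lt_add h1 h2
  rw [Nat.cast_add] at h
  exact absurd h (not_le.2 h3)

end Pool.Agent.H56.DC
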