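import Pool.Agent.H56.DC.DM1

/-!
Part DM2. Local coordinates: four functions `z i` vanishing at `x` with independent gradients.
-/

set_option autoImplicit false

namespace Pool.Agent.H56.DC

open MvPolynomial

theorem DM2_grad_coord (x : Fin 4 → ℂ) (i : Fin 4) :
    grad (X i - C (x i)) x = Pi.single i 1 := by
  funext j
  unfold grad
  rw [map_sub, pderiv_C, sub_zero, pderiv_X]
  by_cases h : j = i
  · subst h
    simp
  · rw [Pi.single_eq_of_ne h, Pi.single_eq_of_ne (Ne.symm h), map_zero]

theorem DM2_ext {n : ℕ} (hn : n < 4) (w : Fin n → Fin 4 → ℂ) (hw : LinearIndependent ℂ w) :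
    ∃ i : Fin 4, LinearIndependent ℂ
      (Fin.cons (Pi.single i 1 : Fin 4 → ℂ) w : Fin (n + 1) → Fin 4 → ℂ) := by
  by_contra hcon
  push Not at hcon
  have h1 : ∀ i, (Pi.single i 1 : Fin 4 → ℂ) ∈ Submodule.span ℂ (Set.range w) := by
    intro i
    by_contra h
    exact hcon i (linearIndependent_finCons.2 ⟨hw, h⟩)
  have h2 : Submodule.span ℂ (Set.range w) = ⊤ := by
    rw [eq_top_iff]
    intro v _
    have h3 : v = ∑ i, v i • (Pi.single i 1 : Fin 4 → ℂ) := by
      funext j
      simp [Finset.sum_apply, Pi.single_apply]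
    rw [h3]
    exact Submodule.sum_mem _ (fun i _ => Submodule.smul_mem _ _ (h1 i))
  have h4 : Module.finrank ℂ (Submodule.span ℂ (Set.range w)) = n := by
    rw [finrank_span_eq_card hw, Fintype.card_fin]
  rw [h2, finrank_top] at h4
  simp at h4
  omega

/-- two independent gradients can be completed by the gradients of two coordinate functions
`X i - C (x i)` -/
theorem complete (x : Fin 4 → ℂ) (p q : MvPolynomial (Fin 4) ℂ)
    (h : LinearIndependent ℂ ![grad p x, grad q x]) :
    ∃ i j : Fin 4, LinearIndependent ℂ ![grad (X i - C (x i)) x, grad (X j - C (x j)) x,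
      grad p x, grad q x] := by
  obtain ⟨j, hj⟩ := DM2_ext (by norm_num) _ h
  obtain ⟨i, hi⟩ := DM2_ext (by norm_num) _ hj
  refine ⟨i, j, ?_⟩
  rw [DM2_grad_coord, DM2_grad_coord]
  exact hi

theorem DM2_coord_mem (x : Fin 4 → ℂ) (i : Fin 4) : X i - C (x i) ∈ mx x := by
  change eval x _ = 0
  simp

theorem DM2_taylor (x : Fin 4 → ℂ) (F : MvPolynomial (Fin 4) ℂ) :
    F - C (eval x F) - ∑ i, C (grad F x i) * (X i - C (x i)) ∈ mx x ^ 2 := by
  induction F using MvPolynomial.induction_on with
  | C a =>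
    have : (C a : MvPolynomial (Fin 4) ℂ) - C (eval x (C a)) -
        ∑ i, C (grad (C a) x i) * (X i - C (x i)) = 0 := by
      simp [grad]
    rw [this]
    exact Submodule.zero_mem _
  | add p q hp hq =>
    have : (p + q) - C (eval x (p + q)) - ∑ i, C (grad (p + q) x i) * (X i - C (x i)) =
      (p - C (eval x p) - ∑ i, C (grad p x i) * (X i - C (x i))) +
      (q - C (eval x q) - ∑ i, C (grad q x i) * (X i - C (x i))) := by
      have h1 : ∀ i, grad (p + q) x i = grad p x i + grad q x i := by
        intro i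
        simp [grad]
      simp only [h1, map_add, add_mul, Finset.sum_add_distrib]
      ring
    rw [this]
    exact Submodule.add_mem _ hp hq
  | mul_X p j hp =>
    have h1 : ∀ i, grad (p * X j) x i = grad p x i * x j + eval x p * (if i = j then 1 else 0) := by
      intro i
      unfold grad
      rw [Derivation.leibniz, map_add, smul_eq_mul, smul_eq_mul, map_mul, map_mul, eval_X,
        pderiv_X]
      by_cases h : i = j
      · subst h
        simp
        ring
      · rw [Pi.single_eq_of_ne (Ne.symm h), if_neg h, map_zero]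
        ring
    have h2 : ∑ i, C (grad (p * X j) x i) * (X i - C (x i)) =
        C (x j) * ∑ i, C (grad p x i) * (X i - C (x i)) + C (eval x p) * (X j - C (x j)) := by
      simp only [h1, map_add, add_mul, Finset.sum_add_distrib]
      congr 1
      · rw [Finset.mul_sum]
        apply Finset.sum_congr rfl
        intro i _
        rw [map_mul]
        ring
      · rw [Finset.sum_eq_single j]
        · simp
        · intro i _ hij
          simp [hij]
        · simp
    have h3 : p * X j - C (eval x (p * X j)) - ∑ i, C (grad (p * X j) x i) * (X i - C (x i)) =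
        X j * (p - C (eval x p) - ∑ i, C (grad p x i) * (X i - C (x i))) +
        (∑ i, C (grad p x i) * (X i - C (x i))) * (X j - C (x j)) := by
      rw [h2, map_mul, eval_X, map_mul]
      ring
    rw [h3]
    apply Submodule.add_mem
    · exact Ideal.mul_mem_left _ _ hp
    · rw [pow_two]
      apply Ideal.mul_mem_mul
      · exact Submodule.sum_mem _ (fun i _ => Ideal.mul_mem_left _ _ (DM2_coord_mem x i))
      · exact DM2_coord_mem x j

/-- Taylor expansion to first order: a polynomial vanishing at `x` is its linear part modulo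
`mx x ^ 2` -/
theorem taylor (x : Fin 4 → ℂ) (F : MvPolynomial (Fin 4) ℂ) (h : eval x F = 0) :
    F - ∑ i, C (grad F x i) * (X i - C (x i)) ∈ mx x ^ 2 := by
  have := DM2_taylor x F
  rwa [h, map_zero, sub_zero] at this

theorem DM2_linear (x : Fin 4 → ℂ) (z : Fin 4 → MvPolynomial (Fin 4) ℂ)
    (hz : ∀ i, eval x (z i) = 0) (hi : LinearIndependent ℂ (fun i => grad (z i) x))
    (G : MvPolynomial (Fin 4) ℂ) (hG : G ∈ mx x) :
    ∃ A : MvPolynomial (Fin 4) ℂ, G - aeval z A ∈ mx x ^ 2 := by
  have h1 : Submodule.span ℂ (Set.range (fun i => grad (z i) x)) = ⊤ := by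
    apply hi.span_eq_top_of_card_eq_finrank'
    simp
  have h2 : grad G x ∈ Submodule.span ℂ (Set.range (fun i => grad (z i) x)) := by
    rw [h1]; trivial
  obtain ⟨c, hc⟩ := (Submodule.mem_span_range_iff_exists_fun ℂ).1 h2
  refine ⟨∑ j, C (c j) * X j, ?_⟩
  have h3 := taylor x G hG
  have h4 : ∀ j, z j - ∑ i, C (grad (z j) x i) * (X i - C (x i)) ∈ mx x ^ 2 :=
    fun j => taylor x (z j) (hz j)
  have h5 : aeval z (∑ j, C (c j) * X j : MvPolynomial (Fin 4) ℂ) = ∑ j, C (c j) * z j := by
    rw [map_sum]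
    apply Finset.sum_congr rfl
    intro j _
    rw [map_mul, aeval_X]
    congr 1
    rw [aeval_C]
    rfl
  have h6 : ∑ i, C (grad G x i) * (X i - C (x i)) =
      ∑ j, C (c j) * ∑ i, C (grad (z j) x i) * (X i - C (x i)) := by
    simp only [Finset.mul_sum]
    rw [Finset.sum_comm]
    apply Finset.sum_congr rfl
    intro i _
    rw [← hc, Finset.sum_apply, map_sum, Finset.sum_mul]
    apply Finset.sum_congr rfl
    intro j _
    rw [Pi.smul_apply, smul_eq_mul, map_mul]
    ring
  have h7 : G - aeval z (∑ j, C (c j) * X j : MvPolynomial (Fin 4) ℂ) =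
      (G - ∑ i, C (grad G x i) * (X i - C (x i))) -
      ∑ j, C (c j) * (z j - ∑ i, C (grad (z j) x i) * (X i - C (x i))) := by
    rw [h5, h6]
    simp only [mul_sub, Finset.sum_sub_distrib]
    ring
  rw [h7]
  apply Submodule.sub_mem _ h3
  exact Submodule.sum_mem _ (fun j _ => Ideal.mul_mem_left _ _ (h4 j))

theorem DM2_pow (x : Fin 4 → ℂ) (z : Fin 4 → MvPolynomial (Fin 4) ℂ)
    (hz : ∀ i, eval x (z i) = 0) (hi : LinearIndependent ℂ (fun i => grad (z i) x)) (N : ℕ) :
    ∀ G ∈ mx x ^ N, ∃ A : MvPolynomial (Fin 4) ℂ, G - aeval z A ∈ mx x ^ (N + 1) := by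
  induction N with
  | zero =>
    intro G _
    refine ⟨C (eval x G), ?_⟩
    rw [aeval_C, zero_add, pow_one]
    change eval x (G - C (eval x G)) = 0
    simp
  | succ N ih =>
    intro G hG
    rw [pow_succ] at hG
    refine Submodule.mul_induction_on hG ?_ ?_
    · intro a ha b hb
      obtain ⟨A, hA⟩ := ih a ha
      obtain ⟨B, hB⟩ := DM2_linear x z hz hi b hb
      refine ⟨A * B, ?_⟩
      have h1 : a * b - aeval z (A * B) = (a - aeval z A) * b + aeval z A * (b - aeval z B) := by
        rw [map_mul]; ring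
      have h2 : aeval z A ∈ mx x ^ N := by
        have : aeval z A = a - (a - aeval z A) := by ring
        rw [this]
        exact Submodule.sub_mem _ ha (Ideal.pow_le_pow_right (Nat.le_succ N) hA)
      rw [h1]
      apply Submodule.add_mem
      · rw [pow_succ]
        exact Ideal.mul_mem_mul hA hb
      · rw [show N + 1 + 1 = N + 2 from rfl, pow_add]
        exact Ideal.mul_mem_mul h2 hB
    · intro a b ⟨A, hA⟩ ⟨B, hB⟩
      refine ⟨A + B, ?_⟩
      have : a + b - aeval z (A + B) = (a - aeval z A) + (b - aeval z B) := by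
        rw [map_add]; ring
      rw [this]
      exact Submodule.add_mem _ hA hB

/-- `z i`: functions vanishing at `x` with independent gradients. Then every polynomial is modulo
`mx x ^ N` a polynomial in the `z i`. Proof: `mx x` is generated by the `X i - C (x i)`, which are
linear combinations of the `z i` modulo `mx x ^ 2` (`taylor`); so `mx x = span (z i) + mx x ^ 2` as vector space
and by induction `mx x ^ N` is spanned modulo `mx x ^ (N + 1)` by the monomials of degree `N` in the `z i`. -/
theorem coord_surj (x : Fin 4 → ℂ) (z : Fin 4 → MvPolynomial (Fin 4) ℂ)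
    (hz : ∀ i, eval x (z i) = 0) (hi : LinearIndependent ℂ (fun i => grad (z i) x)) (N : ℕ)
    (F : MvPolynomial (Fin 4) ℂ) :
    ∃ A : MvPolynomial (Fin 4) ℂ, F - aeval z A ∈ mx x ^ N := by
  induction N with
  | zero => exact ⟨0, by simp⟩
  | succ N ih =>
    obtain ⟨A, hA⟩ := ih
    obtain ⟨B, hB⟩ := DM2_pow x z hz hi N _ hA
    refine ⟨A + B, ?_⟩
    have : F - aeval z (A + B) = F - aeval z A - aeval z B := by
      rw [map_add]; ring
    rw [this]
    exact hB

/-- the other direction -/
theorem coord_mem (x : Fin 4 → ℂ) (z : Fin 4 → MvPolynomial (Fin 4) ℂ)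
    (hz : ∀ i, eval x (z i) = 0) (N : ℕ) (A : MvPolynomial (Fin 4) ℂ)
    (h : A ∈ idealOfVars (Fin 4) ℂ ^ N) : aeval z A ∈ mx x ^ N := by
  have h1 : (idealOfVars (Fin 4) ℂ).map (aeval z : MvPolynomial (Fin 4) ℂ →ₐ[ℂ] _) ≤ mx x := by
    rw [idealOfVars, Ideal.map_span, Ideal.span_le]
    rintro _ ⟨_, ⟨i, rfl⟩, rfl⟩
    rw [aeval_X]
    exact hz i
  have h2 : aeval z A ∈ (idealOfVars (Fin 4) ℂ ^ N).map
      (aeval z : MvPolynomial (Fin 4) ℂ →ₐ[ℂ] _) := Ideal.mem_map_of_mem _ h
  rw [Ideal.map_pow] at h2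
  exact Ideal.pow_right_mono h1 N h2

/-- translation -/
noncomputable def DM2_tr (x : Fin 4 → ℂ) : MvPolynomial (Fin 4) ℂ →ₐ[ℂ] MvPolynomial (Fin 4) ℂ :=
  aeval (fun i => X i + C (x i))

theorem DM2_tr_tr (x : Fin 4 → ℂ) (F : MvPolynomial (Fin 4) ℂ) :
    DM2_tr x (DM2_tr (fun i => - x i) F) = F := by
  have : (DM2_tr x).comp (DM2_tr (fun i => - x i)) = AlgHom.id ℂ _ := by
    apply MvPolynomial.algHom_ext
    intro i
    rw [AlgHom.comp_apply]
    unfold DM2_tr
    rw [aeval_X, map_add, aeval_X, aeval_C]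
    simp
  exact DFunLike.congr_fun this F

theorem DM2_tr_mem (x : Fin 4 → ℂ) (N : ℕ) (F : MvPolynomial (Fin 4) ℂ) (h : F ∈ mx x ^ N) :
    DM2_tr x F ∈ idealOfVars (Fin 4) ℂ ^ N := by
  have h1 : (mx x).map (DM2_tr x) ≤ idealOfVars (Fin 4) ℂ := by
    rw [Ideal.map_le_iff_le_comap]
    intro G hG
    rw [Ideal.mem_comap]
    have hG' : eval x G = 0 := hG
    have h2 : constantCoeff (DM2_tr x G) = eval x G := by
      have h3 : (constantCoeff : MvPolynomial (Fin 4) ℂ →+* ℂ).comp (DM2_tr x).toRingHom = eval x := by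
        apply MvPolynomial.ringHom_ext
        · intro a
          simp [DM2_tr]
        · intro i
          simp [DM2_tr]
      exact DFunLike.congr_fun h3 G
    have h4 := (mem_pow_idealOfVars_iff' (σ := Fin 4) (R := ℂ) 1 (DM2_tr x G)).2 (by
      intro d hd
      have hd0 : d = 0 := by
        rw [← Finsupp.degree_eq_zero_iff]
        omega
      rw [hd0]
      change constantCoeff (DM2_tr x G) = 0
      rw [h2, hG'])
    rwa [pow_one] at h4
  have h2 : DM2_tr x F ∈ (mx x ^ N).map (DM2_tr x) := Ideal.mem_map_of_mem _ h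
  rw [Ideal.map_pow] at h2
  exact Ideal.pow_right_mono h1 N h2

theorem DM2_noeth {R : Type} [CommRing R] [IsNoetherianRing R] (g : R →+* R)
    (hg : Function.Surjective g) : Function.Injective g := by
  rw [injective_iff_map_eq_zero]
  intro a ha
  let K : ℕ →o Ideal R :=
    { toFun := fun n => RingHom.ker (g ^ n)
      monotone' := by
        apply monotone_nat_of_le_succ
        intro n b hb
        rw [RingHom.mem_ker] at hb ⊢
        rw [pow_succ', RingHom.mul_def, RingHom.comp_apply, hb, map_zero] }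
  obtain ⟨n, hn⟩ := monotone_stabilizes_iff_noetherian.2 inferInstance K
  have hs : Function.Surjective (g ^ n : R →+* R) := by
    rw [RingHom.coe_pow]
    exact hg.iterate n
  obtain ⟨b, hb⟩ := hs a
  have h1 : b ∈ K (n + 1) := by
    change (g ^ (n + 1)) b = 0
    rw [pow_succ', RingHom.mul_def, RingHom.comp_apply, hb, ha]
  rw [← hn (n + 1) (Nat.le_succ n)] at h1
  have h2 : (g ^ n) b = 0 := h1
  rw [← hb, h2]

/-- Proof: `A ↦ A(z)` induces a surjective (`coord_surj`) linear map of the quotients by the `N`-th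
powers of the maximal ideals, which are vector spaces of the same finite dimension (translation by `x`
is an automorphism); so it is bijective. -/
theorem coord_inj (x : Fin 4 → ℂ) (z : Fin 4 → MvPolynomial (Fin 4) ℂ)
    (hz : ∀ i, eval x (z i) = 0) (hi : LinearIndependent ℂ (fun i => grad (z i) x)) (N : ℕ)
    (A : MvPolynomial (Fin 4) ℂ) (h : aeval z A ∈ mx x ^ N) : A ∈ idealOfVars (Fin 4) ℂ ^ N := by
  let I := idealOfVars (Fin 4) ℂ ^ N
  let f : MvPolynomial (Fin 4) ℂ →+* MvPolynomial (Fin 4) ℂ :=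
    (DM2_tr x).toRingHom.comp (aeval z : MvPolynomial (Fin 4) ℂ →ₐ[ℂ] _).toRingHom
  have hf : ∀ B, f B = DM2_tr x (aeval z B) := fun B => rfl
  have hI : I ≤ I.comap f := by
    intro B hB
    rw [Ideal.mem_comap, hf]
    exact DM2_tr_mem x N _ (coord_mem x z hz N B hB)
  let g : (MvPolynomial (Fin 4) ℂ ⧸ I) →+* (MvPolynomial (Fin 4) ℂ ⧸ I) :=
    Ideal.quotientMap I f hI
  have hg : Function.Surjective g := by
    intro y
    obtain ⟨F, rfl⟩ := Ideal.Quotient.mk_surjective y
    obtain ⟨B, hB⟩ := coord_surj x z hz hi N (DM2_tr (fun i => - x i) F)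
    refine ⟨Ideal.Quotient.mk I B, ?_⟩
    rw [Ideal.quotientMap_mk, hf]
    have h1 := DM2_tr_mem x N _ hB
    rw [map_sub, DM2_tr_tr] at h1
    exact ((Ideal.Quotient.mk_eq_mk_iff_sub_mem _ _).2 h1).symm
  have hgi : Function.Injective g := DM2_noeth g hg
  have h1 : g (Ideal.Quotient.mk I A) = 0 := by
    rw [Ideal.quotientMap_mk, hf, Ideal.Quotient.eq_zero_iff_mem]
    exact DM2_tr_mem x N _ h
  have h2 : Ideal.Quotient.mk I A = 0 := hgi (by rw [h1, map_zero])
  exact Ideal.Quotient.eq_zero_iff_mem.1 h2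

end Pool.Agent.H56.DC
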