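import Pool.Agent.H56.DC.DM2

/-!
Part DOM. The local ring of a smooth curve is a domain.
-/

set_option autoImplicit false

namespace Pool.Agent.H56.DC

open MvPolynomial

/-- substitution of zero for the last two variables -/
noncomputable def domTheta : MvPolynomial (Fin 4) ℂ →ₐ[ℂ] MvPolynomial (Fin 2) ℂ :=
  aeval ![X 0, X 1, 0, 0]

/-- the inclusion of the polynomials in the first two variables -/
noncomputable def domIota : MvPolynomial (Fin 2) ℂ →ₐ[ℂ] MvPolynomial (Fin 4) ℂ :=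
  aeval ![X 0, X 1]

theorem dom_theta_mem (N : ℕ) (P : MvPolynomial (Fin 4) ℂ)
    (h : P ∈ idealOfVars (Fin 4) ℂ ^ N) : domTheta P ∈ idealOfVars (Fin 2) ℂ ^ N := by
  have h1 : (idealOfVars (Fin 4) ℂ).map domTheta ≤ idealOfVars (Fin 2) ℂ := by
    rw [idealOfVars, Ideal.map_span, Ideal.span_le]
    rintro _ ⟨_, ⟨i, rfl⟩, rfl⟩
    change domTheta (X i) ∈ idealOfVars (Fin 2) ℂ
    unfold domTheta
    rw [aeval_X]
    fin_cases i
    · exact Ideal.subset_span ⟨0, rfl⟩
    · exact Ideal.subset_span ⟨1, rfl⟩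
    · exact Ideal.zero_mem _
    · exact Ideal.zero_mem _
  have h2 : domTheta P ∈ (idealOfVars (Fin 4) ℂ ^ N).map domTheta := Ideal.mem_map_of_mem _ h
  rw [Ideal.map_pow] at h2
  exact Ideal.pow_right_mono h1 N h2

theorem dom_iota_mem (N : ℕ) (P : MvPolynomial (Fin 2) ℂ)
    (h : P ∈ idealOfVars (Fin 2) ℂ ^ N) : domIota P ∈ idealOfVars (Fin 4) ℂ ^ N := by
  have h1 : (idealOfVars (Fin 2) ℂ).map domIota ≤ idealOfVars (Fin 4) ℂ := by
    rw [idealOfVars, Ideal.map_span, Ideal.span_le]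
    rintro _ ⟨_, ⟨i, rfl⟩, rfl⟩
    change domIota (X i) ∈ idealOfVars (Fin 4) ℂ
    unfold domIota
    rw [aeval_X]
    fin_cases i
    · exact Ideal.subset_span ⟨0, rfl⟩
    · exact Ideal.subset_span ⟨1, rfl⟩
  have h2 : domIota P ∈ (idealOfVars (Fin 2) ℂ ^ N).map domIota := Ideal.mem_map_of_mem _ h
  rw [Ideal.map_pow] at h2
  exact Ideal.pow_right_mono h1 N h2

theorem dom_iota_theta (P : MvPolynomial (Fin 4) ℂ) :
    P - domIota (domTheta P) ∈ Ideal.span {(X 2 : MvPolynomial (Fin 4) ℂ), X 3} := by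
  induction P using MvPolynomial.induction_on with
  | C a =>
    have : domIota (domTheta (C a)) = C a := by
      unfold domIota domTheta
      rw [← algebraMap_eq, AlgHom.commutes, AlgHom.commutes]
    rw [this, sub_self]
    exact Ideal.zero_mem _
  | add p q hp hq =>
    rw [map_add, map_add]
    have : p + q - (domIota (domTheta p) + domIota (domTheta q)) =
      (p - domIota (domTheta p)) + (q - domIota (domTheta q)) := by ring
    rw [this]
    exact Ideal.add_mem _ hp hq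
  | mul_X p i hp =>
    rw [map_mul, map_mul]
    have : p * X i - domIota (domTheta p) * domIota (domTheta (X i)) =
      (p - domIota (domTheta p)) * X i +
        domIota (domTheta p) * (X i - domIota (domTheta (X i))) := by ring
    rw [this]
    refine Ideal.add_mem _ (Ideal.mul_mem_right _ _ hp) (Ideal.mul_mem_left _ _ ?_)
    unfold domTheta domIota
    rw [aeval_X]
    fin_cases i
    · simp
    · simp
    · simpa using Ideal.subset_span (Set.mem_insert _ _)
    · simpa using Ideal.subset_span (Set.mem_insert_of_mem _ (Set.mem_singleton _))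

theorem dom_back (x : Fin 4 → ℂ) (z : Fin 4 → MvPolynomial (Fin 4) ℂ)
    (hz : ∀ i, eval x (z i) = 0) (n : ℕ) (A : MvPolynomial (Fin 4) ℂ)
    (h : domTheta A ∈ idealOfVars (Fin 2) ℂ ^ n) :
    aeval z A ∈ Ideal.span {z 2, z 3} ⊔ mx x ^ n := by
  have h1 := coord_mem x z hz n _ (dom_iota_mem n _ h)
  obtain ⟨α, β, hαβ⟩ := Ideal.mem_span_pair.mp (dom_iota_theta A)
  have h2 : aeval z A = (aeval z α * z 2 + aeval z β * z 3) + aeval z (domIota (domTheta A)) := by
    have h3 : A = α * X 2 + β * X 3 + domIota (domTheta A) := by rw [hαβ]; ring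
    conv_lhs => rw [h3]
    rw [map_add, map_add, map_mul, map_mul, aeval_X, aeval_X]
  rw [h2]
  exact Submodule.add_mem_sup (Ideal.mem_span_pair.mpr ⟨_, _, rfl⟩) h1

/-- Proof. Let `J = (p, q)` and `𝔪 = mx x`. Suppose not; by `krull` there are `n`, `m` with
`f ∉ J + 𝔪 ^ n` and `g ∉ J + 𝔪 ^ m`. Let `N = n + m` and `z = ![X i - C (x i), X j - C (x j), p, q]` as in
`complete`. By `coord_surj`, `f ≡ A(z)`, `g ≡ B(z)` modulo `𝔪 ^ N`. As `s0 f g ∈ J` and `s0` is invertible
modulo `𝔪 ^ N` (`inv_mod`), `f g ∈ J + 𝔪 ^ N`, so `A(z) B(z) ∈ J + 𝔪 ^ N`: `A(z) B(z) - α p - β q ∈ 𝔪 ^ N`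
with `α ≡ α'(z)`, `β ≡ β'(z)` modulo `𝔪 ^ N` (`coord_surj`), so by `coord_inj`
`A B - α' X 2 - β' X 3 ∈ 𝔫 ^ N`, `𝔫 = idealOfVars`. Let `θ : ℂ[X 0, …, X 3] → ℂ[X 0, X 1]` be the
substitution of `0` for `X 2`, `X 3`. Then `θ A * θ B ∈ 𝔫 ^ (n + m)`, so by `order_add` (in two variables)
`θ A ∈ 𝔫 ^ n` or `θ B ∈ 𝔫 ^ m`. In the first case `A ∈ (X 2, X 3) + 𝔫 ^ n`, so `A(z) ∈ J + 𝔪 ^ n`
(`coord_mem`) and `f ∈ J + 𝔪 ^ n`, contradiction. -/
theorem dom_local (x : Fin 4 → ℂ) (p q : MvPolynomial (Fin 4) ℂ) (hp : eval x p = 0)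
    (hq : eval x q = 0) (h : LinearIndependent ℂ ![grad p x, grad q x])
    (s0 f g : MvPolynomial (Fin 4) ℂ) (hs : eval x s0 ≠ 0)
    (hfg : s0 * (f * g) ∈ Ideal.span {p, q}) :
    (∃ s, eval x s ≠ 0 ∧ s * f ∈ Ideal.span {p, q}) ∨
      (∃ s, eval x s ≠ 0 ∧ s * g ∈ Ideal.span {p, q}) := by
  by_contra hcon
  rw [not_or] at hcon
  obtain ⟨hf, hg⟩ := hcon
  have hn : ∃ n, f ∉ Ideal.span {p, q} ⊔ mx x ^ n := by
    by_contra h1
    push Not at h1
    exact hf (krull x _ f h1)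
  have hm : ∃ m, g ∉ Ideal.span {p, q} ⊔ mx x ^ m := by
    by_contra h1
    push Not at h1
    exact hg (krull x _ g h1)
  obtain ⟨n, hn⟩ := hn
  obtain ⟨m, hm⟩ := hm
  obtain ⟨i, j, hij⟩ := complete x p q h
  obtain ⟨z, hzdef⟩ : ∃ z : Fin 4 → MvPolynomial (Fin 4) ℂ,
    z = ![X i - C (x i), X j - C (x j), p, q] := ⟨_, rfl⟩
  have hz2 : z 2 = p := by rw [hzdef]; rfl
  have hz3 : z 3 = q := by rw [hzdef]; rfl
  have hz : ∀ i, eval x (z i) = 0 := by
    intro l
    rw [hzdef]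
    fin_cases l
    · simp
    · simp
    · exact hp
    · exact hq
  have hzi : LinearIndependent ℂ (fun i => grad (z i) x) := by
    have : (fun i => grad (z i) x) = ![grad (X i - C (x i)) x, grad (X j - C (x j)) x,
      grad p x, grad q x] := by
      funext l
      rw [hzdef]
      fin_cases l <;> rfl
    rw [this]
    exact hij
  have hmn : mx x ^ (n + m) ≤ mx x ^ n := Ideal.pow_le_pow_right (Nat.le_add_right n m)
  have hmm : mx x ^ (n + m) ≤ mx x ^ m := Ideal.pow_le_pow_right (Nat.le_add_left m n)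
  obtain ⟨A, hA⟩ := coord_surj x z hz hzi (n + m) f
  obtain ⟨B, hB⟩ := coord_surj x z hz hzi (n + m) g
  obtain ⟨s', hs'⟩ := inv_mod x s0 hs (n + m)
  have h1 : f * g ∈ Ideal.span {p, q} ⊔ mx x ^ (n + m) := by
    have h2 : f * g = s' * (s0 * (f * g)) - (s' * s0 - 1) * (f * g) := by ring
    rw [h2]
    exact Ideal.sub_mem _ (Ideal.mem_sup_left (Ideal.mul_mem_left _ _ hfg))
      (Ideal.mem_sup_right (Ideal.mul_mem_right _ _ hs'))
  have h2 : aeval z A * aeval z B ∈ Ideal.span {p, q} ⊔ mx x ^ (n + m) := by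
    have h3 : aeval z A * aeval z B =
      f * g - ((f - aeval z A) * g + aeval z A * (g - aeval z B)) := by ring
    rw [h3]
    exact Ideal.sub_mem _ h1 (Ideal.mem_sup_right
      (Ideal.add_mem _ (Ideal.mul_mem_right _ _ hA) (Ideal.mul_mem_left _ _ hB)))
  obtain ⟨w, hw, μ, hμ, hsum⟩ := Submodule.mem_sup.mp h2
  obtain ⟨α, β, hαβ⟩ := Ideal.mem_span_pair.mp hw
  obtain ⟨α', hα'⟩ := coord_surj x z hz hzi (n + m) α
  obtain ⟨β', hβ'⟩ := coord_surj x z hz hzi (n + m) β
  have h3 : aeval z (A * B - α' * X 2 - β' * X 3) ∈ mx x ^ (n + m) := by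
    have h4 : aeval z (A * B - α' * X 2 - β' * X 3) =
        (α - aeval z α') * p + (β - aeval z β') * q + μ := by
      rw [map_sub, map_sub, map_mul, map_mul, map_mul, aeval_X, aeval_X, hz2, hz3]
      linear_combination -hαβ - hsum
    rw [h4]
    exact Ideal.add_mem _ (Ideal.add_mem _ (Ideal.mul_mem_right _ _ hα')
      (Ideal.mul_mem_right _ _ hβ')) hμ
  have h4 := dom_theta_mem _ _ (coord_inj x z hz hzi (n + m) _ h3)
  have h5 : domTheta (A * B - α' * X 2 - β' * X 3) = domTheta A * domTheta B := by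
    rw [map_sub, map_sub, map_mul, map_mul, map_mul]
    have e2 : domTheta (X 2) = 0 := by unfold domTheta; rw [aeval_X]; rfl
    have e3 : domTheta (X 3) = 0 := by unfold domTheta; rw [aeval_X]; rfl
    rw [e2, e3]
    ring
  rw [h5] at h4
  rcases order_add _ _ n m h4 with h6 | h6
  · apply hn
    have h7 := dom_back x z hz n A h6
    rw [hz2, hz3] at h7
    have h8 : f = (f - aeval z A) + aeval z A := by ring
    rw [h8]
    exact Ideal.add_mem _ (Ideal.mem_sup_right (hmn hA)) h7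
  · apply hm
    have h7 := dom_back x z hz m B h6
    rw [hz2, hz3] at h7
    have h8 : g = (g - aeval z B) + aeval z B := by ring
    rw [h8]
    exact Ideal.add_mem _ (Ideal.mem_sup_right (hmm hB)) h7

end Pool.Agent.H56.DC
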