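import Mathlib

/-!
MP_d0789b: definitions.

`C ⊂ P³` is given by its homogeneous ideal `I ⊂ ℂ[x₀, …, x₃]`; `(C, O_C(1))` is the pair of interest.
-/

set_option autoImplicit false

namespace Pool.Agent.H56.DC

open MvPolynomial

/-- the dimension of the degree `n` part of `k[x] / I` -/
noncomputable def hf {k : Type} [Field k] {r : ℕ} (I : Ideal (MvPolynomial (Fin r) k)) (n : ℕ) : ℕ :=
  Module.finrank k ((homogeneousSubmodule (Fin r) k n).map (Ideal.Quotient.mkₐ k I).toLinearMap)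

/-- `I` is a homogeneous ideal -/
def IsHom {k : Type} [CommRing k] {r : ℕ} (I : Ideal (MvPolynomial (Fin r) k)) : Prop :=
  ∀ F ∈ I, ∀ n, homogeneousComponent n F ∈ I

/-- the gradient of `F` at `x` -/
noncomputable def grad (F : MvPolynomial (Fin 4) ℂ) (x : Fin 4 → ℂ) : Fin 4 → ℂ :=
  fun i => eval x (pderiv i F)

/-- `I` is the homogeneous ideal of a smooth irreducible curve of degree `d` and genus `g` in `P³` -/
structure IsCurve (I : Ideal (MvPolynomial (Fin 4) ℂ)) (d g : ℕ) : Prop where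
  prime : I.IsPrime
  hom : IsHom I
  hilbert : ∃ n₀, ∀ n, n₀ ≤ n → (hf I n : ℤ) = d * n + 1 - g
  smooth : ∀ x : Fin 4 → ℂ, x ≠ 0 → (∀ F ∈ I, eval x F = 0) →
    ∃ F ∈ I, ∃ G ∈ I, LinearIndependent ℂ ![grad F x, grad G x]

/-- every section `F / G` of `O_C(n)` which is regular on the curve `C` of `I` is given by a form of
degree `n`: the homogeneous coordinate ring of `C` is the ring of sections of `O_C(1)` -/
def ProjNormal (I : Ideal (MvPolynomial (Fin 4) ℂ)) : Prop :=
  ∀ (m n : ℕ) (F G : MvPolynomial (Fin 4) ℂ), F.IsHomogeneous (m + n) → G.IsHomogeneous m →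
    G ∉ I → (∀ i, ∃ N, X i ^ N * F ∈ I ⊔ Ideal.span {G}) → ∃ H : MvPolynomial (Fin 4) ℂ,
      H.IsHomogeneous n ∧ F - G * H ∈ I

section family

variable (A : Type) [CommRing A] [IsDomain A] [ValuationRing A] [Algebra ℂ A]

/-- the residue field -/
abbrev Res : Type := IsLocalRing.ResidueField A

/-- the ideal of `C` after the extension of the field to the residue field of `A` -/
noncomputable abbrev IRes (I : Ideal (MvPolynomial (Fin 4) ℂ)) :
    Ideal (MvPolynomial (Fin 4) (Res A)) :=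
  I.map (MvPolynomial.map (algebraMap ℂ (Res A)))

/-- `T = ⨁ 𝒯 n` is the ring of sections of a family of pairs `(curve, line bundle)` over the valuation
ring `A`, with `h⁰ ≥ 4` and special fibre `(C, O_C(1))` -/
structure IsFamily (I : Ideal (MvPolynomial (Fin 4) ℂ)) {T : Type} [CommRing T] [Algebra A T]
    (𝒯 : ℕ → Submodule A T) [GradedAlgebra 𝒯]
    (sp : T →ₐ[A] (MvPolynomial (Fin 4) (Res A) ⧸ IRes A I)) : Prop where
  fg : ∀ n, (𝒯 n).FG
  tf : ∀ (a : A) (s : T), a • s = 0 → a = 0 ∨ s = 0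
  four : 4 ≤ Module.finrank A (𝒯 1)
  deg : ∀ n, ∀ s ∈ 𝒯 n, ∃ P : MvPolynomial (Fin 4) (Res A), P.IsHomogeneous n ∧
    sp s = Ideal.Quotient.mk (IRes A I) P
  ker : ∀ n, ∀ s ∈ 𝒯 n, sp s = 0 → s ∈ IsLocalRing.maximalIdeal A • 𝒯 n
  surj : ∃ n₀, ∀ n, n₀ ≤ n → ∀ P : MvPolynomial (Fin 4) (Res A), P.IsHomogeneous n →
    ∃ s ∈ 𝒯 n, sp s = Ideal.Quotient.mk (IRes A I) P

/-- the generic member of the family `T` is `(C', O(1))` for a closed subscheme `C'` of `P³` defined
over a field of transcendence degree at most `N` over `ℂ` -/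
def GenericOver (N : ℕ) {T : Type} [CommRing T] [Algebra A T] (𝒯 : ℕ → Submodule A T) : Prop :=
  ∃ (F₀ : IntermediateField ℂ (FractionRing A)) (J : Ideal (MvPolynomial (Fin 4) F₀))
    (y : Fin 4 → T), Algebra.trdeg ℂ F₀ ≤ N ∧ IsHom J ∧
    (∀ i, y i ∈ 𝒯 1) ∧
    (∀ s : T, ∃ a : A, a ≠ 0 ∧ ∃ P : MvPolynomial (Fin 4) A, a • s = aeval y P) ∧
    ∀ P : MvPolynomial (Fin 4) A, aeval y P = 0 ↔
      MvPolynomial.map (algebraMap A (FractionRing A)) P ∈
        J.map (MvPolynomial.map (algebraMap F₀ (FractionRing A)))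

end family

/-- every component of the space of pairs `(curve, line bundle)` with `h⁰ ≥ 4` through `(C, O_C(1))`
has dimension at most `N` -/
def LocDim (I : Ideal (MvPolynomial (Fin 4) ℂ)) (N : ℕ) : Prop :=
  ∀ (A : Type) [CommRing A] [IsDomain A] [ValuationRing A] [Algebra ℂ A]
    (T : Type) [CommRing T] [Algebra A T] (𝒯 : ℕ → Submodule A T) [GradedAlgebra 𝒯]
    (sp : T →ₐ[A] (MvPolynomial (Fin 4) (Res A) ⧸ IRes A I)),
    IsFamily A I 𝒯 sp → GenericOver A N 𝒯

/-! Determinantal ideals. -/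

/-- the signed maximal minors of a `t × (t + 1)` matrix -/
noncomputable def minor {D : Type} [CommRing D] {t : ℕ} (M : Matrix (Fin t) (Fin (t + 1)) D)
    (j : Fin (t + 1)) : D :=
  (-1) ^ (j : ℕ) * (M.submatrix id j.succAbove).det

/-- the ideal of maximal minors -/
def DI {D : Type} [CommRing D] {t : ℕ} (M : Matrix (Fin t) (Fin (t + 1)) D) : Ideal D :=
  Ideal.span (Set.range (minor M))

/-- the syzygies of the minors are generated by the rows -/
def HB {D : Type} [CommRing D] {t : ℕ} (M : Matrix (Fin t) (Fin (t + 1)) D) : Prop :=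
  ∀ v : Fin (t + 1) → D, ∑ j, v j * minor M j = 0 → ∃ u : Fin t → D, ∀ j, v j = ∑ i, u i * M i j

/-- the kernel of `M` is generated by the vector of minors -/
def CK {D : Type} [CommRing D] {t : ℕ} (M : Matrix (Fin t) (Fin (t + 1)) D) : Prop :=
  ∀ w : Fin (t + 1) → D, (∀ i, ∑ j, M i j * w j = 0) → ∃ h : D, ∀ j, w j = h * minor M j

/-- the matrix of linear forms with coefficient matrices `c l` -/
noncomputable def Lin {k : Type} [Field k] {r t : ℕ} (c : Fin r → Matrix (Fin t) (Fin (t + 1)) k) :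
    Matrix (Fin t) (Fin (t + 1)) (MvPolynomial (Fin r) k) :=
  fun i j => ∑ l, C (c l i j) * X l

/-- the identity matrix followed by a zero column -/
def J0 (k : Type) [Field k] (t : ℕ) : Matrix (Fin t) (Fin (t + 1)) k :=
  fun i j => if j = i.castSucc then 1 else 0

/-- the identity matrix preceded by a zero column -/
def J1 (k : Type) [Field k] (t : ℕ) : Matrix (Fin t) (Fin (t + 1)) k :=
  fun i j => if j = i.succ then 1 else 0

/-- the coefficient matrices of the matrix of the example -/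
def co {k : Type} [Field k] {t : ℕ} (a : Fin 2 → Fin t → Fin (t + 1) → k) :
    Fin 4 → Matrix (Fin t) (Fin (t + 1)) k :=
  ![a 0, a 1, J0 k t, J1 k t]

/-- the matrix of linear forms `x₀ a₀ + x₁ a₁ + x₂ J0 + x₃ J1` -/
noncomputable def Mat {k : Type} [Field k] {t : ℕ} (a : Fin 2 → Fin t → Fin (t + 1) → k) :
    Matrix (Fin t) (Fin (t + 1)) (MvPolynomial (Fin 4) k) :=
  Lin (co a)

/-- reduction modulo the first variable -/
noncomputable def rho (k : Type) [Field k] (r : ℕ) :
    MvPolynomial (Fin (r + 1)) k →ₐ[k] MvPolynomial (Fin r) k :=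
  aeval (Fin.cons 0 X)

/-- the entries of the matrices `a 0`, `a 1` are algebraically independent over `ℚ` -/
def Generic {t : ℕ} (a : Fin 2 → Fin t → Fin (t + 1) → ℂ) : Prop :=
  AlgebraicIndependent ℚ (fun p : Fin 2 × Fin t × Fin (t + 1) => a p.1 p.2.1 p.2.2)

/-- the value of the matrix of the example at the point `x` -/
noncomputable def Nx {t : ℕ} (a : Fin 2 → Fin t → Fin (t + 1) → ℂ) (x : Fin 4 → ℂ) :
    Matrix (Fin t) (Fin (t + 1)) ℂ :=
  fun i j => ∑ l, x l * co a l i j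

/-- `x₀` is a nonzerodivisor modulo `I` -/
def R1 {k : Type} [Field k] (I : Ideal (MvPolynomial (Fin 4) k)) : Prop :=
  ∀ p, X 0 * p ∈ I → p ∈ I

/-- `x₁` is a nonzerodivisor modulo `I + (x₀)` -/
def R2 {k : Type} [Field k] (I : Ideal (MvPolynomial (Fin 4) k)) : Prop :=
  ∀ p, X 1 * p ∈ I ⊔ Ideal.span {X 0} → p ∈ I ⊔ Ideal.span {X 0}

end Pool.Agent.H56.DC
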