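import Pool.Agent.H56.DC.NAK

/-!
Part FDA. The ring of sections of a family is generated by four sections of degree one.
-/

set_option autoImplicit false

namespace Pool.Agent.H56.DC

open MvPolynomial

/-- `y` is a system of coordinates of the family -/
structure Good (A : Type) [CommRing A] [IsDomain A] [ValuationRing A] [Algebra ℂ A]
    (I : Ideal (MvPolynomial (Fin 4) ℂ)) {T : Type} [CommRing T] [Algebra A T]
    (𝒯 : ℕ → Submodule A T) [GradedAlgebra 𝒯]
    (sp : T →ₐ[A] (MvPolynomial (Fin 4) (Res A) ⧸ IRes A I)) (y : Fin 4 → T) : Prop where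
  mem : ∀ i, y i ∈ 𝒯 1
  sp : ∀ i, sp (y i) = Ideal.Quotient.mk (IRes A I) (X i)
  gen : ∀ n, ∀ s ∈ 𝒯 n, ∃ P : MvPolynomial (Fin 4) A, P.IsHomogeneous n ∧ aeval y P = s

theorem fda_free {A : Type} [CommRing A] [IsDomain A] [ValuationRing A] {F : Type}
    [AddCommGroup F] [Module A F] [Module.Finite A F]
    (htf : ∀ (a : A) (s : F), a • s = 0 → a = 0 ∨ s = 0) : Module.Free A F := by
  have : Module.Flat A F := by
    rw [Module.Flat.flat_iff_torsion_eq_bot_of_isBezout, eq_bot_iff]
    rintro m ⟨⟨r, hr⟩, h⟩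
    rcases htf r m h with h1 | h1
    · exact absurd h1 (nonZeroDivisors.ne_zero hr)
    · simpa using h1
  exact Module.free_of_flat_of_isLocalRing

theorem fda_linear {k : Type} [CommRing k] (P : MvPolynomial (Fin 4) k) (hP : P.IsHomogeneous 1) :
    ∃ c : Fin 4 → k, P = ∑ i, C (c i) * X i := by
  have h : P ∈ homogeneousSubmodule (Fin 4) k 1 := hP
  rw [homogeneousSubmodule_one_eq_span_X] at h
  obtain ⟨c, hc⟩ := (Submodule.mem_span_range_iff_exists_fun k).mp h
  exact ⟨c, by rw [← hc]; simp [smul_eq_C_mul]⟩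

/-- Proof: `𝒯 1` is finitely generated and torsion free, so free (see `nak_ker`) of rank
`Module.finrank A (𝒯 1) ≥ 4`. Let `b_1, …, b_m` be a basis (`m ≥ 4`). The `sp b_j` are classes of
linear forms `L_j` (`deg`), and they are linearly independent over the residue field: if
`∑ c̄_j L_j ∈ IRes` then `sp (∑ c_j b_j) = 0`, so by `ker` `∑ c_j b_j ∈ m 𝒯 1` and all `c_j ∈ m`. So
the `L_j` are `m ≥ 4` linearly independent linear forms in four variables, so they span the linear
forms, and `X i = ∑ c̄_j L_j` lifts to `y i = ∑ c_j b_j`. -/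
theorem exists_coord (A : Type) [CommRing A] [IsDomain A] [ValuationRing A] [Algebra ℂ A]
    (I : Ideal (MvPolynomial (Fin 4) ℂ)) {T : Type} [CommRing T] [Algebra A T]
    (𝒯 : ℕ → Submodule A T) [GradedAlgebra 𝒯]
    (sp : T →ₐ[A] (MvPolynomial (Fin 4) (Res A) ⧸ IRes A I)) (hF : IsFamily A I 𝒯 sp) :
    ∃ y : Fin 4 → T, (∀ i, y i ∈ 𝒯 1) ∧
      ∀ i, sp (y i) = Ideal.Quotient.mk (IRes A I) (X i) := by
  classical
  have hfin : Module.Finite A (𝒯 1) := Module.Finite.iff_fg.mpr (hF.fg 1)
  have hfree : Module.Free A (𝒯 1) := by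
    apply fda_free
    intro a s h
    rcases hF.tf a s (by simpa using congrArg Subtype.val h) with h1 | h1
    · exact Or.inl h1
    · exact Or.inr (Subtype.ext h1)
  let m := Module.finrank A (𝒯 1)
  have hm : 4 ≤ m := hF.four
  let b : Module.Basis (Fin m) A (𝒯 1) := Module.finBasis A (𝒯 1)
  -- the first four basis vectors
  let e : Fin 4 → Fin m := fun i => Fin.castLE hm i
  have he : Function.Injective e := fun i j h => Fin.castLE_injective hm h
  have hL : ∀ j : Fin 4, ∃ c : Fin 4 → Res A,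
      sp (b (e j) : T) = Ideal.Quotient.mk (IRes A I) (∑ i, C (c i) * X i) := by
    intro j
    obtain ⟨P, hP, hP'⟩ := hF.deg 1 _ (b (e j)).2
    obtain ⟨c, hc⟩ := fda_linear P hP
    exact ⟨c, by rw [hP', hc]⟩
  choose c hc using hL
  have hsmul : ∀ (a : A) (p : MvPolynomial (Fin 4) (Res A)),
      a • Ideal.Quotient.mk (IRes A I) p =
        Ideal.Quotient.mk (IRes A I) (C (IsLocalRing.residue A a) * p) := by
    intro a p
    change Ideal.Quotient.mk (IRes A I) (a • p) = _
    rw [Algebra.smul_def]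
    rfl
  have hli : LinearIndependent (Res A) c := by
    rw [Fintype.linearIndependent_iff]
    intro g hg j
    -- lift the coefficients
    have hsurj : ∀ i, ∃ a : A, IsLocalRing.residue A a = g i :=
      fun i => IsLocalRing.residue_surjective (g i)
    choose a ha using hsurj
    have h0 : sp (∑ i, a i • (b (e i) : T)) = 0 := by
      rw [map_sum]
      have h1 : ∀ i, sp (a i • (b (e i) : T)) = Ideal.Quotient.mk (IRes A I)
          (C (g i) * ∑ l, C (c i l) * X l) := by
        intro i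
        rw [map_smul, hc i, hsmul, ha]
      simp_rw [h1]
      rw [← map_sum]
      have h2 : ∑ i, C (g i) * ∑ l, C (c i l) * X l = (0 : MvPolynomial (Fin 4) (Res A)) := by
        simp_rw [Finset.mul_sum]
        rw [Finset.sum_comm]
        apply Finset.sum_eq_zero
        intro l _
        have h3 : ∑ i, g i * c i l = 0 := by
          have := congrFun hg l
          simpa [Finset.sum_apply, Pi.smul_apply, smul_eq_mul] using this
        have h4 : ∑ i, C (g i) * (C (c i l) * X l) =
            (C (∑ i, g i * c i l) * X l : MvPolynomial (Fin 4) (Res A)) := by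
          rw [map_sum, Finset.sum_mul]
          apply Finset.sum_congr rfl
          intro i _
          rw [map_mul, mul_assoc]
        rw [h4, h3, map_zero, zero_mul]
      rw [h2, map_zero]
    have hmem : (∑ i, a i • (b (e i) : T)) ∈ 𝒯 1 :=
      Submodule.sum_mem _ fun i _ => Submodule.smul_mem _ _ (b (e i)).2
    have hker := hF.ker 1 _ hmem h0
    -- coefficients of an element of `m • 𝒯 1`
    have hcoef : ∀ s : T, ∀ hs : s ∈ 𝒯 1, s ∈ IsLocalRing.maximalIdeal A • 𝒯 1 →
        ∀ j, b.repr ⟨s, hs⟩ j ∈ IsLocalRing.maximalIdeal A := by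
      intro s hs h
      refine Submodule.smul_induction_on' (p := fun s _ => ∀ hs : s ∈ 𝒯 1, ∀ j,
        b.repr ⟨s, hs⟩ j ∈ IsLocalRing.maximalIdeal A) h ?_ ?_ hs
      · intro r hr n hn hs j
        have : (⟨r • n, hs⟩ : 𝒯 1) = r • ⟨n, hn⟩ := rfl
        rw [this, map_smul, Finsupp.smul_apply, smul_eq_mul]
        exact Ideal.mul_mem_right _ _ hr
      · intro x hx y hy h1 h2 hs j
        have hx' : x ∈ 𝒯 1 := Submodule.smul_le_right hx
        have hy' : y ∈ 𝒯 1 := Submodule.smul_le_right hy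
        have : (⟨x + y, hs⟩ : 𝒯 1) = ⟨x, hx'⟩ + ⟨y, hy'⟩ := rfl
        rw [this, map_add, Finsupp.add_apply]
        exact Ideal.add_mem _ (h1 hx' j) (h2 hy' j)
    have h5 := hcoef _ hmem hker (e j)
    have h6 : (⟨∑ i, a i • (b (e i) : T), hmem⟩ : 𝒯 1) = ∑ i, a i • b (e i) := by
      apply Subtype.ext
      simp
    rw [h6, map_sum] at h5
    simp only [map_smul, Module.Basis.repr_self] at h5
    rw [Finsupp.finsetSum_apply] at h5
    have h7 : ∑ i, (a i • Finsupp.single (e i) (1 : A)) (e j) = a j := by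
      rw [Finset.sum_eq_single j]
      · simp
      · intro i _ hi
        rw [Finsupp.smul_apply, Finsupp.single_apply, if_neg (fun h => hi (he h)), smul_zero]
      · simp
    rw [h7] at h5
    rw [← ha j]
    exact (IsLocalRing.residue_eq_zero_iff _).mpr h5
  -- the linear forms span
  have hspan : Submodule.span (Res A) (Set.range c) = ⊤ :=
    hli.span_eq_top_of_card_eq_finrank (by simp)
  have hcomb : ∀ i : Fin 4, ∃ g : Fin 4 → Res A, ∑ j, g j • c j = Pi.single i 1 := by
    intro i
    have h : (Pi.single i 1 : Fin 4 → Res A) ∈ Submodule.span (Res A) (Set.range c) := by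
      rw [hspan]; trivial
    exact (Submodule.mem_span_range_iff_exists_fun _).mp h
  choose g hg using hcomb
  have hsurj : ∀ i j, ∃ a : A, IsLocalRing.residue A a = g i j :=
    fun i j => IsLocalRing.residue_surjective (g i j)
  choose a ha using hsurj
  refine ⟨fun i => ∑ j, a i j • (b (e j) : T), fun i => Submodule.sum_mem _ fun j _ =>
    Submodule.smul_mem _ _ (b (e j)).2, fun i => ?_⟩
  rw [map_sum]
  have h1 : ∀ j, sp (a i j • (b (e j) : T)) = Ideal.Quotient.mk (IRes A I)
      (C (g i j) * ∑ l, C (c j l) * X l) := by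
    intro j
    rw [map_smul, hc j, hsmul, ha]
  simp_rw [h1]
  rw [← map_sum]
  congr 1
  simp_rw [Finset.mul_sum]
  rw [Finset.sum_comm]
  have h4 : ∀ l, ∑ j, C (g i j) * (C (c j l) * X l) =
      (C ((Pi.single i 1 : Fin 4 → Res A) l) * X l : MvPolynomial (Fin 4) (Res A)) := by
    intro l
    rw [← hg i]
    simp only [Finset.sum_apply, Pi.smul_apply, smul_eq_mul]
    rw [map_sum, Finset.sum_mul]
    apply Finset.sum_congr rfl
    intro j _
    rw [map_mul, mul_assoc]
  simp_rw [h4]
  rw [Finset.sum_eq_single i]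
  · simp
  · intro j _ hj
    rw [Pi.single_eq_of_ne hj, map_zero, zero_mul]
  · simp

theorem aeval_mem {A : Type} [CommRing A] {T : Type} [CommRing T] [Algebra A T]
    (𝒯 : ℕ → Submodule A T) [GradedAlgebra 𝒯] (y : Fin 4 → T) (hy : ∀ i, y i ∈ 𝒯 1)
    (n : ℕ) (P : MvPolynomial (Fin 4) A) (hP : P.IsHomogeneous n) : aeval y P ∈ 𝒯 n := by
  rw [P.as_sum, map_sum]
  refine Submodule.sum_mem _ fun d hd => ?_
  have hdeg : d.degree = n := by
    by_contra hne
    exact (mem_support_iff.mp hd) (hP.coeff_eq_zero hne)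
  rw [aeval_monomial]
  have h1 : (d.prod fun i e => y i ^ e) ∈ 𝒯 n := by
    rw [← hdeg, Finsupp.degree_apply, Finsupp.prod]
    apply SetLike.prod_mem_graded
    intro i _
    have := SetLike.pow_mem_graded (d i) (hy i)
    simpa using this
  rw [← Algebra.smul_def]
  exact Submodule.smul_mem _ _ h1

theorem sp_aeval {A : Type} [CommRing A] [IsDomain A] [ValuationRing A] [Algebra ℂ A]
    {I : Ideal (MvPolynomial (Fin 4) ℂ)} {T : Type} [CommRing T] [Algebra A T]
    (sp : T →ₐ[A] (MvPolynomial (Fin 4) (Res A) ⧸ IRes A I)) (y : Fin 4 → T)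
    (hy : ∀ i, sp (y i) = Ideal.Quotient.mk (IRes A I) (X i)) (P : MvPolynomial (Fin 4) A) :
    sp (aeval y P) = Ideal.Quotient.mk (IRes A I) (red A P) := by
  induction P using MvPolynomial.induction_on with
  | C a =>
    rw [aeval_C, AlgHom.commutes, map_C]
    rfl
  | add p q hp hq => rw [map_add, map_add, hp, hq, map_add, map_add]
  | mul_X p i hp => rw [map_mul, map_mul, hp, aeval_X, hy, map_mul, map_X, map_mul]

/-- Proof: for `s ∈ 𝒯 n`, `sp s` is the class of a form `P̄` of degree `n`; lift it to `P`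
(`exists_lift`). Then `s - P(y)` is in the kernel of `sp`, so in `m 𝒯 n`. By Nakayama the finitely
generated module `𝒯 n` is equal to its submodule of the `P(y)`. -/
theorem good_of_coord (A : Type) [CommRing A] [IsDomain A] [ValuationRing A] [Algebra ℂ A]
    (I : Ideal (MvPolynomial (Fin 4) ℂ)) {T : Type} [CommRing T] [Algebra A T]
    (𝒯 : ℕ → Submodule A T) [GradedAlgebra 𝒯]
    (sp : T →ₐ[A] (MvPolynomial (Fin 4) (Res A) ⧸ IRes A I)) (hF : IsFamily A I 𝒯 sp)
    (y : Fin 4 → T) (h1 : ∀ i, y i ∈ 𝒯 1)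
    (h2 : ∀ i, sp (y i) = Ideal.Quotient.mk (IRes A I) (X i)) : Good A I 𝒯 sp y := by
  refine ⟨h1, h2, fun n => ?_⟩
  let W : Submodule A T := (homogeneousSubmodule (Fin 4) A n).map (aeval y).toLinearMap
  have hle : 𝒯 n ≤ W ⊔ IsLocalRing.maximalIdeal A • 𝒯 n := by
    intro s hs
    obtain ⟨P, hP, hP'⟩ := hF.deg n s hs
    obtain ⟨Q, hQ, hQ'⟩ := exists_lift n P hP
    have h3 : sp (s - aeval y Q) = 0 := by
      rw [map_sub, hP', sp_aeval sp y h2, hQ', sub_self]
    have h4 := hF.ker n _ (Submodule.sub_mem _ hs (aeval_mem 𝒯 y h1 n Q hQ)) h3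
    have h5 : s = aeval y Q + (s - aeval y Q) := by ring
    rw [h5]
    exact Submodule.add_mem_sup ⟨Q, hQ, rfl⟩ h4
  have hnak : 𝒯 n ≤ W :=
    Submodule.le_of_le_smul_of_le_jacobson_bot (hF.fg n)
      (IsLocalRing.maximalIdeal_le_jacobson _) hle
  intro s hs
  obtain ⟨P, hP, rfl⟩ := hnak hs
  exact ⟨P, hP, rfl⟩

end Pool.Agent.H56.DC
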