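import Pool.Agent.H56.DC.Defs

/-!
Part MIN. Minors of a `t × (t + 1)` matrix.
-/

set_option autoImplicit false

namespace Pool.Agent.H56.DC

open MvPolynomial

theorem minor_map {D E : Type} [CommRing D] [CommRing E] (f : D →+* E) {t : ℕ}
    (M : Matrix (Fin t) (Fin (t + 1)) D) (j : Fin (t + 1)) :
    minor (M.map f) j = f (minor M j) := by
  unfold minor
  rw [map_mul, map_pow, map_neg, map_one, RingHom.map_det]
  rfl

theorem DI_map {D E : Type} [CommRing D] [CommRing E] (f : D →+* E) {t : ℕ}
    (M : Matrix (Fin t) (Fin (t + 1)) D) : (DI M).map f = DI (M.map f) := by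
  unfold DI
  rw [Ideal.map_span, ← Set.range_comp]
  congr 1
  congr 1
  funext j
  exact (minor_map f M j).symm

/-- Laplace expansion along the first row (`Matrix.det_succ_row_zero`). -/
theorem sum_minor {D : Type} [CommRing D] {t : ℕ} (M : Matrix (Fin t) (Fin (t + 1)) D)
    (v : Fin (t + 1) → D) :
    ∑ j, v j * minor M j = (Matrix.of (Fin.cons v M : Fin (t + 1) → Fin (t + 1) → D)).det := by
  rw [Matrix.det_succ_row_zero]
  refine Finset.sum_congr rfl fun j _ => ?_
  have h1 : (Matrix.of (Fin.cons v M : Fin (t + 1) → Fin (t + 1) → D)) 0 j = v j := rfl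
  have h2 : (Matrix.of (Fin.cons v M : Fin (t + 1) → Fin (t + 1) → D)).submatrix Fin.succ
      j.succAbove = M.submatrix id j.succAbove := rfl
  rw [h1, h2]
  unfold minor
  ring

theorem row_minor {D : Type} [CommRing D] {t : ℕ} (M : Matrix (Fin t) (Fin (t + 1)) D)
    (i : Fin t) : ∑ j, M i j * minor M j = 0 := by
  rw [sum_minor]
  exact Matrix.det_zero_of_row_eq (i := 0) (j := i.succ) (Fin.succ_ne_zero i).symm rfl

/-- if `M w = 0` then `w` is proportional to the vector of minors.
Proof: let `B` be the square matrix with first row `v` and other rows those of `M`. Then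
`B w = (v ⬝ w) e₀`, so `det B * w = adj(B) B w = (v ⬝ w) * (first column of adj B)`, and the first
column of `adj B` is the vector of minors; this is `(∑ v j * minor M j) * w i = (∑ v j * w j) * minor M i`.
Take `v = e_j`. -/
theorem cramer {D : Type} [CommRing D] {t : ℕ} (M : Matrix (Fin t) (Fin (t + 1)) D)
    (w : Fin (t + 1) → D) (hw : ∀ i, ∑ j, M i j * w j = 0) (i j : Fin (t + 1)) :
    w i * minor M j = w j * minor M i := by
  classical
  set B : Matrix (Fin (t + 1)) (Fin (t + 1)) D :=
    Matrix.of (Fin.cons (Pi.single j 1) M : Fin (t + 1) → Fin (t + 1) → D) with hB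
  have h1 : B.det = minor M j := by
    rw [hB, ← sum_minor]
    simp [Pi.single_apply]
  have h2 : B.mulVec w = Pi.single 0 (w j) := by
    funext a
    refine Fin.cases ?_ (fun a' => ?_) a
    · rw [Pi.single_eq_same]
      show ∑ l, (Pi.single j (1 : D) : Fin (t + 1) → D) l * w l = w j
      simp [Pi.single_apply]
    · rw [Pi.single_eq_of_ne (Fin.succ_ne_zero a')]
      exact hw a'
  have h3 : B.adjugate.mulVec (B.mulVec w) = B.det • w := by
    rw [Matrix.mulVec_mulVec, Matrix.adjugate_mul, Matrix.smul_mulVec, Matrix.one_mulVec]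
  have h4 := congrFun h3 i
  rw [h2, h1, Matrix.mulVec_single, Pi.smul_apply, Pi.smul_apply, smul_eq_mul] at h4
  have h5 : B.adjugate i 0 = minor M i := by
    rw [Matrix.adjugate_fin_succ_eq_det_submatrix]
    unfold minor
    rw [Fin.val_zero, zero_add]
    rfl
  rw [Matrix.col_apply, h5] at h4
  rw [mul_comm (w i), ← h4, MulOpposite.smul_eq_mul_unop, MulOpposite.unop_op, mul_comm]

/-- the minors of a matrix of linear forms are homogeneous of degree `t` -/
theorem minor_isHomogeneous {k : Type} [CommRing k] {r t : ℕ}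
    (M : Matrix (Fin t) (Fin (t + 1)) (MvPolynomial (Fin r) k))
    (hM : ∀ i j, (M i j).IsHomogeneous 1) (j : Fin (t + 1)) : (minor M j).IsHomogeneous t := by
  have hdet : ∀ N : Matrix (Fin t) (Fin t) (MvPolynomial (Fin r) k),
      (∀ i j, (N i j).IsHomogeneous 1) → N.det.IsHomogeneous t := by
    intro N hN
    rw [Matrix.det_apply]
    refine IsHomogeneous.sum _ _ _ fun σ _ => ?_
    have h1 : (∏ i, N (σ i) i).IsHomogeneous t := by
      have := IsHomogeneous.prod (Finset.univ : Finset (Fin t)) (fun i => N (σ i) i) (fun _ => 1)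
        (fun i _ => hN _ _)
      simpa using this
    rcases Int.units_eq_one_or (Equiv.Perm.sign σ) with h | h
    · rw [h, one_smul]; exact h1
    · rw [h, Units.neg_smul, one_smul]; exact h1.neg
  have h2 := hdet (M.submatrix id j.succAbove) (fun i l => hM _ _)
  unfold minor
  rcases neg_one_pow_eq_or (MvPolynomial (Fin r) k) (j : ℕ) with h | h
  · rw [h, one_mul]; exact h2
  · rw [h, neg_one_mul]; exact h2.neg

/-- an element of degree `n` of `DI M` is a combination of the minors with coefficients which are
homogeneous of degree `n - t`: take homogeneous components. -/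
theorem min_comp_mul {k : Type} [CommRing k] {r : ℕ} (t n : ℕ) (c m : MvPolynomial (Fin r) k)
    (hm : m.IsHomogeneous t) : homogeneousComponent n (c * m) =
      if t ≤ n then homogeneousComponent (n - t) c * m else 0 := by
  have h1 : c * m = ∑ i ∈ Finset.range (c.totalDegree + 1), homogeneousComponent i c * m := by
    rw [← Finset.sum_mul, sum_homogeneousComponent]
  rw [h1, map_sum]
  have h2 : ∀ i, homogeneousComponent n (homogeneousComponent i c * m) =
      if n = i + t then homogeneousComponent i c * m else 0 := fun i =>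
    homogeneousComponent_of_mem ((homogeneousComponent_isHomogeneous i c).mul hm)
  simp only [h2]
  split_ifs with h
  · by_cases h3 : n - t < c.totalDegree + 1
    · rw [Finset.sum_eq_single (n - t)]
      · rw [if_pos (by omega)]
      · intro i _ hi
        rw [if_neg (by omega)]
      · intro h4
        exact absurd (Finset.mem_range.mpr h3) h4
    · rw [homogeneousComponent_eq_zero (n - t) c (by omega), zero_mul]
      apply Finset.sum_eq_zero
      intro i hi
      rw [Finset.mem_range] at hi
      rw [if_neg (by omega)]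
  · apply Finset.sum_eq_zero
    intro i _
    rw [if_neg (by omega)]

theorem DI_component {k : Type} [CommRing k] {r t : ℕ}
    (M : Matrix (Fin t) (Fin (t + 1)) (MvPolynomial (Fin r) k))
    (hM : ∀ i j, (M i j).IsHomogeneous 1) (n : ℕ) (F : MvPolynomial (Fin r) k)
    (hF : F ∈ DI M) (hn : F.IsHomogeneous n) (hnt : t ≤ n) :
    ∃ c : Fin (t + 1) → MvPolynomial (Fin r) k, (∀ j, (c j).IsHomogeneous (n - t)) ∧
      F = ∑ j, c j * minor M j := by
  obtain ⟨c, hc⟩ := (Ideal.mem_span_range_iff_exists_fun).mp hF
  refine ⟨fun j => homogeneousComponent (n - t) (c j),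
    fun j => homogeneousComponent_isHomogeneous _ _, ?_⟩
  have h1 : homogeneousComponent n F = F := homogeneousComponent_eq_self hn
  rw [← h1, ← hc, map_sum]
  refine Finset.sum_congr rfl fun j _ => ?_
  rw [min_comp_mul t n _ _ (minor_isHomogeneous M hM j), if_pos hnt]

theorem DI_isHom {k : Type} [CommRing k] {r t : ℕ}
    (M : Matrix (Fin t) (Fin (t + 1)) (MvPolynomial (Fin r) k))
    (hM : ∀ i j, (M i j).IsHomogeneous 1) : IsHom (DI M) := by
  intro F hF n
  obtain ⟨c, hc⟩ := (Ideal.mem_span_range_iff_exists_fun).mp hF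
  rw [← hc, map_sum]
  refine Ideal.sum_mem _ fun j _ => ?_
  rw [min_comp_mul t n _ _ (minor_isHomogeneous M hM j)]
  split_ifs
  · exact Ideal.mul_mem_left _ _ (Ideal.subset_span ⟨j, rfl⟩)
  · exact Ideal.zero_mem _

/-- the ideal of minors contains no nonzero form of degree less than `t` -/
theorem DI_low {k : Type} [CommRing k] {r t : ℕ}
    (M : Matrix (Fin t) (Fin (t + 1)) (MvPolynomial (Fin r) k))
    (hM : ∀ i j, (M i j).IsHomogeneous 1) (n : ℕ) (hnt : n < t) (F : MvPolynomial (Fin r) k)
    (hF : F ∈ DI M) (hn : F.IsHomogeneous n) : F = 0 := by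
  obtain ⟨c, hc⟩ := (Ideal.mem_span_range_iff_exists_fun).mp hF
  have h1 : homogeneousComponent n F = F := homogeneousComponent_eq_self hn
  rw [← h1, ← hc, map_sum]
  apply Finset.sum_eq_zero
  intro j _
  rw [min_comp_mul t n _ _ (minor_isHomogeneous M hM j), if_neg (by omega)]

theorem Lin_isHomogeneous {k : Type} [Field k] {r t : ℕ}
    (c : Fin r → Matrix (Fin t) (Fin (t + 1)) k) (i : Fin t) (j : Fin (t + 1)) :
    (Lin c i j).IsHomogeneous 1 := by
  unfold Lin
  refine IsHomogeneous.sum _ _ _ fun l _ => ?_
  have := (isHomogeneous_C (Fin r) (c l i j)).mul (isHomogeneous_X k l)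
  simpa using this

end Pool.Agent.H56.DC
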