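import Pool.Agent.H56.DC.FDA
import Pool.Agent.H56.DC.MIN

/-!
Part FDB. The kernel of `A[x] → T`.
-/

set_option autoImplicit false

namespace Pool.Agent.H56.DC

open MvPolynomial

variable {A : Type} [CommRing A] [IsDomain A] [ValuationRing A] [Algebra ℂ A]
  {I : Ideal (MvPolynomial (Fin 4) ℂ)} {T : Type} [CommRing T] [Algebra A T]
  {𝒯 : ℕ → Submodule A T} [GradedAlgebra 𝒯]
  {sp : T →ₐ[A] (MvPolynomial (Fin 4) (Res A) ⧸ IRes A I)} {y : Fin 4 → T}

/-- by `sp_aeval` -/
theorem red_mem (hy : Good A I 𝒯 sp y) (P : MvPolynomial (Fin 4) A) (hP : aeval y P = 0) :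
    red A P ∈ IRes A I := by
  rw [← Ideal.Quotient.eq_zero_iff_mem, ← sp_aeval sp y hy.sp, hP, map_zero]

/-- the kernel is homogeneous: `aeval y` respects the grading (`aeval_mem`) -/
theorem ker_component (hy : Good A I 𝒯 sp y) (P : MvPolynomial (Fin 4) A) (hP : aeval y P = 0)
    (n : ℕ) : aeval y (homogeneousComponent n P) = 0 := by
  classical
  have h1 : ∑ i ∈ Finset.range (P.totalDegree + 1), aeval y (homogeneousComponent i P) = 0 := by
    rw [← map_sum, sum_homogeneousComponent, hP]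
  by_cases hn : n ∈ Finset.range (P.totalDegree + 1)
  · have h2 : (DirectSum.decompose 𝒯 (∑ i ∈ Finset.range (P.totalDegree + 1),
        aeval y (homogeneousComponent i P)) n : T) = aeval y (homogeneousComponent n P) := by
      rw [DirectSum.decompose_sum, DFinsupp.finsetSum_apply, AddSubmonoidClass.coe_finsetSum,
        Finset.sum_eq_single n]
      · exact DirectSum.decompose_of_mem_same 𝒯
          (aeval_mem 𝒯 y hy.mem n _ (homogeneousComponent_isHomogeneous n P))
      · intro i _ hi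
        exact DirectSum.decompose_of_mem_ne 𝒯
          (aeval_mem 𝒯 y hy.mem i _ (homogeneousComponent_isHomogeneous i P)) hi
      · exact fun h => absurd hn h
    rw [← h2, h1, DirectSum.decompose_zero]
    rfl
  · rw [homogeneousComponent_eq_zero, map_zero]
    simpa using hn

/-- Proof: lift `P̄` to `P'` (`exists_lift`); `sp (P'(y)) = 0` so `P'(y) ∈ m 𝒯 n` is a sum of terms
`a • Q(y)` with `a ∈ m` and forms `Q` (`Good.gen`); subtract the `C a * Q`. -/
theorem lift_mem (hF : IsFamily A I 𝒯 sp) (hy : Good A I 𝒯 sp y) (n : ℕ)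
    (P : MvPolynomial (Fin 4) (Res A)) (hP : P.IsHomogeneous n) (hPI : P ∈ IRes A I) :
    ∃ Q : MvPolynomial (Fin 4) A, Q.IsHomogeneous n ∧ red A Q = P ∧ aeval y Q = 0 := by
  obtain ⟨P', hP', hred⟩ := exists_lift n P hP
  have h0 : sp (aeval y P') = 0 := by
    rw [sp_aeval sp y hy.sp, hred]
    exact Ideal.Quotient.eq_zero_iff_mem.mpr hPI
  have h1 := hF.ker n _ (aeval_mem 𝒯 y hy.mem n P' hP') h0
  have h2 : ∀ s ∈ IsLocalRing.maximalIdeal A • 𝒯 n, ∃ R : MvPolynomial (Fin 4) A,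
      R.IsHomogeneous n ∧ red A R = 0 ∧ aeval y R = s := by
    intro s hs
    refine Submodule.smul_induction_on hs ?_ ?_
    · intro r hr m hm
      obtain ⟨Q, hQ, rfl⟩ := hy.gen n m hm
      refine ⟨C r * Q, hQ.C_mul r, ?_, ?_⟩
      · rw [map_mul, map_C, (IsLocalRing.residue_eq_zero_iff r).mpr hr, map_zero, zero_mul]
      · rw [map_mul, aeval_C, Algebra.smul_def]
    · rintro a b ⟨R, hR, hR1, rfl⟩ ⟨R', hR', hR'1, rfl⟩
      exact ⟨R + R', hR.add hR', by rw [map_add, hR1, hR'1, add_zero], by rw [map_add]⟩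
  obtain ⟨R, hR, hR1, hR2⟩ := h2 _ h1
  exact ⟨P' - R, hP'.sub hR, by rw [map_sub, hR1, hred, sub_zero], by rw [map_sub, hR2, sub_self]⟩

/-- by `exists_div` (with `ι = Unit`) and torsion-freeness -/
theorem ker_div (hF : IsFamily A I 𝒯 sp) (n : ℕ) (P : MvPolynomial (Fin 4) A)
    (hP : P.IsHomogeneous n) (h0 : red A P = 0) (hk : aeval y P = 0) :
    ∃ a ∈ IsLocalRing.maximalIdeal A, ∃ P' : MvPolynomial (Fin 4) A, P'.IsHomogeneous n ∧
      P = C a * P' ∧ aeval y P' = 0 := by
  obtain ⟨a, ha, P', h1, h2, h3⟩ := exists_div (ι := Unit) n (fun _ => P) (fun _ => hP)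
    (fun _ => h0)
  refine ⟨a, ha, P' (), h1 (), h2 (), ?_⟩
  by_cases ha0 : a = 0
  · rw [h3 ha0 (), map_zero]
  · have h4 : a • aeval y (P' ()) = 0 := by
      rw [← hk, h2 (), map_mul, aeval_C, Algebra.smul_def]
    rcases hF.tf _ _ h4 with h5 | h5
    · exact absurd h5 ha0
    · exact h5

/-- The kernel in degree `n` is generated by lifts `δ j` of generators of `IRes A I`. Proof: by
`nak_ker` for `E` = the forms of degree `n` (`forms_fg`), `F = T`, `φ = aeval y` and `W` = the forms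
`∑ c j * δ j`: if `P(y) = 0` then `red P ∈ DI M̄` (`red_mem`), so
`red P = ∑ c̄ j * minor M̄ j` (`DI_component`), lift the `c̄ j` to `c j`, and divide
`P - ∑ c j * δ j` (`ker_div`). -/
theorem ker_gen (hF : IsFamily A I 𝒯 sp) (hy : Good A I 𝒯 sp y) {t : ℕ}
    (M : Matrix (Fin t) (Fin (t + 1)) (MvPolynomial (Fin 4) (Res A)))
    (hM : ∀ i j, (M i j).IsHomogeneous 1) (hI : IRes A I = DI M)
    (δ : Fin (t + 1) → MvPolynomial (Fin 4) A) (hδ : ∀ j, (δ j).IsHomogeneous t)
    (hδr : ∀ j, red A (δ j) = minor M j) (hδ0 : ∀ j, aeval y (δ j) = 0)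
    (n : ℕ) (hn : t ≤ n) (P : MvPolynomial (Fin 4) A) (hP : P.IsHomogeneous n)
    (hk : aeval y P = 0) :
    ∃ c : Fin (t + 1) → MvPolynomial (Fin 4) A, (∀ j, (c j).IsHomogeneous (n - t)) ∧
      P = ∑ j, c j * δ j := by
  have := forms_fg (A := A) n
  have hnt : n - t + t = n := Nat.sub_add_cancel hn
  let W : Submodule A (homogeneousSubmodule (Fin 4) A n) :=
    { carrier := {w | ∃ c : Fin (t + 1) → MvPolynomial (Fin 4) A,
        (∀ j, (c j).IsHomogeneous (n - t)) ∧ (w : MvPolynomial (Fin 4) A) = ∑ j, c j * δ j}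
      zero_mem' := ⟨fun _ => 0, fun _ => isHomogeneous_zero _ _ _, by simp⟩
      add_mem' := by
        rintro a b ⟨c, hc, h⟩ ⟨c', hc', h'⟩
        refine ⟨fun j => c j + c' j, fun j => (hc j).add (hc' j), ?_⟩
        rw [Submodule.coe_add, h, h', ← Finset.sum_add_distrib]
        exact Finset.sum_congr rfl fun j _ => by ring
      smul_mem' := by
        rintro r a ⟨c, hc, h⟩
        refine ⟨fun j => C r * c j, fun j => (hc j).C_mul r, ?_⟩
        rw [Submodule.coe_smul, h, smul_eq_C_mul, Finset.mul_sum]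
        exact Finset.sum_congr rfl fun j _ => by ring }
  let φ : homogeneousSubmodule (Fin 4) A n →ₗ[A] T :=
    (aeval y).toLinearMap.comp (homogeneousSubmodule (Fin 4) A n).subtype
  have key := nak_ker (E := homogeneousSubmodule (Fin 4) A n) (F := T) hF.tf φ W ?_ ⟨P, hP⟩ hk
  · exact key
  · rintro ⟨w, hw⟩ hw0
    change aeval y w = 0 at hw0
    have h1 := red_mem hy w hw0
    rw [hI] at h1
    obtain ⟨c', hc', hw'⟩ := DI_component M hM n (red A w) h1 (IsHomogeneous.map hw _) hn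
    have hl : ∀ j, ∃ Q : MvPolynomial (Fin 4) A, Q.IsHomogeneous (n - t) ∧ red A Q = c' j :=
      fun j => exists_lift _ _ (hc' j)
    choose c hc hcr using hl
    have hsum : (∑ j, c j * δ j).IsHomogeneous n := by
      apply IsHomogeneous.sum
      intro j _
      have := (hc j).mul (hδ j)
      rwa [hnt] at this
    have hred0 : red A (w - ∑ j, c j * δ j) = 0 := by
      rw [map_sub, map_sum, hw', sub_eq_zero]
      exact Finset.sum_congr rfl fun j _ => by rw [map_mul, hcr, hδr]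
    have hk0 : aeval y (w - ∑ j, c j * δ j) = 0 := by
      rw [map_sub, map_sum, hw0, zero_sub, neg_eq_zero]
      exact Finset.sum_eq_zero fun j _ => by rw [map_mul, hδ0, mul_zero]
    obtain ⟨a, ha, P', hP', hP'1, hP'2⟩ := ker_div hF n _ (hw.sub hsum) hred0 hk0
    refine ⟨⟨∑ j, c j * δ j, hsum⟩, ⟨c, hc, rfl⟩, a, ha, ⟨P', hP'⟩, hP'2, ?_⟩
    apply Subtype.ext
    change w = ∑ j, c j * δ j + a • P'
    rw [smul_eq_C_mul, ← hP'1]
    ring

/-- in degrees `n < t` the kernel is zero: as before with `W = ⊥`, since `red P = 0` by `DI_low` -/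
theorem ker_low (hF : IsFamily A I 𝒯 sp) (hy : Good A I 𝒯 sp y) {t : ℕ}
    (M : Matrix (Fin t) (Fin (t + 1)) (MvPolynomial (Fin 4) (Res A)))
    (hM : ∀ i j, (M i j).IsHomogeneous 1) (hI : IRes A I = DI M)
    (n : ℕ) (hn : n < t) (P : MvPolynomial (Fin 4) A) (hP : P.IsHomogeneous n)
    (hk : aeval y P = 0) : P = 0 := by
  have := forms_fg (A := A) n
  let φ : homogeneousSubmodule (Fin 4) A n →ₗ[A] T :=
    (aeval y).toLinearMap.comp (homogeneousSubmodule (Fin 4) A n).subtype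
  have key := nak_ker (E := homogeneousSubmodule (Fin 4) A n) (F := T) hF.tf φ ⊥ ?_ ⟨P, hP⟩ hk
  · rw [Submodule.mem_bot] at key
    exact congrArg Subtype.val key
  · rintro ⟨w, hw⟩ hw0
    change aeval y w = 0 at hw0
    have h1 := red_mem hy w hw0
    rw [hI] at h1
    have h2 := DI_low M hM n hn (red A w) h1 (IsHomogeneous.map hw _)
    obtain ⟨a, ha, P', hP', hP'1, hP'2⟩ := ker_div hF n w hw h2 hw0
    refine ⟨0, Submodule.zero_mem _, a, ha, ⟨P', hP'⟩, hP'2, ?_⟩
    apply Subtype.ext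
    change w = 0 + a • P'
    rw [smul_eq_C_mul, ← hP'1]
    ring

end Pool.Agent.H56.DC
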