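import Pool.Agent.H56.DC.FDB

/-!
Part FDC. The kernel of `A[x] → T` is a determinantal ideal.
-/

set_option autoImplicit false

namespace Pool.Agent.H56.DC

open MvPolynomial

/-- multiplication of vectors of forms by a matrix -/
noncomputable def fdcφ {A : Type} [CommRing A] {t : ℕ}
    (L : Matrix (Fin t) (Fin (t + 1)) (MvPolynomial (Fin 4) A)) :
    (Fin (t + 1) → homogeneousSubmodule (Fin 4) A t) →ₗ[A] (Fin t → MvPolynomial (Fin 4) A) :=
  LinearMap.pi fun i => ∑ j, (LinearMap.mulLeft A (L i j)) ∘ₗ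
    (homogeneousSubmodule (Fin 4) A t).subtype ∘ₗ LinearMap.proj j

theorem fdcφ_apply {A : Type} [CommRing A] {t : ℕ}
    (L : Matrix (Fin t) (Fin (t + 1)) (MvPolynomial (Fin 4) A))
    (w : Fin (t + 1) → homogeneousSubmodule (Fin 4) A t) (i : Fin t) :
    fdcφ L w i = ∑ j, L i j * (w j : MvPolynomial (Fin 4) A) := by
  simp [fdcφ]

/-- `δ` and the vector of minors of `𝓜` agree up to a unit. Proof: `nak_ker` for `E` = the vectors of
`t + 1` forms of degree `t`, `F` = vectors of `t` polynomials, `φ w = 𝓜 w` and `W` = the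
multiples of the vector of minors of `𝓜`: if `𝓜 w = 0` then `M (red w) = 0`, so by `CK`
`red (w j) = h̄ * minor M j` with, by degrees, `h̄` constant (take the component of degree `0` of `h̄`);
lift `h̄` and divide `w - h * minor 𝓜` with `exists_div`. So `δ j = C λ * minor 𝓜 j`, and the
reduction of `λ` is `1` as `minor M j ≠ 0` for some `j`. -/
theorem delta_eq {A : Type} [CommRing A] [IsDomain A] [ValuationRing A] {t : ℕ}
    (M : Matrix (Fin t) (Fin (t + 1)) (MvPolynomial (Fin 4) (IsLocalRing.ResidueField A)))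
    (hCK : CK M) (hM0 : ∃ j, minor M j ≠ 0)
    (L : Matrix (Fin t) (Fin (t + 1)) (MvPolynomial (Fin 4) A))
    (hL : ∀ i j, (L i j).IsHomogeneous 1) (hLM : L.map (red A) = M)
    (δ : Fin (t + 1) → MvPolynomial (Fin 4) A) (hδ : ∀ j, (δ j).IsHomogeneous t)
    (hδr : ∀ j, red A (δ j) = minor M j) (hL0 : ∀ i, ∑ j, L i j * δ j = 0) :
    ∃ c : A, IsUnit c ∧ ∀ j, δ j = C c * minor L j := by
  have hE : Module.Finite A (Fin (t + 1) → homogeneousSubmodule (Fin 4) A t) := by
    have := forms_fg (A := A) t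
    infer_instance
  have hφ : ∀ w i, fdcφ L w i = ∑ j, L i j * (w j : MvPolynomial (Fin 4) A) := fdcφ_apply L
  have hmin : ∀ j, (minor L j).IsHomogeneous t := fun j => minor_isHomogeneous L hL j
  have hredL : ∀ j, red A (minor L j) = minor M j := by
    intro j
    rw [← minor_map, hLM]
  set m0 : Fin (t + 1) → homogeneousSubmodule (Fin 4) A t := fun j => ⟨minor L j, hmin j⟩ with hm0
  have htf : ∀ (a : A) (s : Fin t → MvPolynomial (Fin 4) A), a • s = 0 → a = 0 ∨ s = 0 := by
    intro a s h
    exact smul_eq_zero.mp h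
  have key := nak_ker (A := A) (E := Fin (t + 1) → homogeneousSubmodule (Fin 4) A t)
    (F := Fin t → MvPolynomial (Fin 4) A) htf (fdcφ L) (Submodule.span A {m0}) ?_
    (fun j => ⟨δ j, hδ j⟩) ?_
  · obtain ⟨c, hc⟩ := Submodule.mem_span_singleton.mp key
    have hc' : ∀ j, δ j = C c * minor L j := by
      intro j
      have := congrArg (fun w => ((w j : homogeneousSubmodule (Fin 4) A t) :
        MvPolynomial (Fin 4) A)) hc
      rw [← MvPolynomial.smul_eq_C_mul]
      exact this.symm
    refine ⟨c, ?_, hc'⟩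
    obtain ⟨j, hj⟩ := hM0
    have h1 := congrArg (red A) (hc' j)
    rw [hδr, map_mul, hredL] at h1
    have h2 : red A (C c) = C (IsLocalRing.residue A c) := by
      rw [MvPolynomial.map_C]
    rw [h2] at h1
    have h3 : (C (IsLocalRing.residue A c) - 1 : MvPolynomial (Fin 4) (IsLocalRing.ResidueField A)) *
        minor M j = 0 := by
      rw [sub_mul, one_mul, ← h1, sub_self]
    rcases mul_eq_zero.mp h3 with h4 | h4
    · have h5 : IsLocalRing.residue A c = 1 := by
        have h6 : (C (IsLocalRing.residue A c) : MvPolynomial (Fin 4) (IsLocalRing.ResidueField A)) =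
            C 1 := by
          rw [sub_eq_zero.mp h4, map_one]
        exact C_injective _ _ h6
      rw [← IsLocalRing.residue_ne_zero_iff_isUnit, h5]
      exact one_ne_zero
    · exact absurd h4 hj
  · intro w hw
    have hw1 : ∀ i, ∑ j, L i j * (w j : MvPolynomial (Fin 4) A) = 0 := by
      intro i
      rw [← hφ, hw]
      rfl
    have hw2 : ∀ i, ∑ j, M i j * red A (w j : MvPolynomial (Fin 4) A) = 0 := by
      intro i
      have := congrArg (red A) (hw1 i)
      rw [map_zero, map_sum] at this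
      rw [← this]
      refine Finset.sum_congr rfl fun j _ => ?_
      rw [map_mul, ← hLM]
      rfl
    obtain ⟨h, hh⟩ := hCK _ hw2
    have hwh : ∀ j, (red A (w j : MvPolynomial (Fin 4) A)).IsHomogeneous t :=
      fun j => (w j).2.map _
    have hminM : ∀ j, (minor M j).IsHomogeneous t := by
      intro j
      rw [← hredL]
      exact (hmin j).map _
    have hh0 : ∀ j, red A (w j : MvPolynomial (Fin 4) A) = C (coeff 0 h) * minor M j := by
      intro j
      have h1 := homogeneousComponent_eq_self (hwh j)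
      rw [hh j, min_comp_mul t t _ _ (hminM j), if_pos le_rfl, Nat.sub_self,
        homogeneousComponent_zero] at h1
      rw [hh j, ← h1]
    obtain ⟨c0, hc0⟩ := IsLocalRing.residue_surjective (coeff 0 h)
    obtain ⟨a, ha, P', hP', hPa, hPz⟩ := exists_div (A := A) (ι := Fin (t + 1)) t
      (fun j => (w j : MvPolynomial (Fin 4) A) - C c0 * minor L j) (fun j => by
        have h1 : (C c0 * minor L j).IsHomogeneous t := by
          have := (isHomogeneous_C (Fin 4) c0).mul (hmin j)
          rwa [zero_add] at this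
        exact (w j).2.sub h1) (fun j => by
        rw [map_sub, hh0, map_mul, hredL, MvPolynomial.map_C, hc0, sub_self])
    refine ⟨c0 • m0, Submodule.smul_mem _ _ (Submodule.mem_span_singleton_self _), a, ha,
      fun j => ⟨P' j, hP' j⟩, ?_, ?_⟩
    · rcases eq_or_ne a 0 with h0 | h0
      · funext i
        rw [hφ]
        apply Finset.sum_eq_zero
        intro j _
        show L i j * P' j = 0
        rw [hPz h0 j, mul_zero]
      · funext i
        rw [hφ]
        show ∑ j, L i j * P' j = 0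
        have h1 : C a * ∑ j, L i j * P' j = 0 := by
          calc C a * ∑ j, L i j * P' j
              = ∑ j, L i j * (C a * P' j) := by
                rw [Finset.mul_sum]
                exact Finset.sum_congr rfl fun j _ => by ring
            _ = ∑ j, (L i j * (w j : MvPolynomial (Fin 4) A) - C c0 * (L i j * minor L j)) := by
                refine Finset.sum_congr rfl fun j _ => ?_
                rw [← hPa j]; ring
            _ = 0 := by
                rw [Finset.sum_sub_distrib, hw1, ← Finset.mul_sum, row_minor, mul_zero, sub_zero]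
        rcases mul_eq_zero.mp h1 with h2 | h2
        · exact absurd ((C_eq_zero).mp h2) h0
        · exact h2
    · funext j
      apply Subtype.ext
      show (w j : MvPolynomial (Fin 4) A) = c0 • minor L j + a • P' j
      rw [MvPolynomial.smul_eq_C_mul, MvPolynomial.smul_eq_C_mul, ← hPa j]
      ring
  · funext i
    rw [hφ]
    exact hL0 i

variable {A : Type} [CommRing A] [IsDomain A] [ValuationRing A] [Algebra ℂ A]
  {I : Ideal (MvPolynomial (Fin 4) ℂ)} {T : Type} [CommRing T] [Algebra A T]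
  {𝒯 : ℕ → Submodule A T} [GradedAlgebra 𝒯]
  {sp : T →ₐ[A] (MvPolynomial (Fin 4) (Res A) ⧸ IRes A I)} {y : Fin 4 → T}

/-- Proof: lift `M` to a matrix `L'` of forms of degree `1` (`exists_lift`). `∑ j, L' i j * δ j` is in
the kernel with reduction `∑ j, M i j * minor M j = 0` (`row_minor`), so it is `C a * P'` (`ker_div`) and
`P' = ∑ c j * δ j` (`ker_gen`) with `c j` of degree `1`; put `L i j = L' i j - C a * c j`, `a ∈ m`. -/
theorem lift_matrix (hF : IsFamily A I 𝒯 sp) (hy : Good A I 𝒯 sp y) {t : ℕ}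
    (M : Matrix (Fin t) (Fin (t + 1)) (MvPolynomial (Fin 4) (Res A)))
    (hM : ∀ i j, (M i j).IsHomogeneous 1) (hI : IRes A I = DI M)
    (δ : Fin (t + 1) → MvPolynomial (Fin 4) A) (hδ : ∀ j, (δ j).IsHomogeneous t)
    (hδr : ∀ j, red A (δ j) = minor M j) (hδ0 : ∀ j, aeval y (δ j) = 0) :
    ∃ L : Matrix (Fin t) (Fin (t + 1)) (MvPolynomial (Fin 4) A),
      (∀ i j, (L i j).IsHomogeneous 1) ∧ L.map (red A) = M ∧ ∀ i, ∑ j, L i j * δ j = 0 := by
  have key : ∀ i : Fin t, ∃ Li : Fin (t + 1) → MvPolynomial (Fin 4) A,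
      (∀ j, (Li j).IsHomogeneous 1) ∧ (∀ j, red A (Li j) = M i j) ∧ ∑ j, Li j * δ j = 0 := by
    intro i
    choose L' hL' hL'M using fun j => exists_lift (A := A) 1 (M i j) (hM i j)
    have hQ : (∑ j, L' j * δ j).IsHomogeneous (1 + t) :=
      IsHomogeneous.sum _ _ _ fun j _ => (hL' j).mul (hδ j)
    have hQr : red A (∑ j, L' j * δ j) = 0 := by
      rw [map_sum, ← row_minor M i]
      refine Finset.sum_congr rfl fun j _ => ?_
      rw [map_mul, hL'M, hδr]
    have hQk : aeval y (∑ j, L' j * δ j) = 0 := by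
      rw [map_sum]
      apply Finset.sum_eq_zero
      intro j _
      rw [map_mul, hδ0, mul_zero]
    obtain ⟨a, ha, P', hP', hPa, hPk⟩ := ker_div hF (1 + t) _ hQ hQr hQk
    obtain ⟨c, hc, hPc⟩ := ker_gen hF hy M hM hI δ hδ hδr hδ0 (1 + t) (Nat.le_add_left t 1) P' hP' hPk
    rw [Nat.add_sub_cancel] at hc
    refine ⟨fun j => L' j - C a * c j, fun j => ?_, fun j => ?_, ?_⟩
    · have h1 : (C a * c j).IsHomogeneous 1 := by
        have := (isHomogeneous_C (Fin 4) a).mul (hc j)
        rwa [zero_add] at this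
      exact (hL' j).sub h1
    · have h2 : IsLocalRing.residue A a = 0 := (IsLocalRing.residue_eq_zero_iff a).mpr ha
      rw [map_sub, map_mul, hL'M, MvPolynomial.map_C, h2, map_zero, zero_mul, sub_zero]
    · have h3 : ∑ j, (L' j - C a * c j) * δ j = ∑ j, L' j * δ j - C a * ∑ j, c j * δ j := by
        rw [Finset.mul_sum, ← Finset.sum_sub_distrib]
        exact Finset.sum_congr rfl fun j _ => by ring
      rw [h3, ← hPc, ← hPa, sub_self]
  choose L h1 h2 h3 using key
  exact ⟨Matrix.of L, h1, Matrix.ext fun i j => h2 i j, h3⟩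

/-- Proof: lift the minors of `M` to `δ` (`lift_mem`); use `lift_matrix`, `delta_eq`, `ker_gen`,
`ker_low`, `ker_component`. -/
theorem ker_det (hF : IsFamily A I 𝒯 sp) (hy : Good A I 𝒯 sp y) {t : ℕ}
    (M : Matrix (Fin t) (Fin (t + 1)) (MvPolynomial (Fin 4) (Res A)))
    (hM : ∀ i j, (M i j).IsHomogeneous 1) (hI : IRes A I = DI M) (hCK : CK M)
    (hM0 : ∃ j, minor M j ≠ 0) :
    ∃ L : Matrix (Fin t) (Fin (t + 1)) (MvPolynomial (Fin 4) A),
      (∀ i j, (L i j).IsHomogeneous 1) ∧ ∀ P, aeval y P = 0 ↔ P ∈ DI L := by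
  have hmin : ∀ j, (minor M j).IsHomogeneous t := fun j => minor_isHomogeneous M hM j
  choose δ hδ hδr hδ0 using fun j => lift_mem hF hy t (minor M j) (hmin j)
    (by rw [hI]; exact Ideal.subset_span ⟨j, rfl⟩)
  obtain ⟨L, hL, hLM, hL0⟩ := lift_matrix hF hy M hM hI δ hδ hδr hδ0
  obtain ⟨c, hc, hδc⟩ := delta_eq M hCK hM0 L hL hLM δ hδ hδr hL0
  refine ⟨L, hL, fun P => ⟨fun hP => ?_, fun hP => ?_⟩⟩
  · rw [← sum_homogeneousComponent P]
    refine Ideal.sum_mem _ fun n _ => ?_
    have h1 := ker_component hy P hP n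
    have h2 := homogeneousComponent_isHomogeneous n P
    rcases lt_or_ge n t with hn | hn
    · rw [ker_low hF hy M hM hI n hn _ h2 h1]
      exact Ideal.zero_mem _
    · obtain ⟨e, -, he⟩ := ker_gen hF hy M hM hI δ hδ hδr hδ0 n hn _ h2 h1
      rw [he]
      refine Ideal.sum_mem _ fun j _ => ?_
      rw [hδc j]
      exact Ideal.mul_mem_left _ _ (Ideal.mul_mem_left _ _ (Ideal.subset_span ⟨j, rfl⟩))
  · have h1 : DI L ≤ RingHom.ker (aeval y : MvPolynomial (Fin 4) A →ₐ[A] T) := by
      unfold DI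
      rw [Ideal.span_le]
      rintro _ ⟨j, rfl⟩
      show aeval y (minor L j) = 0
      obtain ⟨u, hu⟩ := hc
      have h2 : minor L j = C (↑u⁻¹ : A) * δ j := by
        rw [hδc j, ← mul_assoc, ← map_mul, ← hu, Units.inv_mul, map_one, one_mul]
      rw [h2, map_mul, hδ0, mul_zero]
    exact h1 hP

end Pool.Agent.H56.DC
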