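import Pool.Agent.H56.DC.FDB

/-!
Part FDF. A family whose kernel is a determinantal ideal is defined over a small field.
-/

set_option autoImplicit false

namespace Pool.Agent.H56.DC

open MvPolynomial

/-- the field generated by a set has transcendence degree at most the cardinality of the set -/
theorem FDF_trdeg_le {k L : Type} [Field k] [Field L] [Algebra k L] (S : Set L) (n : ℕ)
    (hn : Cardinal.mk S ≤ n) : Algebra.trdeg k (IntermediateField.adjoin k S) ≤ n := by
  set F := IntermediateField.adjoin k S with hF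
  let s : Set F := (Subtype.val) ⁻¹' S
  have hs : Cardinal.mk s ≤ n := by
    refine le_trans (Cardinal.mk_le_of_injective (f := fun z : s => (⟨z.1.1, z.2⟩ : S)) ?_) hn
    intro a b hab
    have := congrArg Subtype.val hab
    exact Subtype.ext (Subtype.ext this)
  have hlift : ∀ x ∈ Algebra.adjoin k S, ∃ x' : F, x' ∈ Algebra.adjoin k s ∧ x'.1 = x := by
    intro x hx
    induction hx using Algebra.adjoin_induction with
    | mem z hz =>
      exact ⟨⟨z, IntermediateField.subset_adjoin k S hz⟩, Algebra.subset_adjoin hz, rfl⟩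
    | algebraMap r => exact ⟨algebraMap k F r, Subalgebra.algebraMap_mem _ r, rfl⟩
    | add a b _ _ ha hb =>
      obtain ⟨a', ha', rfl⟩ := ha
      obtain ⟨b', hb', rfl⟩ := hb
      exact ⟨a' + b', add_mem ha' hb', rfl⟩
    | mul a b _ _ ha hb =>
      obtain ⟨a', ha', rfl⟩ := ha
      obtain ⟨b', hb', rfl⟩ := hb
      exact ⟨a' * b', mul_mem ha' hb', rfl⟩
  have halg : Algebra.IsAlgebraic (Algebra.adjoin k s) F := by
    constructor
    rintro ⟨z, hz⟩
    obtain ⟨x, hx, y, hy, rfl⟩ := IntermediateField.mem_adjoin_iff_div.1 hz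
    obtain ⟨x', hx', rfl⟩ := hlift x hx
    obtain ⟨y', hy', rfl⟩ := hlift y hy
    have hdiv : (⟨(x'.1 / y'.1 : L), hz⟩ : F) = x' / y' := rfl
    rw [hdiv, div_eq_mul_inv]
    have h1 : IsAlgebraic (Algebra.adjoin k s) x' :=
      isAlgebraic_algebraMap (⟨x', hx'⟩ : Algebra.adjoin k s)
    have h2 : IsAlgebraic (Algebra.adjoin k s) y' :=
      isAlgebraic_algebraMap (⟨y', hy'⟩ : Algebra.adjoin k s)
    exact h1.mul h2.inv
  exact (Algebra.IsAlgebraic.trdeg_le_cardinalMk (R := k) (A := F) s).trans hs

/-- the field generated over `ℂ` by `n` elements has transcendence degree at most `n` -/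
theorem trdeg_adjoin_le {K : Type} [Field K] [Algebra ℂ K] {ι : Type} [Fintype ι] (f : ι → K) :
    Algebra.trdeg ℂ (IntermediateField.adjoin ℂ (Set.range f)) ≤ Fintype.card ι := by
  refine FDF_trdeg_le _ _ ?_
  refine Cardinal.mk_range_le.trans ?_
  rw [Cardinal.mk_fintype]

theorem FDF_den {A : Type} [CommRing A] [IsDomain A] (r : MvPolynomial (Fin 4) (FractionRing A)) :
    ∃ b : A, b ≠ 0 ∧ ∃ r' : MvPolynomial (Fin 4) A,
      C (algebraMap A (FractionRing A) b) * r =
        MvPolynomial.map (algebraMap A (FractionRing A)) r' := by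
  induction r using MvPolynomial.induction_on' with
  | monomial u c =>
    obtain ⟨x, y, hy, rfl⟩ := IsFractionRing.div_surjective (A := A) c
    have hy0 : y ≠ 0 := nonZeroDivisors.ne_zero hy
    refine ⟨y, hy0, monomial u x, ?_⟩
    rw [C_mul_monomial, map_monomial]
    congr 1
    have : algebraMap A (FractionRing A) y ≠ 0 := by
      intro h
      exact hy0 ((map_eq_zero_iff _ (IsFractionRing.injective A (FractionRing A))).1 h)
    field_simp
  | add p q hp hq =>
    obtain ⟨b, hb, p', hp'⟩ := hp
    obtain ⟨c, hc, q', hq'⟩ := hq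
    refine ⟨b * c, mul_ne_zero hb hc, C c * p' + C b * q', ?_⟩
    rw [map_add (MvPolynomial.map _), map_mul (MvPolynomial.map _), map_mul (MvPolynomial.map _),
      ← hp', ← hq', map_mul (algebraMap A _), C_mul, map_C, map_C]
    ring

/-- clearing denominators -/
theorem clear_den {A : Type} [CommRing A] [IsDomain A] (J : Ideal (MvPolynomial (Fin 4) A))
    (P : MvPolynomial (Fin 4) A)
    (h : MvPolynomial.map (algebraMap A (FractionRing A)) P ∈
      J.map (MvPolynomial.map (algebraMap A (FractionRing A)))) :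
    ∃ a : A, a ≠ 0 ∧ C a * P ∈ J := by
  have key : ∀ Q ∈ J.map (MvPolynomial.map (algebraMap A (FractionRing A))),
      ∃ a : A, a ≠ 0 ∧ ∃ Q' ∈ J, C (algebraMap A (FractionRing A) a) * Q =
        MvPolynomial.map (algebraMap A (FractionRing A)) Q' := by
    intro Q hQ
    unfold Ideal.map at hQ
    induction hQ using Submodule.span_induction with
    | mem x hx =>
      obtain ⟨j, hj, rfl⟩ := hx
      exact ⟨1, one_ne_zero, j, hj, by simp⟩
    | zero => exact ⟨1, one_ne_zero, 0, J.zero_mem, by simp⟩
    | add x y _ _ hx hy =>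
      obtain ⟨b, hb, p', hpJ, hp'⟩ := hx
      obtain ⟨c, hc, q', hqJ, hq'⟩ := hy
      refine ⟨b * c, mul_ne_zero hb hc, C c * p' + C b * q',
        J.add_mem (J.mul_mem_left _ hpJ) (J.mul_mem_left _ hqJ), ?_⟩
      rw [map_add (MvPolynomial.map _), map_mul (MvPolynomial.map _),
        map_mul (MvPolynomial.map _), ← hp', ← hq', map_mul (algebraMap A _), C_mul, map_C, map_C]
      ring
    | smul r x _ hx =>
      obtain ⟨b, hb, p', hpJ, hp'⟩ := hx
      obtain ⟨c, hc, r', hr'⟩ := FDF_den r
      refine ⟨c * b, mul_ne_zero hc hb, r' * p', J.mul_mem_left _ hpJ, ?_⟩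
      rw [map_mul (MvPolynomial.map _), ← hp', ← hr', map_mul (algebraMap A _), C_mul,
        smul_eq_mul]
      ring
  obtain ⟨a, ha, Q', hQ', hQ⟩ := key _ h
  refine ⟨a, ha, ?_⟩
  have h1 : MvPolynomial.map (algebraMap A (FractionRing A)) (C a * P) =
      MvPolynomial.map (algebraMap A (FractionRing A)) Q' := by
    rw [map_mul, map_C, hQ]
  have h2 := MvPolynomial.map_injective _ (IsFractionRing.injective A (FractionRing A)) h1
  rw [h2]
  exact hQ'

theorem FDF_lin {A : Type} [CommRing A] (P : MvPolynomial (Fin 4) A) (hP : P.IsHomogeneous 1) :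
    P = ∑ l, C (coeff (Finsupp.single l 1) P) * X l := by
  ext m
  rw [coeff_sum]
  by_cases hm : m.degree = 1
  · obtain ⟨l, rfl⟩ : ∃ l, m = Finsupp.single l 1 := by
      rw [Finsupp.degree_eq_sum] at hm
      obtain ⟨l, hl⟩ : ∃ l, m l ≠ 0 := by
        by_contra! h
        simp [h] at hm
      refine ⟨l, ?_⟩
      have hle : Finsupp.single l 1 ≤ m := by
        rw [Finsupp.single_le_iff]; omega
      obtain ⟨m', rfl⟩ := exists_add_of_le hle
      have h0 : ∑ i, m' i = 0 := by
        simp only [Finsupp.add_apply, Finset.sum_add_distrib] at hm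
        have h1 : ∑ i, (Finsupp.single l 1 : Fin 4 →₀ ℕ) i = 1 := by
          simp [Finsupp.single_apply]
        omega
      have h2 : m' = 0 := by
        ext i
        have := Finset.sum_eq_zero_iff.1 h0 i (Finset.mem_univ _)
        simpa using this
      rw [h2, add_zero]
    rw [Finset.sum_eq_single l]
    · simp [coeff_C_mul, coeff_X]
    · intro b _ hb
      rw [coeff_C_mul, coeff_X, if_neg, mul_zero]
      intro h
      exact hb (Finsupp.single_left_injective one_ne_zero h)
    · intro h; exact absurd (Finset.mem_univ _) h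
  · have h1 : coeff m P = 0 := by
      by_contra h
      exact hm (by
        have h2 := hP h
        rw [Finsupp.degree_eq_weight_one]
        exact h2)
    rw [h1]
    symm
    refine Finset.sum_eq_zero fun l _ => ?_
    rw [coeff_C_mul, coeff_X, if_neg, mul_zero]
    intro h
    apply hm
    rw [← h]
    simp

/-- Proof: let `F₀` be the field generated by the `4 t (t + 1)` coefficients of the entries of `L` (the
coefficients at the variables), and `J` the ideal of minors of the matrix `L` considered over `F₀`. -/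
theorem genericOver (A : Type) [CommRing A] [IsDomain A] [ValuationRing A] [Algebra ℂ A]
    {I : Ideal (MvPolynomial (Fin 4) ℂ)} {T : Type} [CommRing T] [Algebra A T]
    (𝒯 : ℕ → Submodule A T) [GradedAlgebra 𝒯]
    (sp : T →ₐ[A] (MvPolynomial (Fin 4) (Res A) ⧸ IRes A I)) (y : Fin 4 → T)
    (hF : IsFamily A I 𝒯 sp) (hy : Good A I 𝒯 sp y) {t : ℕ}
    (L : Matrix (Fin t) (Fin (t + 1)) (MvPolynomial (Fin 4) A))
    (hL : ∀ i j, (L i j).IsHomogeneous 1) (hk : ∀ P, aeval y P = 0 ↔ P ∈ DI L) :
    GenericOver A (4 * t * (t + 1)) 𝒯 := by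
  set f : Fin 4 × Fin t × Fin (t + 1) → FractionRing A := fun p =>
    algebraMap A (FractionRing A) (coeff (Finsupp.single p.1 1) (L p.2.1 p.2.2)) with hf
  set F₀ := IntermediateField.adjoin ℂ (Set.range f) with hF₀
  let c : Fin 4 → Matrix (Fin t) (Fin (t + 1)) F₀ := fun l i j =>
    ⟨f (l, i, j), IntermediateField.subset_adjoin _ _ ⟨(l, i, j), rfl⟩⟩
  have hmap : (Lin c).map (MvPolynomial.map (algebraMap F₀ (FractionRing A))) =
      L.map (MvPolynomial.map (algebraMap A (FractionRing A))) := by
    ext1 i j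
    rw [Matrix.map_apply, Matrix.map_apply]
    conv_rhs => rw [FDF_lin (L i j) (hL i j)]
    simp only [Lin, map_sum, map_mul, map_C, map_X]
    rfl
  have hJ : (DI (Lin c)).map (MvPolynomial.map (algebraMap F₀ (FractionRing A))) =
      (DI L).map (MvPolynomial.map (algebraMap A (FractionRing A))) := by
    rw [DI_map, DI_map, hmap]
  refine ⟨F₀, DI (Lin c), y, ?_, DI_isHom _ (Lin_isHomogeneous c), hy.mem, ?_, ?_⟩
  · have h1 := trdeg_adjoin_le f
    refine h1.trans ?_
    have h2 : Fintype.card (Fin 4 × Fin t × Fin (t + 1)) = 4 * t * (t + 1) := by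
      simp [mul_assoc]
    rw [h2]
  · intro s
    refine ⟨1, one_ne_zero, ?_⟩
    classical
    choose P hP hPs using fun n => hy.gen n (DirectSum.decompose 𝒯 s n : T) (SetLike.coe_mem _)
    refine ⟨∑ n ∈ (DirectSum.decompose 𝒯 s).support, P n, ?_⟩
    rw [map_sum, one_smul]
    conv_lhs => rw [← DirectSum.sum_support_decompose 𝒯 s]
    exact Finset.sum_congr rfl fun n _ => (hPs n).symm
  · intro P
    rw [hJ, hk]
    constructor
    · intro h
      exact Ideal.mem_map_of_mem _ h
    · intro h
      obtain ⟨a, ha, h1⟩ := clear_den _ _ h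
      rw [← hk, map_mul] at h1
      rw [← hk]
      have h2 : a • aeval y P = 0 := by
        rw [Algebra.smul_def]
        rw [← h1]
        congr 1
        exact (MvPolynomial.aeval_C y a).symm
      exact (hF.tf a _ h2).resolve_left ha

end Pool.Agent.H56.DC
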