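import Mathlib

/-!
MP_d0789b: the definitions used in the statement of the result.

`C ⊂ P³` is given by its homogeneous ideal `I ⊂ ℂ[x₀, …, x₃]`; `(C, O_C(1))` is the pair of interest.
-/

set_option autoImplicit false

namespace Pool.Agent.H56.DC.St

open MvPolynomial

/-- the forms `F i` are a basis of the degree `n` part of `ℂ[x] / I` -/
def IsBasisMod (I : Ideal (MvPolynomial (Fin 4) ℂ)) (n m : ℕ)
    (F : Fin m → MvPolynomial (Fin 4) ℂ) : Prop :=
  (∀ i, (F i).IsHomogeneous n) ∧ (∀ c : Fin m → ℂ, ∑ i, C (c i) * F i ∈ I → c = 0) ∧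
    ∀ G : MvPolynomial (Fin 4) ℂ, G.IsHomogeneous n → ∃ c : Fin m → ℂ, G - ∑ i, C (c i) * F i ∈ I

/-- the degree `n` part of `ℂ[x] / I` has dimension `m` -/
def DimEq (I : Ideal (MvPolynomial (Fin 4) ℂ)) (n m : ℕ) : Prop :=
  ∃ F : Fin m → MvPolynomial (Fin 4) ℂ, IsBasisMod I n m F

/-- the gradient of `F` at `x` -/
noncomputable def grad (F : MvPolynomial (Fin 4) ℂ) (x : Fin 4 → ℂ) : Fin 4 → ℂ :=
  fun i => eval x (pderiv i F)

/-- the Jacobian criterion: two elements of `I` have independent gradients at `x` -/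
def SmoothAt (I : Ideal (MvPolynomial (Fin 4) ℂ)) (x : Fin 4 → ℂ) : Prop :=
  ∃ F ∈ I, ∃ G ∈ I, LinearIndependent ℂ ![grad F x, grad G x]

/-- `I` is the homogeneous ideal of a smooth irreducible curve of degree `d` and genus `g` in `P³` -/
structure IsCurve (I : Ideal (MvPolynomial (Fin 4) ℂ)) (d g : ℕ) : Prop where
  prime : I.IsPrime
  hom : ∀ F ∈ I, ∀ n, homogeneousComponent n F ∈ I
  hilbert : ∃ n₀, ∀ n, n₀ ≤ n → ∃ m : ℕ, DimEq I n m ∧ (m : ℤ) = d * n + 1 - g
  smooth : ∀ x : Fin 4 → ℂ, x ≠ 0 → (∀ F ∈ I, eval x F = 0) → SmoothAt I x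

/-- the fraction `F / G` is regular on the curve `C` of `I` -/
def Regular (I : Ideal (MvPolynomial (Fin 4) ℂ)) (F G : MvPolynomial (Fin 4) ℂ) : Prop :=
  G ∉ I ∧ ∀ i, ∃ N, X i ^ N * F ∈ I ⊔ Ideal.span {G}

/-- every section `F / G` of `O_C(n)` which is regular on the curve `C` of `I` is given by a form of
degree `n`: the homogeneous coordinate ring of `C` is the ring of sections of `O_C(1)` -/
def ProjNormal (I : Ideal (MvPolynomial (Fin 4) ℂ)) : Prop :=
  ∀ (m n : ℕ) (F G : MvPolynomial (Fin 4) ℂ), F.IsHomogeneous (m + n) → G.IsHomogeneous m →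
    Regular I F G → ∃ H : MvPolynomial (Fin 4) ℂ, H.IsHomogeneous n ∧ F - G * H ∈ I

/-! Families over a valuation ring. -/

/-- the residue field -/
def RF (A : Type) [CommRing A] [IsDomain A] [ValuationRing A] : Type :=
  IsLocalRing.ResidueField A

noncomputable instance instFieldRF (A : Type) [CommRing A] [IsDomain A] [ValuationRing A] :
    Field (RF A) :=
  IsLocalRing.ResidueField.field A

/-- the residue map -/
noncomputable def rf (A : Type) [CommRing A] [IsDomain A] [ValuationRing A] : A →+* RF A :=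
  IsLocalRing.residue A

/-- the ideal of the curve of `I` over the residue field of `A` -/
noncomputable def IRF (A : Type) [CommRing A] [IsDomain A] [ValuationRing A] [Algebra ℂ A]
    (I : Ideal (MvPolynomial (Fin 4) ℂ)) : Ideal (MvPolynomial (Fin 4) (RF A)) :=
  I.map (MvPolynomial.map ((rf A).comp (algebraMap ℂ A)))

/-- the homogeneous coordinate ring of the curve over the residue field -/
def SR (A : Type) [CommRing A] [IsDomain A] [ValuationRing A] [Algebra ℂ A]
    (I : Ideal (MvPolynomial (Fin 4) ℂ)) : Type :=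
  MvPolynomial (Fin 4) (RF A) ⧸ IRF A I

noncomputable instance instCommRingSR (A : Type) [CommRing A] [IsDomain A] [ValuationRing A]
    [Algebra ℂ A] (I : Ideal (MvPolynomial (Fin 4) ℂ)) : CommRing (SR A I) :=
  Ideal.Quotient.commRing (IRF A I)

/-- the class of a polynomial in the homogeneous coordinate ring -/
noncomputable def cls (A : Type) [CommRing A] [IsDomain A] [ValuationRing A] [Algebra ℂ A]
    (I : Ideal (MvPolynomial (Fin 4) ℂ)) : MvPolynomial (Fin 4) (RF A) →+* SR A I :=
  Ideal.Quotient.mk (IRF A I)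

/-- `s` is a section of degree `n` on the special fibre -/
def FormCls (A : Type) [CommRing A] [IsDomain A] [ValuationRing A] [Algebra ℂ A]
    (I : Ideal (MvPolynomial (Fin 4) ℂ)) (n : ℕ) (s : SR A I) : Prop :=
  ∃ P : MvPolynomial (Fin 4) (RF A), P.IsHomogeneous n ∧ s = cls A I P

/-- `T = ⨁ 𝒯 n` is the ring of sections of a family of pairs `(curve, line bundle)` over the valuation
ring `A`, with `h⁰ ≥ 4` and special fibre `(C, O_C(1))`; `sp` is the restriction to the special
fibre -/
structure IsFamily (A : Type) [CommRing A] [IsDomain A] [ValuationRing A] [Algebra ℂ A]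
    (I : Ideal (MvPolynomial (Fin 4) ℂ)) {T : Type} [CommRing T] [Algebra A T]
    (𝒯 : ℕ → Submodule A T) (sp : T →+* SR A I) : Prop where
  fg : ∀ n, (𝒯 n).FG
  tf : ∀ (a : A) (s : T), a • s = 0 → a = 0 ∨ s = 0
  four : 4 ≤ Module.finrank A (𝒯 1)
  alg : ∀ a : A, sp (algebraMap A T a) = cls A I (C (rf A a))
  deg : ∀ n, ∀ s ∈ 𝒯 n, FormCls A I n (sp s)
  ker : ∀ n, ∀ s ∈ 𝒯 n, sp s = 0 → s ∈ IsLocalRing.maximalIdeal A • 𝒯 n
  surj : ∃ n₀, ∀ n, n₀ ≤ n → ∀ c, FormCls A I n c → ∃ s ∈ 𝒯 n, sp s = c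

/-- the inclusion of `A[x]` in the polynomials over the fraction field -/
noncomputable def toFF (A : Type) [CommRing A] [IsDomain A] :
    MvPolynomial (Fin 4) A →+* MvPolynomial (Fin 4) (FractionRing A) :=
  MvPolynomial.map (algebraMap A (FractionRing A))

/-- the coefficients of the elements of `E` are in a field of transcendence degree at most `N` -/
def SmallField (K : Type) [Field K] [Algebra ℂ K] (N : ℕ) (E : Set (MvPolynomial (Fin 4) K)) :
    Prop :=
  ∃ F₀ : IntermediateField ℂ K, Algebra.trdeg ℂ F₀ ≤ N ∧ ∀ G ∈ E, ∀ e, G.coeff e ∈ F₀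

/-- the polynomials `P` with `P(y) = 0` are those in the ideal of `E`, over the fraction field -/
def Relations (A : Type) [CommRing A] [IsDomain A] {T : Type} [CommRing T] [Algebra A T]
    (y : Fin 4 → T) (E : Set (MvPolynomial (Fin 4) (FractionRing A))) : Prop :=
  ∀ P : MvPolynomial (Fin 4) A, aeval y P = 0 ↔ toFF A P ∈ Ideal.span E

/-- the generic member of the family `T` is `(C', O(1))` for a closed subscheme `C'` of `P³` defined
by a set `E` of forms with coefficients in a field of transcendence degree at most `N` over `ℂ` -/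
def GenericOver (A : Type) [CommRing A] [IsDomain A] [Algebra ℂ A] (N : ℕ) {T : Type}
    [CommRing T] [Algebra A T] (𝒯 : ℕ → Submodule A T) : Prop :=
  ∃ (y : Fin 4 → T) (E : Set (MvPolynomial (Fin 4) (FractionRing A))),
    (∀ i, y i ∈ 𝒯 1) ∧ (∀ s : T, ∃ a : A, a ≠ 0 ∧ ∃ P : MvPolynomial (Fin 4) A, a • s = aeval y P) ∧
    (∀ G ∈ E, ∃ m, G.IsHomogeneous m) ∧ SmallField (FractionRing A) N E ∧ Relations A y E

/-- every component of the space of pairs `(curve, line bundle)` with `h⁰ ≥ 4` through `(C, O_C(1))`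
has dimension at most `N` -/
def LocDim (I : Ideal (MvPolynomial (Fin 4) ℂ)) (N : ℕ) : Prop :=
  ∀ (A : Type) [CommRing A] [IsDomain A] [ValuationRing A] [Algebra ℂ A]
    (T : Type) [CommRing T] [Algebra A T] (𝒯 : ℕ → Submodule A T) [GradedAlgebra 𝒯]
    (sp : T →+* SR A I), IsFamily A I 𝒯 sp → GenericOver A N 𝒯

end Pool.Agent.H56.DC.St
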