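import Pool.Agent.H56.DC.Main
import Pool.Agent.H56.DC.SDefs

/-!
The result in terms of the definitions of `SDefs`.
-/

set_option autoImplicit false

namespace Pool.Agent.H56.DC

open MvPolynomial

theorem dimEq_hf (I : Ideal (MvPolynomial (Fin 4) ℂ)) (n m : ℕ) (hm : hf I n = m) :
    St.DimEq I n m := by
  have hfg : Module.Finite ℂ (homogeneousSubmodule (Fin 4) ℂ n) := forms_fg n
  obtain ⟨V, hV⟩ : ∃ V, V =
    (homogeneousSubmodule (Fin 4) ℂ n).map (Ideal.Quotient.mkₐ ℂ I).toLinearMap := ⟨_, rfl⟩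
  have hm' : Module.finrank ℂ V = m := by rw [hV, ← hm]; rfl
  have hVf : Module.Finite ℂ V := by rw [hV]; exact Module.Finite.map _ _
  let b : Module.Basis (Fin m) ℂ V := Module.finBasisOfFinrankEq ℂ V hm'
  have hb : ∀ i, ∃ F : MvPolynomial (Fin 4) ℂ, F.IsHomogeneous n ∧
      Ideal.Quotient.mk I F = (b i : MvPolynomial (Fin 4) ℂ ⧸ I) := by
    intro i
    have h := hV.le (b i).2
    obtain ⟨F, hF, hF'⟩ := h
    exact ⟨F, hF, hF'⟩
  choose F hF hF' using hb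
  have hsum : ∀ c : Fin m → ℂ, Ideal.Quotient.mk I (∑ i, C (c i) * F i) =
      ((∑ i, c i • b i : V) : MvPolynomial (Fin 4) ℂ ⧸ I) := by
    intro c
    rw [map_sum, Submodule.coe_sum]
    apply Finset.sum_congr rfl
    intro i _
    rw [map_mul, hF', Submodule.coe_smul, Algebra.smul_def]
    rfl
  refine ⟨F, hF, ?_, ?_⟩
  · intro c hc
    have h1 : (∑ i, c i • b i : V) = 0 := by
      apply Subtype.ext
      rw [← hsum, Ideal.Quotient.eq_zero_iff_mem.mpr hc]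
      rfl
    funext i
    exact Fintype.linearIndependent_iff.mp b.linearIndependent c h1 i
  · intro G hG
    have hGV : Ideal.Quotient.mk I G ∈ V := by rw [hV]; exact ⟨G, hG, rfl⟩
    refine ⟨fun i => b.repr ⟨_, hGV⟩ i, ?_⟩
    rw [← Ideal.Quotient.eq_zero_iff_mem, map_sub, hsum, b.sum_repr, sub_self]

theorem isCurve_st (I : Ideal (MvPolynomial (Fin 4) ℂ)) (d g : ℕ) (h : IsCurve I d g) :
    St.IsCurve I d g := by
  obtain ⟨n₀, hn₀⟩ := h.hilbert
  exact ⟨h.prime, h.hom, ⟨n₀, fun n hn => ⟨hf I n, dimEq_hf I n _ rfl, hn₀ n hn⟩⟩, h.smooth⟩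

theorem projNormal_st (I : Ideal (MvPolynomial (Fin 4) ℂ)) (h : ProjNormal I) :
    St.ProjNormal I :=
  fun m n F G hF hG hr => h m n F G hF hG hr.1 hr.2

theorem genericOver_st (A : Type) [CommRing A] [IsDomain A] [ValuationRing A] [Algebra ℂ A]
    (N : ℕ) {T : Type} [CommRing T] [Algebra A T] (𝒯 : ℕ → Submodule A T)
    (h : GenericOver A N 𝒯) : St.GenericOver A N 𝒯 := by
  obtain ⟨F₀, J, y, htr, hJ, hy, hgen, hker⟩ := h
  let E : Set (MvPolynomial (Fin 4) (FractionRing A)) :=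
    {G | ∃ P ∈ J, (∃ m, P.IsHomogeneous m) ∧
      G = MvPolynomial.map (algebraMap F₀ (FractionRing A)) P}
  have hspan : Ideal.span E = J.map (MvPolynomial.map (algebraMap F₀ (FractionRing A))) := by
    apply le_antisymm
    · rw [Ideal.span_le]
      rintro _ ⟨P, hP, _, rfl⟩
      exact Ideal.mem_map_of_mem _ hP
    · rw [Ideal.map_le_iff_le_comap]
      intro P hP
      rw [Ideal.mem_comap, ← sum_homogeneousComponent P, map_sum]
      refine Ideal.sum_mem _ fun m _ => Ideal.subset_span ?_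
      exact ⟨_, hJ P hP m, ⟨m, homogeneousComponent_isHomogeneous m P⟩, rfl⟩
  refine ⟨y, E, hy, hgen, ?_, ⟨F₀, htr, ?_⟩, ?_⟩
  · rintro _ ⟨P, _, ⟨m, hm⟩, rfl⟩
    exact ⟨m, hm.map _⟩
  · rintro _ ⟨P, _, _, rfl⟩ e
    have : (MvPolynomial.map (algebraMap F₀ (FractionRing A)) P).coeff e ∈ F₀ := by
      rw [coeff_map]
      exact (coeff e P).2
    exact this
  · intro P
    rw [hker P, ← hspan]
    rfl

theorem locDim_st (I : Ideal (MvPolynomial (Fin 4) ℂ)) (N : ℕ) (h : LocDim I N) :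
    St.LocDim I N := by
  intro A _ _ _ _ T _ _ 𝒯 _ sp' hF
  apply genericOver_st
  let sp : T →ₐ[A] (MvPolynomial (Fin 4) (Res A) ⧸ IRes A I) :=
    { toRingHom := (sp' : T →+* (MvPolynomial (Fin 4) (Res A) ⧸ IRes A I))
      commutes' := fun a => hF.alg a }
  exact h A T 𝒯 sp ⟨hF.fg, hF.tf, hF.four, hF.deg, hF.ker, by
    obtain ⟨n₀, hn₀⟩ := hF.surj
    exact ⟨n₀, fun n hn P hP => hn₀ n hn _ ⟨P, hP, rfl⟩⟩⟩

theorem final (c : ℝ) (hc : 0 < c) :
    ∃ (d g N : ℕ) (I : Ideal (MvPolynomial (Fin 4) ℂ)), 2 ≤ g ∧ (2 : ℤ) ≤ g - d + 3 ∧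
      St.IsCurve I d g ∧ St.ProjNormal I ∧ St.DimEq I 1 4 ∧ St.LocDim I N ∧ (N : ℝ) < c * g := by
  obtain ⟨d, g, I, N, h1, h2, h3, h4, h5, h6, h7⟩ := main c hc
  exact ⟨d, g, N, I, h1, by omega, isCurve_st I d g h3, projNormal_st I h4, dimEq_hf I 1 4 h5,
    locDim_st I N h6, h7⟩

end Pool.Agent.H56.DC
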