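import Pool.Agent.H56.DC.Defs

/-!
Part GEN. Transcendence degrees.
-/

set_option autoImplicit false

namespace Pool.Agent.H56.DC

open MvPolynomial

/-- the field generated by a set has transcendence degree at most the cardinality of the set -/
theorem gen_trdeg_le {k L : Type} [Field k] [Field L] [Algebra k L] (S : Set L) (n : ℕ)
    (hn : Cardinal.mk S ≤ n) : Algebra.trdeg k (IntermediateField.adjoin k S) ≤ n := by
  set F := IntermediateField.adjoin k S with hF
  let s : Set F := (Subtype.val) ⁻¹' S
  have hs : Cardinal.mk s ≤ n := by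
    refine le_trans (Cardinal.mk_le_of_injective (f := fun z : s => (⟨z.1.1, z.2⟩ : S)) ?_) hn
    intro a b hab
    have := congrArg Subtype.val hab
    exact Subtype.ext (Subtype.ext this)
  have hlift : ∀ x ∈ Algebra.adjoin k S, ∃ x' : F, x' ∈ Algebra.adjoin k s ∧ x'.1 = x := by
    intro x hx
    induction hx using Algebra.adjoin_induction with
    | mem z hz =>
      exact ⟨⟨z, IntermediateField.subset_adjoin k S hz⟩, Algebra.subset_adjoin hz, rfl⟩
    | algebraMap r => exact ⟨algebraMap k F r, Subalgebra.algebraMap_mem _ r, rfl⟩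
    | add a b _ _ ha hb =>
      obtain ⟨a', ha', rfl⟩ := ha
      obtain ⟨b', hb', rfl⟩ := hb
      exact ⟨a' + b', add_mem ha' hb', rfl⟩
    | mul a b _ _ ha hb =>
      obtain ⟨a', ha', rfl⟩ := ha
      obtain ⟨b', hb', rfl⟩ := hb
      exact ⟨a' * b', mul_mem ha' hb', rfl⟩
  have halg : Algebra.IsAlgebraic (Algebra.adjoin k s) F := by
    constructor
    rintro ⟨z, hz⟩
    obtain ⟨x, hx, y, hy, rfl⟩ := IntermediateField.mem_adjoin_iff_div.1 hz
    obtain ⟨x', hx', rfl⟩ := hlift x hx
    obtain ⟨y', hy', rfl⟩ := hlift y hy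
    have hdiv : (⟨(x'.1 / y'.1 : L), hz⟩ : F) = x' / y' := rfl
    rw [hdiv, div_eq_mul_inv]
    have h1 : IsAlgebraic (Algebra.adjoin k s) x' :=
      isAlgebraic_algebraMap (⟨x', hx'⟩ : Algebra.adjoin k s)
    have h2 : IsAlgebraic (Algebra.adjoin k s) y' :=
      isAlgebraic_algebraMap (⟨y', hy'⟩ : Algebra.adjoin k s)
    exact h1.mul h2.inv
  exact (Algebra.IsAlgebraic.trdeg_le_cardinalMk (R := k) (A := F) s).trans hs

/-- there are arbitrarily long algebraically independent families of complex numbers (a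
transcendence basis of `ℂ` over `ℚ` is infinite, or: the algebraic closure in `ℂ` of a finitely
generated extension of `ℚ` is countable) -/
theorem exists_generic (t : ℕ) : ∃ a : Fin 2 → Fin t → Fin (t + 1) → ℂ, Generic a := by
  obtain ⟨ι, x, hx⟩ := exists_isTranscendenceBasis' ℚ ℂ
  have h1 := IsAlgClosed.cardinal_le_max_transcendence_basis' x hx
  have hinf : Infinite ι := by
    by_contra h
    rw [not_infinite_iff_finite] at h
    have h2 : Cardinal.mk ι < Cardinal.aleph0 := Cardinal.lt_aleph0_of_finite ι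
    have h3 : Cardinal.mk ℂ ≤ Cardinal.aleph0 := by
      refine h1.trans ?_
      simp [h2.le]
    rw [Cardinal.mk_complex] at h3
    exact absurd h3 (not_le.2 Cardinal.aleph0_lt_continuum)
  obtain ⟨e⟩ : Nonempty ((Fin 2 × Fin t × Fin (t + 1)) ↪ ι) := by
    have := Infinite.natEmbedding ι
    exact ⟨(Function.Embedding.trans (Fintype.equivFin _).toEmbedding
      (Fin.valEmbedding.trans this))⟩
  refine ⟨fun i j k => x (e (i, j, k)), ?_⟩
  exact hx.1.comp e e.injective

/-- an algebraically independent family contained in the field generated by `n` elements has at most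
`n` members -/
theorem card_le_of_mem_adjoin {ι : Type} [Fintype ι] (f : ι → ℂ) (hf : AlgebraicIndependent ℚ f)
    (S : Finset ℂ) (h : ∀ i, f i ∈ IntermediateField.adjoin ℚ (S : Set ℂ)) :
    Fintype.card ι ≤ S.card := by
  let F := IntermediateField.adjoin ℚ (S : Set ℂ)
  let g : ι → F := fun i => ⟨f i, h i⟩
  have hg : AlgebraicIndependent ℚ g := by
    refine AlgebraicIndependent.of_comp F.val ?_
    exact hf
  have h1 : Cardinal.mk ι ≤ Algebra.trdeg ℚ F := hg.cardinalMk_le_trdeg
  have h2 : Algebra.trdeg ℚ F ≤ S.card := gen_trdeg_le _ _ (by simp)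
  have h3 := h1.trans h2
  rw [Cardinal.mk_fintype] at h3
  exact_mod_cast h3

/-- the version used: if the entries of `a 0`, `a 1` lie in a field generated by the elements of `S`
then `S` has at least `2 t (t + 1)` elements -/
theorem generic_le {t : ℕ} (a : Fin 2 → Fin t → Fin (t + 1) → ℂ) (ha : Generic a)
    (S : Finset ℂ) (h : ∀ e i j, a e i j ∈ IntermediateField.adjoin ℚ (S : Set ℂ)) :
    2 * t * (t + 1) ≤ S.card := by
  have h1 := card_le_of_mem_adjoin _ ha S (fun p => h p.1 p.2.1 p.2.2)
  simpa [mul_assoc] using h1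

end Pool.Agent.H56.DC
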