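import Pool.Agent.H56.DC.MTX

/-!
Part HFN. The Hilbert function of `DI (Mat a)`. (helper66)
-/

set_option autoImplicit false

namespace Pool.Agent.H56.DC

open MvPolynomial

/-- the degree `n` part of `k[x] / I` -/
noncomputable def hfn_V {k : Type} [Field k] {r : ℕ} (I : Ideal (MvPolynomial (Fin r) k)) (n : ℕ) :
    Submodule k (MvPolynomial (Fin r) k ⧸ I) :=
  (homogeneousSubmodule (Fin r) k n).map (Ideal.Quotient.mkₐ k I).toLinearMap

theorem hfn_mem {k : Type} [Field k] {r : ℕ} (I : Ideal (MvPolynomial (Fin r) k)) (n : ℕ)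
    (v : MvPolynomial (Fin r) k ⧸ I) :
    v ∈ hfn_V I n ↔ ∃ p, p.IsHomogeneous n ∧ Ideal.Quotient.mk I p = v :=
  Iff.rfl

instance hfn_fin {k : Type} [Field k] {r : ℕ} (I : Ideal (MvPolynomial (Fin r) k)) (n : ℕ) :
    Module.Finite k (hfn_V I n) :=
  Module.Finite.iff_fg.2 ((homogeneousSubmodule_fg _ _ n).map _)

theorem hfn_rho_hom {k : Type} [Field k] {r : ℕ} {n : ℕ} {p : MvPolynomial (Fin (r + 1)) k}
    (hp : p.IsHomogeneous n) : (rho k r p).IsHomogeneous n := by
  unfold rho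
  have h := hp.aeval (Fin.cons 0 X : Fin (r + 1) → MvPolynomial (Fin r) k) (n := 1) (fun i => by
    refine Fin.cases ?_ (fun i => ?_) i
    · exact isHomogeneous_zero _ _ _
    · exact isHomogeneous_X _ _)
  rw [one_mul] at h
  exact h

theorem hfn_comp {k : Type} [Field k] {r : ℕ} (m : ℕ) (s : MvPolynomial (Fin (r + 1)) k) :
    homogeneousComponent (m + 1) (s * X 0) = homogeneousComponent m s * X 0 := by
  ext d
  rw [coeff_homogeneousComponent, coeff_mul_X', coeff_mul_X', coeff_homogeneousComponent]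
  by_cases h : (0 : Fin (r + 1)) ∈ d.support
  · rw [if_pos h, if_pos h]
    have h1 : d = (d - Finsupp.single 0 1) + Finsupp.single 0 1 := by
      rw [tsub_add_cancel_of_le]
      rw [Finsupp.single_le_iff]
      exact Nat.one_le_iff_ne_zero.2 (Finsupp.mem_support_iff.1 h)
    have h2 : d.degree = (d - Finsupp.single 0 1).degree + 1 := by
      conv_lhs => rw [h1]
      rw [map_add, Finsupp.degree_single]
    by_cases h3 : (d - Finsupp.single 0 1).degree = m
    · rw [if_pos h3, if_pos (by rw [h2, h3])]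
    · rw [if_neg h3, if_neg (by rw [h2]; omega)]
  · rw [if_neg h, if_neg h, ite_self]

/-- Proof: the exact sequence `0 → (S/I)_m → (S/I)_{m+1} → (S'/I')_{m+1} → 0`, the first map being
multiplication by `x₀`. -/
theorem hf_succ {k : Type} [Field k] {r : ℕ} (I : Ideal (MvPolynomial (Fin (r + 1)) k))
    (I' : Ideal (MvPolynomial (Fin r) k)) (hI : IsHom I) (h1 : ∀ p, X 0 * p ∈ I → p ∈ I)
    (h2 : ∀ p, p ∈ I ⊔ Ideal.span {X 0} ↔ rho k r p ∈ I') (m : ℕ) :
    hf I (m + 1) = hf I m + hf I' (m + 1) := by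
  have hle : ∀ p ∈ I, ((Ideal.Quotient.mkₐ k I').comp (rho k r)) p = 0 := by
    intro p hp
    show Ideal.Quotient.mk I' (rho k r p) = 0
    rw [Ideal.Quotient.eq_zero_iff_mem]
    exact (h2 p).1 (Ideal.mem_sup_left hp)
  obtain ⟨φ, hφ⟩ : ∃ φ : (MvPolynomial (Fin (r + 1)) k ⧸ I) →ₗ[k] (MvPolynomial (Fin r) k ⧸ I'),
      ∀ p, φ (Ideal.Quotient.mk I p) = Ideal.Quotient.mk I' (rho k r p) :=
    ⟨(Ideal.Quotient.liftₐ I _ hle).toLinearMap, fun p => rfl⟩
  obtain ⟨μ, hμ⟩ : ∃ μ : (MvPolynomial (Fin (r + 1)) k ⧸ I) →ₗ[k] (MvPolynomial (Fin (r + 1)) k ⧸ I),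
      ∀ v, μ v = Ideal.Quotient.mk I (X 0) * v :=
    ⟨LinearMap.mulLeft k (Ideal.Quotient.mk I (X 0)), fun v => rfl⟩
  have hμi : Function.Injective μ := by
    rw [← LinearMap.ker_eq_bot, LinearMap.ker_eq_bot']
    intro v hv
    obtain ⟨p, rfl⟩ := Ideal.Quotient.mk_surjective v
    rw [hμ, ← map_mul, Ideal.Quotient.eq_zero_iff_mem] at hv
    rw [Ideal.Quotient.eq_zero_iff_mem]
    exact h1 p hv
  have ha : (hfn_V I (m + 1)).map φ = hfn_V I' (m + 1) := by
    ext v
    rw [Submodule.mem_map, hfn_mem]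
    constructor
    · rintro ⟨w, hw, rfl⟩
      obtain ⟨p, hp, rfl⟩ := (hfn_mem _ _ _).1 hw
      exact ⟨rho k r p, hfn_rho_hom hp, (hφ p).symm⟩
    · rintro ⟨p, hp, rfl⟩
      refine ⟨Ideal.Quotient.mk I (rename Fin.succ p), (hfn_mem _ _ _).2
        ⟨rename Fin.succ p, hp.rename_isHomogeneous, rfl⟩, ?_⟩
      rw [hφ, rho_surj]
  have hb : hfn_V I (m + 1) ⊓ LinearMap.ker φ = (hfn_V I m).map μ := by
    ext v
    rw [Submodule.mem_inf, Submodule.mem_map, LinearMap.mem_ker]
    constructor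
    · rintro ⟨h3, h4⟩
      obtain ⟨p, hp, rfl⟩ := (hfn_mem _ _ _).1 h3
      rw [hφ, Ideal.Quotient.eq_zero_iff_mem, ← h2] at h4
      obtain ⟨i, hi, z, hz, hiz⟩ := Submodule.mem_sup.1 h4
      obtain ⟨s, rfl⟩ := Ideal.mem_span_singleton'.1 hz
      refine ⟨Ideal.Quotient.mk I (homogeneousComponent m s), (hfn_mem _ _ _).2
        ⟨_, homogeneousComponent_isHomogeneous m s, rfl⟩, ?_⟩
      rw [hμ, ← map_mul, Ideal.Quotient.eq]
      have e1 : homogeneousComponent (m + 1) p = p := by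
        rw [homogeneousComponent_of_mem hp, if_pos rfl]
      have e2 : homogeneousComponent (m + 1) (s * X 0) = homogeneousComponent m s * X 0 :=
        hfn_comp m s
      rw [← e1, ← hiz, map_add, e2]
      have e3 : X 0 * homogeneousComponent m s -
          (homogeneousComponent (m + 1) i + homogeneousComponent m s * X 0) =
          -(homogeneousComponent (m + 1) i) := by ring
      rw [e3]
      exact I.neg_mem (hI i hi (m + 1))
    · rintro ⟨w, hw, rfl⟩
      obtain ⟨p, hp, rfl⟩ := (hfn_mem _ _ _).1 hw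
      rw [hμ, ← map_mul]
      refine ⟨(hfn_mem _ _ _).2 ⟨X 0 * p, ?_, rfl⟩, ?_⟩
      · have h9 := (isHomogeneous_X k (0 : Fin (r + 1))).mul hp
        rw [Nat.add_comm 1 m] at h9
        exact h9
      · rw [hφ, map_mul]
        have : rho k r (X 0) = 0 := by
          unfold rho
          rw [aeval_X]
          rfl
        rw [this, zero_mul, map_zero]
  have hc : Module.finrank k ((hfn_V I m).map μ) = Module.finrank k (hfn_V I m) :=
    (LinearEquiv.finrank_eq (Submodule.equivMapOfInjective μ hμi (hfn_V I m))).symm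
  have hd := LinearMap.finrank_range_add_finrank_ker (φ.domRestrict (hfn_V I (m + 1)))
  rw [LinearMap.range_domRestrict, ha] at hd
  have he : Module.finrank k (LinearMap.ker (φ.domRestrict (hfn_V I (m + 1)))) =
      Module.finrank k (hfn_V I m) := by
    rw [← hc, ← hb, LinearMap.ker_domRestrict, ← Submodule.map_comap_subtype]
    exact (LinearEquiv.finrank_eq (Submodule.equivMapOfInjective _
      (Submodule.injective_subtype _) _))
  show Module.finrank k (hfn_V I (m + 1)) = Module.finrank k (hfn_V I m) +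
    Module.finrank k (hfn_V I' (m + 1))
  rw [← hd, he]
  ring

/-- in degree `0` -/
theorem hf_zero {k : Type} [Field k] {r : ℕ} (I : Ideal (MvPolynomial (Fin r) k)) (hI : IsHom I)
    (h1 : (1 : MvPolynomial (Fin r) k) ∉ I) : hf I 0 = 1 := by
  show Module.finrank k (hfn_V I 0) = 1
  have h2 : hfn_V I 0 = Submodule.span k {(1 : MvPolynomial (Fin r) k ⧸ I)} := by
    ext v
    rw [hfn_mem, Submodule.mem_span_singleton]
    constructor
    · rintro ⟨p, hp, rfl⟩
      have h3 : p.totalDegree = 0 := Nat.le_zero.1 hp.totalDegree_le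
      rw [totalDegree_eq_zero_iff_eq_C] at h3
      refine ⟨coeff 0 p, ?_⟩
      have h4 : (coeff 0 p • (1 : MvPolynomial (Fin r) k ⧸ I)) =
        Ideal.Quotient.mk I (coeff 0 p • 1) := rfl
      rw [h4, smul_eq_C_mul, mul_one, ← h3]
    · rintro ⟨c, rfl⟩
      refine ⟨C c, isHomogeneous_C _ _, ?_⟩
      have h4 : (c • (1 : MvPolynomial (Fin r) k ⧸ I)) = Ideal.Quotient.mk I (c • 1) := rfl
      rw [h4, smul_eq_C_mul, mul_one]
  rw [h2]
  refine finrank_span_singleton ?_
  intro h3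
  apply h1
  rw [← Ideal.Quotient.eq_zero_iff_mem]
  exact h3

theorem hfn_one {k : Type} [Field k] {r t : ℕ} (ht : 1 ≤ t)
    (c : Fin r → Matrix (Fin t) (Fin (t + 1)) k) : (1 : MvPolynomial (Fin r) k) ∉ DI (Lin c) := by
  intro h
  exact one_ne_zero (DI_low (Lin c) (Lin_isHomogeneous c) 0 (by omega) 1 h (isHomogeneous_one _ _))

/-- three variables -/
theorem hfn_three {k : Type} [Field k] {t : ℕ} (ht : 1 ≤ t) (b : Fin t → Fin (t + 1) → k)
    (m : ℕ) : (m < t → 2 * hf (DI (Lin ![b, J0 k t, J1 k t])) m = (m + 1) * (m + 2)) ∧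
      (t ≤ m + 1 → 2 * hf (DI (Lin ![b, J0 k t, J1 k t])) m = t * (t + 1)) := by
  have h0 : hf (DI (Lin ![b, J0 k t, J1 k t])) 0 = 1 :=
    hf_zero _ (DI_isHom _ (Lin_isHomogeneous _)) (hfn_one ht _)
  have hs : ∀ m, hf (DI (Lin ![b, J0 k t, J1 k t])) (m + 1) =
      hf (DI (Lin ![b, J0 k t, J1 k t])) m + if m + 1 < t then m + 1 + 1 else 0 := by
    intro m
    rw [← bas_hf (k := k) t (m + 1)]
    apply hf_succ _ _ (DI_isHom _ (Lin_isHomogeneous _))
    · intro p hp
      apply lft_regular _ _ p hp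
      rw [lin3_rho]
      exact bas_HB t
    · intro p
      rw [lft_mem, lin3_rho]
  induction m with
  | zero =>
    refine ⟨fun _ => ?_, fun h => ?_⟩
    · rw [h0]
    · have : t = 1 := by omega
      rw [h0, this]
  | succ m ih =>
    refine ⟨fun h => ?_, fun h => ?_⟩
    · rw [hs, if_pos h, mul_add, ih.1 (by omega)]
      ring
    · rw [hs, mul_add]
      by_cases hm : m + 1 < t
      · have : t = m + 2 := by omega
        rw [ih.1 (by omega), if_pos hm, this]
        ring
      · rw [ih.2 (by omega), if_neg hm]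
        ring

theorem hfn_step {k : Type} [Field k] {t : ℕ} (a : Fin 2 → Fin t → Fin (t + 1) → k)
    (m : ℕ) : hf (DI (Mat a)) (m + 1) = hf (DI (Mat a)) m +
      hf (DI (Lin ![a 1, J0 k t, J1 k t])) (m + 1) := by
  apply hf_succ _ _ (mat_isHom a) (mat_R1 a)
  intro p
  rw [lft_mem, mat_rho]

/-- `hf` in three variables is `(m+1)(m+2)/2` for `m < t` and `t(t+1)/2` for `m ≥ t - 1`, hence in
four variables `t(t+1)(t+2)/6 + (n-t+1) t(t+1)/2` for `n ≥ t - 1`. -/
theorem mat_hf {k : Type} [Field k] {t : ℕ} (ht : 1 ≤ t) (a : Fin 2 → Fin t → Fin (t + 1) → k)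
    (n : ℕ) (hn : t ≤ n) :
    6 * hf (DI (Mat a)) n + 2 * t ^ 2 * (t + 1) = 3 * t * (t + 1) * n + 5 * t * (t + 1) := by
  have h0 : hf (DI (Mat a)) 0 = 1 := hf_zero _ (mat_isHom a) (mat_one ht a)
  have h1 : ∀ m, m < t → 6 * hf (DI (Mat a)) m = (m + 1) * (m + 2) * (m + 3) := by
    intro m
    induction m with
    | zero =>
      intro _
      rw [h0]
    | succ m ih =>
      intro h
      have h2 := (hfn_three ht (a 1) (m + 1)).1 h
      have h3 := ih (by omega)
      rw [hfn_step, mul_add, h3]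
      have h4 : 6 * hf (DI (Lin ![a 1, J0 k t, J1 k t])) (m + 1) =
        3 * (2 * hf (DI (Lin ![a 1, J0 k t, J1 k t])) (m + 1)) := by ring
      rw [h4, h2]
      ring
  have h2 : ∀ n, t ≤ n + 1 →
      6 * hf (DI (Mat a)) n + 2 * t ^ 2 * (t + 1) = 3 * t * (t + 1) * n + 5 * t * (t + 1) := by
    intro n
    induction n with
    | zero =>
      intro h
      have : t = 1 := by omega
      rw [h0, this]
      norm_num
    | succ n ih =>
      intro h
      by_cases hn : n + 1 < t
      · have h3 := h1 (n + 1) hn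
        have : t = n + 2 := by omega
        rw [h3, this]
        ring
      · have h3 := ih (by omega)
        have h4 := (hfn_three ht (a 1) (n + 1)).2 (by omega)
        rw [hfn_step]
        have h5 : 6 * hf (DI (Lin ![a 1, J0 k t, J1 k t])) (n + 1) = 3 * (t * (t + 1)) := by
          rw [← h4]
          ring
        calc 6 * (hf (DI (Mat a)) n + hf (DI (Lin ![a 1, J0 k t, J1 k t])) (n + 1)) +
              2 * t ^ 2 * (t + 1) = (6 * hf (DI (Mat a)) n + 2 * t ^ 2 * (t + 1)) +
              6 * hf (DI (Lin ![a 1, J0 k t, J1 k t])) (n + 1) := by ring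
          _ = _ := by
            rw [h3, h5]
            ring
  exact h2 n (by omega)

/-- there are no linear forms in the ideal -/
theorem mat_hf_one {k : Type} [Field k] {t : ℕ} (ht : 2 ≤ t)
    (a : Fin 2 → Fin t → Fin (t + 1) → k) : hf (DI (Mat a)) 1 = 4 := by
  have h0 : hf (DI (Mat a)) 0 = 1 := hf_zero _ (mat_isHom a) (mat_one (by omega) a)
  have h1 := hfn_step a 0
  have h2 := (hfn_three (by omega) (a 1) 1).1 (by omega)
  rw [h0] at h1
  have h3 : hf (DI (Lin ![a 1, J0 k t, J1 k t])) 1 = 3 := by omega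
  rw [h1, zero_add, h3]

end Pool.Agent.H56.DC
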