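import Pool.Agent.H56.DC.MIN

/-!
Part LCA. Relations among the minors, and the derivative of a determinant.
-/

set_option autoImplicit false

namespace Pool.Agent.H56.DC

open MvPolynomial Matrix

/-- the value of `Mat a` at `x` -/
theorem eval_mat {t : ℕ} (a : Fin 2 → Fin t → Fin (t + 1) → ℂ) (x : Fin 4 → ℂ) :
    (Mat a).map (eval x) = Nx a x := by
  ext i j
  simp [Mat, Lin, Nx, map_sum, mul_comm]

/-- the derivative of `Mat a` -/
theorem pderiv_mat {t : ℕ} (a : Fin 2 → Fin t → Fin (t + 1) → ℂ) (l : Fin 4) (i : Fin t)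
    (j : Fin (t + 1)) : pderiv l (Mat a i j) = C (co a l i j) := by
  classical
  simp only [Mat, Lin, map_sum, pderiv_C_mul, pderiv_X, Pi.single_apply]
  simp

theorem LCA_prod {ι : Type} [DecidableEq ι] {k : Type} [CommRing k] {R : Type} [CommRing R]
    [Algebra k R] (d : Derivation k R R) (s : Finset ι) (f : ι → R) :
    d (∏ i ∈ s, f i) = ∑ i ∈ s, (∏ j ∈ s.erase i, f j) * d (f i) := by
  induction s using Finset.induction_on with
  | empty => simp
  | insert a s ha ih =>
    rw [Finset.prod_insert ha, Derivation.leibniz, ih, Finset.sum_insert ha,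
      Finset.erase_insert ha, smul_eq_mul, smul_eq_mul, Finset.mul_sum, add_comm]
    congr 1
    apply Finset.sum_congr rfl
    intro i hi
    have hne : a ≠ i := fun h => ha (h ▸ hi)
    rw [Finset.erase_insert_of_ne hne, Finset.prod_insert (fun h => ha (Finset.mem_of_mem_erase h)),
      mul_assoc]

/-- the derivative of a determinant: `∂ det M = ∑ i j, adj(M) j i * ∂ (M i j)` -/
theorem pderiv_det {k : Type} [CommRing k] {r n : ℕ} (l : Fin r)
    (M : Matrix (Fin n) (Fin n) (MvPolynomial (Fin r) k)) :
    pderiv l M.det = ∑ i, ∑ j, M.adjugate j i * pderiv l (M i j) := by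
  classical
  rw [Finset.sum_comm]
  have key : ∀ j : Fin n, ∑ i, M.adjugate j i * pderiv l (M i j) =
      (M.updateCol j (fun i => pderiv l (M i j))).det := by
    intro j
    rw [← Matrix.cramer_apply, Matrix.cramer_eq_adjugate_mulVec]
    rfl
  simp only [key]
  rw [Matrix.det_apply', map_sum]
  simp only [Matrix.det_apply']
  rw [Finset.sum_comm]
  apply Finset.sum_congr rfl
  intro σ _
  rw [← Finset.mul_sum]
  have h1 : pderiv l (((Equiv.Perm.sign σ : ℤ) : MvPolynomial (Fin r) k) * ∏ i, M (σ i) i) =
      ((Equiv.Perm.sign σ : ℤ) : MvPolynomial (Fin r) k) * pderiv l (∏ i, M (σ i) i) := by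
    rw [Derivation.leibniz, Derivation.map_intCast, smul_zero, add_zero, smul_eq_mul]
  rw [h1, LCA_prod]
  congr 1
  apply Finset.sum_congr rfl
  intro j _
  rw [← Finset.mul_prod_erase Finset.univ _ (Finset.mem_univ j), mul_comm]
  congr 1
  · simp
  · apply Finset.prod_congr rfl
    intro i hi
    rw [Matrix.updateCol_ne (Finset.ne_of_mem_erase hi)]

/-- Let `δ` be the minor of the rows `≠ i0` and columns `≠ j0, j1`. Then `δ * minor M j` lies in the
ideal of `minor M j0` and `minor M j1`. Proof: the rows `i ≠ i0` of `M` kill the vector of minors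
(`row_minor`), so the square matrix `M'` with rows `≠ i0` and columns `≠ j0, j1` satisfies
`M' (minor M j)_{j ≠ j0, j1} = - (column j0) minor M j0 - (column j1) minor M j1`; multiply with the
adjugate of `M'`. We write `δ` (up to sign) as the entry `(M.submatrix id j0.succAbove).adjugate j1' i0`
of an adjugate, where `j1 = j0.succAbove j1'`. Another way: `M_{j0} := M.submatrix id j0.succAbove`
satisfies `M_{j0} m' = - (column j0) minor M j0` with `m' b = minor M (j0.succAbove b)`. Let `P` be
`M_{j0}` with row `i0` replaced by the unit vector `e_{j1'}`; `det P = adj(M_{j0}) j1' i0`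
(`Matrix.adjugate_apply`) and all entries of `P m'` are in the ideal; multiply with `adj P`. -/
theorem delta_minor {D : Type} [CommRing D] {t : ℕ} (M : Matrix (Fin t) (Fin (t + 1)) D)
    (i0 : Fin t) (j0 : Fin (t + 1)) (j1' : Fin t) (j : Fin (t + 1)) :
    (M.submatrix id j0.succAbove).adjugate j1' i0 * minor M j ∈
      Ideal.span {minor M j0, minor M (j0.succAbove j1')} := by
  classical
  set I := Ideal.span {minor M j0, minor M (j0.succAbove j1')} with hI
  have hI0 : minor M j0 ∈ I := Ideal.subset_span (by simp)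
  have hI1 : minor M (j0.succAbove j1') ∈ I := Ideal.subset_span (by simp)
  rcases eq_or_ne j j0 with rfl | hj
  · exact I.mul_mem_left _ hI0
  obtain ⟨b, rfl⟩ := Fin.exists_succAbove_eq hj
  set P := (M.submatrix id j0.succAbove).updateRow i0 (Pi.single j1' 1) with hP
  set m' : Fin t → D := fun b => minor M (j0.succAbove b) with hm'
  have hdet : P.det = (M.submatrix id j0.succAbove).adjugate j1' i0 := by
    rw [Matrix.adjugate_apply]
  have hPm : ∀ i, (P *ᵥ m') i ∈ I := by
    intro i
    by_cases hi : i = i0
    · subst hi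
      have : (P *ᵥ m') i = minor M (j0.succAbove j1') := by
        simp [hP, Matrix.mulVec, Matrix.updateRow_self, hm', dotProduct, Pi.single_apply]
      rw [this]; exact hI1
    · have h1 : (P *ᵥ m') i = ∑ b, M i (j0.succAbove b) * minor M (j0.succAbove b) := by
        simp [hP, Matrix.mulVec, Matrix.updateRow_ne hi, hm', dotProduct]
      have h2 := row_minor M i
      rw [Fin.sum_univ_succAbove _ j0] at h2
      have h3 : (P *ᵥ m') i = - (M i j0 * minor M j0) := by
        rw [h1]; linear_combination h2
      rw [h3]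
      exact I.neg_mem (I.mul_mem_left _ hI0)
  have h4 : P.adjugate *ᵥ (P *ᵥ m') = P.det • m' := by
    rw [Matrix.mulVec_mulVec, Matrix.adjugate_mul, Matrix.smul_mulVec, Matrix.one_mulVec]
  have h5 := congrFun h4 b
  rw [← hdet]
  have h6 : P.det * minor M (j0.succAbove b) = (P.adjugate *ᵥ (P *ᵥ m')) b := by
    rw [h5]; rfl
  rw [h6]
  change (∑ i, P.adjugate b i * (P *ᵥ m') i) ∈ I
  exact I.sum_mem (fun i _ => I.mul_mem_left _ (hPm i))

end Pool.Agent.H56.DC
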