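import Pool.Agent.H56.DC.MIN

/-!
Part LCB. Linear algebra of a `t × (t + 1)` matrix of rank `t - 1` over `ℂ`.
-/

set_option autoImplicit false

namespace Pool.Agent.H56.DC

open Matrix

theorem LCB_extend {s m : ℕ} (v : Fin s → (Fin m → ℂ)) (hv : LinearIndependent ℂ v)
    (hsm : s < m) : ∃ j : Fin m, LinearIndependent ℂ
      (Fin.cons (Pi.single j (1 : ℂ)) v : Fin (s + 1) → (Fin m → ℂ)) := by
  by_contra hcon
  push Not at hcon
  have h1 : ∀ j : Fin m, (Pi.single j (1 : ℂ) : Fin m → ℂ) ∈ Submodule.span ℂ (Set.range v) := by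
    intro j
    by_contra hj
    exact hcon j (linearIndependent_finCons.mpr ⟨hv, hj⟩)
  have h2 : Submodule.span ℂ (Set.range v) = ⊤ := by
    rw [eq_top_iff]
    intro x _
    rw [pi_eq_sum_univ x]
    refine Submodule.sum_mem _ (fun j _ => Submodule.smul_mem _ _ ?_)
    have := h1 j
    convert this using 1
    ext i
    simp [Pi.single_apply, eq_comm]
  have h3 : Module.finrank ℂ (Submodule.span ℂ (Set.range v)) ≤ s := by
    have := finrank_range_le_card (R := ℂ) v
    simpa [Set.finrank] using this
  rw [h2, finrank_top, Module.finrank_fin_fun] at h3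
  omega

/-- Proof: all maximal minors vanish, so there is `u ≠ 0` with `u N = 0`; let `u i0 ≠ 0`. By `h2` the
rows `i ≠ i0` are linearly independent. Choose `j0`, `j1` such that the rows `i ≠ i0` together with
`e_{j0}`, `e_{j1}` are a basis of `ℂ ^ (t + 1)` (`e_{j0}` is not in the span `V` of the rows `i ≠ i0`,
which has dimension `t - 1`; then `e_{j1}` is not in `V + ℂ e_{j0}`). With `j1 = j0.succAbove j1'` the
matrix `N_{j0} = N.submatrix id j0.succAbove` with row `i0` replaced by `e_{j1'}` has independent rows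
(the projection away from `e_{j0}`), and its determinant is `adj (N_{j0}) j1' i0`
(`Matrix.adjugate_apply`). -/
theorem exists_adj_ne {t : ℕ} (N : Matrix (Fin t) (Fin (t + 1)) ℂ) (ht : 1 ≤ t)
    (h1 : ∀ j : Fin (t + 1), (N.submatrix id j.succAbove).det = 0)
    (h2 : ∀ u u' : Fin t → ℂ, u ᵥ* N = 0 → u' ᵥ* N = 0 → ¬ LinearIndependent ℂ ![u, u']) :
    ∃ (i0 : Fin t) (j0 : Fin (t + 1)) (j1' : Fin t),
      (N.submatrix id j0.succAbove).adjugate j1' i0 ≠ 0 := by
  classical
  obtain ⟨n, rfl⟩ : ∃ n, t = n + 1 := ⟨t - 1, by omega⟩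
  -- a nonzero vector in the left kernel
  have hu : ∃ u : Fin (n + 1) → ℂ, u ≠ 0 ∧ u ᵥ* N = 0 := by
    by_contra hcon
    push Not at hcon
    have hind : LinearIndependent ℂ (fun i => N i) := by
      rw [Fintype.linearIndependent_iff]
      intro g hg
      by_contra hne
      push Not at hne
      obtain ⟨i, hi⟩ := hne
      refine hcon g (fun h => hi (by rw [h]; rfl)) ?_
      ext j
      have := congrFun hg j
      simpa [Matrix.vecMul, dotProduct, Finset.sum_apply] using this
    obtain ⟨j0, hj0⟩ := LCB_extend _ hind (by omega)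
    have hdet : ((Matrix.of (Fin.cons (Pi.single j0 (1 : ℂ)) (fun i => N i) :
        Fin (n + 1 + 1) → (Fin (n + 1 + 1) → ℂ)))).det ≠ 0 := by
      have : LinearIndependent ℂ (Matrix.of (Fin.cons (Pi.single j0 (1 : ℂ)) (fun i => N i) :
        Fin (n + 1 + 1) → (Fin (n + 1 + 1) → ℂ))).row := hj0
      rw [Matrix.linearIndependent_rows_iff_isUnit, Matrix.isUnit_iff_isUnit_det] at this
      exact this.ne_zero
    apply hdet
    have := sum_minor N (Pi.single j0 (1 : ℂ))
    rw [← this]
    apply Finset.sum_eq_zero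
    intro j _
    simp [minor, h1]
  obtain ⟨u, hu0, huN⟩ := hu
  obtain ⟨i0, hi0⟩ : ∃ i0, u i0 ≠ 0 := by
    by_contra hcon
    push Not at hcon
    exact hu0 (funext hcon)
  -- the other rows are independent
  have hv : LinearIndependent ℂ (fun b : Fin n => N (i0.succAbove b)) := by
    rw [Fintype.linearIndependent_iff]
    intro g hg
    set u' : Fin (n + 1) → ℂ := i0.insertNth 0 g with hu'
    have hu'N : u' ᵥ* N = 0 := by
      ext j
      have := congrFun hg j
      simp only [Matrix.vecMul, dotProduct]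
      rw [Fin.sum_univ_succAbove _ i0]
      simpa [hu', Finset.sum_apply] using this
    have hdep := h2 u u' huN hu'N
    have hz : u' = 0 := by
      by_contra hne
      apply hdep
      rw [LinearIndependent.pair_iff]
      intro s r hsr
      have h3 := congrFun hsr i0
      simp only [Pi.add_apply, Pi.smul_apply, smul_eq_mul, Pi.zero_apply, hu',
        Fin.insertNth_apply_same, mul_zero, add_zero] at h3
      have hs : s = 0 := by
        rcases mul_eq_zero.mp h3 with h | h
        · exact h
        · exact absurd h hi0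
      subst hs
      refine ⟨rfl, ?_⟩
      rw [zero_smul, zero_add] at hsr
      rcases smul_eq_zero.mp hsr with h | h
      · exact h
      · exact absurd h hne
    intro b
    have := congrFun hz (i0.succAbove b)
    simpa [hu'] using this
  obtain ⟨j0, hj0⟩ := LCB_extend _ hv (by omega)
  obtain ⟨j1, hj1⟩ := LCB_extend _ hj0 (by omega)
  have hne : j1 ≠ j0 := by
    rintro rfl
    have := hj1.injective (a₁ := 0) (a₂ := 1) (by
      simp [Fin.cons_zero])
    simp at this
  obtain ⟨j1', rfl⟩ := Fin.exists_succAbove_eq hne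
  refine ⟨i0, j0, j1', ?_⟩
  rw [Matrix.adjugate_apply]
  intro hdet
  obtain ⟨w, hw0, hw⟩ := Matrix.exists_vecMul_eq_zero_iff.mpr hdet
  apply hw0
  -- the combination
  have hc : ∀ c : Fin (n + 1), w i0 * (Pi.single j1' (1 : ℂ) : Fin (n + 1) → ℂ) c +
      ∑ b : Fin n, w (i0.succAbove b) * N (i0.succAbove b) (j0.succAbove c) = 0 := by
    intro c
    have h3 := congrFun hw c
    simp only [Matrix.vecMul, dotProduct] at h3
    rw [Fin.sum_univ_succAbove _ i0, Matrix.updateRow_self] at h3
    simp only [Pi.zero_apply] at h3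
    rw [← h3]
    congr 1
    apply Finset.sum_congr rfl
    intro b _
    rw [Matrix.updateRow_ne (Fin.succAbove_ne i0 b)]
    rfl
  set κ : ℂ := w i0 * (Pi.single (j0.succAbove j1') (1 : ℂ) : Fin (n + 2) → ℂ) j0 +
      ∑ b : Fin n, w (i0.succAbove b) * N (i0.succAbove b) j0 with hκ
  rw [Fintype.linearIndependent_iff] at hj1
  have h4 := hj1 (Fin.cons (w i0) (Fin.cons (-κ) (fun b => w (i0.succAbove b)))) (by
    rw [Fin.sum_univ_succ, Fin.sum_univ_succ]
    simp only [Fin.cons_zero, Fin.cons_succ]
    ext j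
    simp only [Pi.add_apply, Pi.smul_apply, smul_eq_mul, Finset.sum_apply, Pi.zero_apply]
    rcases eq_or_ne j j0 with rfl | hj
    · rw [Pi.single_eq_same, hκ]; ring
    · obtain ⟨c, rfl⟩ := Fin.exists_succAbove_eq hj
      have h5 := hc c
      rw [Pi.single_eq_of_ne hj, mul_zero, zero_add]
      have h6 : (Pi.single (j0.succAbove j1') (1 : ℂ) : Fin (n + 2) → ℂ) (j0.succAbove c) =
          (Pi.single j1' (1 : ℂ) : Fin (n + 1) → ℂ) c := by
        simp [Pi.single_apply, Fin.succAbove_right_injective.eq_iff]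
      rw [h6]
      exact h5)
  have h5 : w i0 = 0 := by simpa using h4 0
  ext i
  rcases eq_or_ne i i0 with rfl | hi
  · exact h5
  · obtain ⟨b, rfl⟩ := Fin.exists_succAbove_eq hi
    have := h4 b.succ.succ
    simpa using this

end Pool.Agent.H56.DC
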