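import Pool.Agent.H56.DC.MIN

/-!
Part LCC. The adjugates of the maximal square submatrices of a matrix of rank `t - 1`. (helper66)
-/

set_option autoImplicit false

namespace Pool.Agent.H56.DC

open Matrix

/-- the entries of the adjugate which are not zero -/
theorem lcc_adj_ne {t : ℕ} (A : Matrix (Fin t) (Fin t) ℂ) (b i0 : Fin t) :
    A.adjugate b i0 ≠ 0 ↔ ∀ x : Fin t → ℂ, x i0 = 0 → (∀ c, c ≠ b → ∑ i, x i * A i c = 0) → x = 0 := by
  obtain ⟨B, hB⟩ : ∃ B, B = A.updateRow i0 (Pi.single b 1) := ⟨_, rfl⟩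
  obtain ⟨D, hD⟩ : ∃ D, D = B.updateCol b (Pi.single i0 1) := ⟨_, rfl⟩
  have h1 : A.adjugate b i0 = B.det := by rw [hB, adjugate_apply]
  have h2 : B.adjugate b i0 = B.det := by
    rw [adjugate_apply]
    congr 1
    rw [hB]
    ext i j
    by_cases hi : i = i0
    · subst hi
      simp
    · rw [updateRow_ne hi]
  have h3 : B.adjugate b i0 = D.det := by
    have h4 : B.adjugate b i0 = Bᵀ.adjugate i0 b := congrFun (congrFun (adjugate_transpose B) i0) b
    rw [h4, adjugate_apply, updateRow_transpose, det_transpose, hD]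
  have h5 : A.adjugate b i0 = D.det := by rw [h1, ← h2, h3]
  have h6 : ∀ x : Fin t → ℂ, (∀ c, (x ᵥ* D) c = 0) ↔
      x i0 = 0 ∧ ∀ c, c ≠ b → ∑ i, x i * A i c = 0 := by
    intro x
    have e1 : (x ᵥ* D) b = x i0 := by
      rw [vecMul, dotProduct, hD]
      simp [Pi.single_apply]
    have e2 : x i0 = 0 → ∀ c, c ≠ b → (x ᵥ* D) c = ∑ i, x i * A i c := by
      intro hx c hc
      rw [vecMul, dotProduct]
      apply Finset.sum_congr rfl
      intro i _
      by_cases hi : i = i0
      · rw [hi, hx, zero_mul, zero_mul]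
      · rw [hD, updateCol_ne hc, hB, updateRow_ne hi]
    constructor
    · intro h
      have h7 : x i0 = 0 := by rw [← e1]; exact h b
      exact ⟨h7, fun c hc => by rw [← e2 h7 c hc]; exact h c⟩
    · rintro ⟨h7, h8⟩ c
      by_cases hc : c = b
      · rw [hc, e1, h7]
      · rw [e2 h7 c hc, h8 c hc]
  rw [h5]
  constructor
  · intro h x hx1 hx2
    by_contra hne
    apply h
    rw [← exists_vecMul_eq_zero_iff]
    exact ⟨x, hne, funext ((h6 x).2 ⟨hx1, hx2⟩)⟩
  · intro h hd
    rw [← exists_vecMul_eq_zero_iff] at hd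
    obtain ⟨x, hne, hx⟩ := hd
    obtain ⟨h7, h8⟩ := (h6 x).1 (congrFun hx)
    exact hne (h x h7 h8)

/-- all square submatrices have determinant zero -/
theorem lcc_det {t : ℕ} (N : Matrix (Fin t) (Fin (t + 1)) ℂ)
    (h1 : ∀ j : Fin (t + 1), (N.submatrix id j.succAbove).det = 0) (σ : Fin t → Fin (t + 1))
    (hσ : Function.Injective σ) : (N.submatrix id σ).det = 0 := by
  obtain ⟨j, hj⟩ : ∃ j, ∀ b, σ b ≠ j := by
    by_contra hc
    push Not at hc
    have h2 := Fintype.card_le_of_surjective σ hc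
    rw [Fintype.card_fin, Fintype.card_fin] at h2
    omega
  choose e he using fun b => Fin.exists_succAbove_eq (hj b)
  have hinj : Function.Injective e := by
    intro b b' hb
    apply hσ
    rw [← he b, ← he b', hb]
  have hbij : Function.Bijective e := Finite.injective_iff_bijective.1 hinj
  have h2 : N.submatrix id σ = (N.submatrix id j.succAbove).submatrix id
      (Equiv.ofBijective e hbij) := by
    ext i b
    show N i (σ b) = N i (j.succAbove (e b))
    rw [he b]
  rw [h2, det_permute', h1 j, mul_zero]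

/-- one of the two vectors -/
theorem lcc_part {t : ℕ} (N : Matrix (Fin t) (Fin (t + 1)) ℂ) (j : Fin (t + 1))
    (hdet : (N.submatrix id j.succAbove).det = 0) (u : Fin t → ℂ) (hu : u ᵥ* N = 0) (i0 : Fin t)
    (hu0 : u i0 ≠ 0)
    (K : ∀ x : Fin t → ℂ, x i0 = 0 → (∀ c, ∑ i, x i * N i (j.succAbove c) = 0) → x = 0) :
    N *ᵥ (j.insertNth (α := fun _ => ℂ) 0
      fun b => (N.submatrix id j.succAbove).adjugate b i0 / u i0) = 0 ∧
    ∀ E : Matrix (Fin t) (Fin (t + 1)) ℂ,
      ∑ i, ∑ b, (N.submatrix id j.succAbove).adjugate b i * E i (j.succAbove b) =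
        u ⬝ᵥ (E *ᵥ (j.insertNth (α := fun _ => ℂ) 0
          fun b => (N.submatrix id j.succAbove).adjugate b i0 / u i0)) := by
  obtain ⟨A, hA⟩ : ∃ A, A = N.submatrix id j.succAbove := ⟨_, rfl⟩
  rw [← hA] at hdet ⊢
  obtain ⟨w, hw⟩ : ∃ w : Fin t → ℂ, w = fun b => A.adjugate b i0 / u i0 := ⟨_, rfl⟩
  rw [← hw]
  have hmul : ∀ (E : Matrix (Fin t) (Fin (t + 1)) ℂ) (i : Fin t),
      (E *ᵥ (j.insertNth (α := fun _ => ℂ) 0 w)) i = ∑ b, E i (j.succAbove b) * w b := by
    intro E i
    rw [mulVec, dotProduct, Fin.sum_univ_succAbove _ j]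
    simp
  have hadj : ∀ b i, A.adjugate b i = w b * u i := by
    intro b i
    have h1 := K (fun i => A.adjugate b i - w b * u i) (by
      rw [hw]
      field_simp
      ring) (fun c => by
      have e1 : ∑ i, A.adjugate b i * A i c = 0 := by
        have h2 := congrFun (congrFun (adjugate_mul A) b) c
        rw [hdet, zero_smul, mul_apply] at h2
        exact h2
      have e2 : ∑ i, u i * N i (j.succAbove c) = 0 := congrFun hu (j.succAbove c)
      have e3 : ∀ i, (A.adjugate b i - w b * u i) * N i (j.succAbove c) =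
          A.adjugate b i * A i c - w b * (u i * N i (j.succAbove c)) := by
        intro i
        rw [hA]
        simp only [submatrix_apply, id]
        ring
      simp only [e3]
      rw [Finset.sum_sub_distrib, e1, ← Finset.mul_sum, e2, mul_zero, sub_zero])
    have h2 := congrFun h1 i
    exact sub_eq_zero.1 h2
  refine ⟨?_, fun E => ?_⟩
  · funext i
    rw [hmul]
    have h2 := congrFun (congrFun (mul_adjugate A) i) i0
    rw [hdet, zero_smul, mul_apply] at h2
    have e3 : ∀ b, N i (j.succAbove b) * w b = (A i b * A.adjugate b i0) / u i0 := by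
      intro b
      rw [hA, hw]
      simp only [submatrix_apply, id]
      rw [hA]
      ring
    simp only [e3]
    rw [← Finset.sum_div, h2]
    simp
  · rw [dotProduct]
    apply Finset.sum_congr rfl
    intro i _
    rw [hmul, Finset.mul_sum]
    apply Finset.sum_congr rfl
    intro b _
    rw [hadj]
    ring

/-- Proof: let `j1 = j0.succAbove j1'` and, for `j = j0, j1`, `N_j = N.submatrix id j.succAbove`. Let
`u i = adj (N_{j0}) j1' i`; `u i0 ≠ 0` and `u N_{j0} = 0` (`adjugate_mul`, `det = 0`). Also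
`u ⬝ (column j0 of N) = 0` since it is (up to sign) the determinant of `N_{j1}` (Cramer's rule), so `u N = 0`. The left
kernel of `N_{j0}` has dimension 1, because `N_{j0}` has a nonzero minor of size `t - 1`; so
`adj (N_{j0}) = w u^T` with `w j1' ≠ 0`, and `N_{j0} w = 0`. Let `v0` be `w` extended by `0` at `j0`.
In the same way `adj (N_{j1}) = w' u^T`: let `j0'` be the index with `j1.succAbove j0' = j0`; then
`adj (N_{j1}) j0' i0 = ± adj (N_{j0}) j1' i0 ≠ 0` (it is the same minor of size `t - 1`), `w' j0' ≠ 0`, and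
`v1` is `w'` extended by `0` at `j1`. `v0 j0 = 0`, `v0 j1 ≠ 0`, `v1 j1 = 0`, `v1 j0 ≠ 0`. -/
theorem adj_structure {t : ℕ} (N : Matrix (Fin t) (Fin (t + 1)) ℂ)
    (h1 : ∀ j : Fin (t + 1), (N.submatrix id j.succAbove).det = 0)
    (i0 : Fin t) (j0 : Fin (t + 1)) (j1' : Fin t)
    (h : (N.submatrix id j0.succAbove).adjugate j1' i0 ≠ 0) :
    ∃ (u : Fin t → ℂ) (v0 v1 : Fin (t + 1) → ℂ), u ≠ 0 ∧ u ᵥ* N = 0 ∧
      LinearIndependent ℂ ![v0, v1] ∧ N *ᵥ v0 = 0 ∧ N *ᵥ v1 = 0 ∧
      (∀ E : Matrix (Fin t) (Fin (t + 1)) ℂ,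
        ∑ i, ∑ b, (N.submatrix id j0.succAbove).adjugate b i * E i (j0.succAbove b) =
          u ⬝ᵥ (E *ᵥ v0)) ∧
      (∀ E : Matrix (Fin t) (Fin (t + 1)) ℂ,
        ∑ i, ∑ b, (N.submatrix id (j0.succAbove j1').succAbove).adjugate b i *
          E i ((j0.succAbove j1').succAbove b) = u ⬝ᵥ (E *ᵥ v1)) := by
  obtain ⟨j1, hj1⟩ : ∃ j1, j1 = j0.succAbove j1' := ⟨_, rfl⟩
  rw [← hj1]
  obtain ⟨u, hu⟩ : ∃ u : Fin t → ℂ, u = fun i => (N.submatrix id j0.succAbove).adjugate j1' i :=
    ⟨_, rfl⟩
  have hu0 : u i0 ≠ 0 := by rw [hu]; exact h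
  have hj01 : j0 ≠ j1 := by rw [hj1]; exact (Fin.succAbove_ne j0 j1').symm
  -- the left kernel
  have K : ∀ x : Fin t → ℂ, x i0 = 0 → (∀ j, j ≠ j0 → j ≠ j1 → ∑ i, x i * N i j = 0) → x = 0 := by
    intro x hx h2
    refine (lcc_adj_ne _ _ _).1 h x hx fun c hc => ?_
    exact h2 (j0.succAbove c) (Fin.succAbove_ne j0 c) fun h3 =>
      hc (Fin.succAbove_right_injective (h3.trans hj1))
  have huN : u ᵥ* N = 0 := by
    funext j
    show ∑ i, u i * N i j = 0
    by_cases hj : j = j0
    · rw [hj]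
      have h2 := congrFun (cramer_eq_adjugate_mulVec (N.submatrix id j0.succAbove)
        (fun i => N i j0)) j1'
      rw [mulVec, dotProduct] at h2
      rw [hu, ← h2, cramer_apply]
      have h3 : (N.submatrix id j0.succAbove).updateCol j1' (fun i => N i j0) =
          N.submatrix id fun b => if b = j1' then j0 else j0.succAbove b := by
        ext i b
        by_cases hb : b = j1'
        · rw [hb]
          simp
        · rw [updateCol_ne hb]
          simp [hb]
      rw [h3]
      apply lcc_det N h1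
      intro b b' hb
      simp only at hb
      by_cases hb1 : b = j1'
      · by_cases hb2 : b' = j1'
        · rw [hb1, hb2]
        · rw [if_pos hb1, if_neg hb2] at hb
          exact absurd hb.symm (Fin.succAbove_ne j0 b')
      · by_cases hb2 : b' = j1'
        · rw [if_neg hb1, if_pos hb2] at hb
          exact absurd hb (Fin.succAbove_ne j0 b)
        · rw [if_neg hb1, if_neg hb2] at hb
          exact Fin.succAbove_right_injective hb
    · obtain ⟨b, rfl⟩ := Fin.exists_succAbove_eq hj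
      have h2 := congrFun (congrFun (adjugate_mul (N.submatrix id j0.succAbove)) j1') b
      rw [h1 j0, zero_smul, mul_apply] at h2
      rw [hu]
      exact h2
  obtain ⟨j0', hj0'⟩ := Fin.exists_succAbove_eq hj01
  have h0 := lcc_part N j0 (h1 j0) u huN i0 hu0 (fun x hx h2 => K x hx fun j hj _ => by
    obtain ⟨b, rfl⟩ := Fin.exists_succAbove_eq hj
    exact h2 b)
  have h0' := lcc_part N j1 (h1 j1) u huN i0 hu0 (fun x hx h2 => K x hx fun j _ hj => by
    obtain ⟨b, rfl⟩ := Fin.exists_succAbove_eq hj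
    exact h2 b)
  have hne : (N.submatrix id j1.succAbove).adjugate j0' i0 ≠ 0 := by
    rw [lcc_adj_ne]
    intro x hx h2
    refine K x hx fun j hj hj' => ?_
    obtain ⟨b, rfl⟩ := Fin.exists_succAbove_eq hj'
    exact h2 b fun h3 => hj (by rw [h3, hj0'])
  refine ⟨u, _, _, fun h2 => hu0 (congrFun h2 i0), huN, ?_, h0.1, h0'.1, h0.2, h0'.2⟩
  rw [LinearIndependent.pair_iff]
  intro s r hsr
  have e1 := congrFun hsr j1
  have e0 := congrFun hsr j0
  have a1 : (j0.insertNth (α := fun _ => ℂ) 0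
      fun b => (N.submatrix id j0.succAbove).adjugate b i0 / u i0) j1 = 1 := by
    rw [hj1, Fin.insertNth_apply_succAbove, hu]
    exact div_self h
  have a2 : (j0.insertNth (α := fun _ => ℂ) 0
      fun b => (N.submatrix id j0.succAbove).adjugate b i0 / u i0) j0 = 0 :=
    Fin.insertNth_apply_same _ _ _
  have a3 : (j1.insertNth (α := fun _ => ℂ) 0
      fun b => (N.submatrix id j1.succAbove).adjugate b i0 / u i0) j1 = 0 :=
    Fin.insertNth_apply_same _ _ _
  have a4 : (j1.insertNth (α := fun _ => ℂ) 0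
      fun b => (N.submatrix id j1.succAbove).adjugate b i0 / u i0) j0 ≠ 0 := by
    have a5 : (j1.insertNth (α := fun _ => ℂ) 0
      fun b => (N.submatrix id j1.succAbove).adjugate b i0 / u i0) j0 =
        (N.submatrix id j1.succAbove).adjugate j0' i0 / u i0 := by
      conv_lhs => rw [← hj0']
      rw [Fin.insertNth_apply_succAbove]
    rw [a5]
    exact div_ne_zero hne hu0
  simp only [Pi.add_apply, Pi.smul_apply, smul_eq_mul, Pi.zero_apply] at e1 e0
  rw [a1, a3, mul_one, mul_zero, add_zero] at e1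
  rw [a2, mul_zero, zero_add] at e0
  exact ⟨e1, (mul_eq_zero.1 e0).resolve_right a4⟩

end Pool.Agent.H56.DC
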