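import Pool.Agent.H56.DC.MIN

/-!
Part LFT. Lifting properties of a matrix of linear forms from its reduction modulo the first
variable. `rho k r` is the reduction `X 0 ↦ 0`, `X i.succ ↦ X i`; it is surjective (it has the section
`rename Fin.succ`) with kernel `(X 0)` (`rho_ker`).
-/

set_option autoImplicit false

namespace Pool.Agent.H56.DC

open MvPolynomial

theorem rho_surj {k : Type} [Field k] {r : ℕ} (p : MvPolynomial (Fin r) k) :
    rho k r (rename Fin.succ p) = p := by
  unfold rho
  rw [aeval_rename]
  have h : (Fin.cons 0 X : Fin (r + 1) → MvPolynomial (Fin r) k) ∘ Fin.succ = X := by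
    funext i
    simp
  rw [h, aeval_X_left, AlgHom.id_apply]

theorem rho_X0 {k : Type} [Field k] {r : ℕ} :
    rho k r (X 0) = 0 := by
  unfold rho
  rw [aeval_X]
  rfl

theorem rho_Xs {k : Type} [Field k] {r : ℕ} (i : Fin r) :
    rho k r (X i.succ) = X i := by
  unfold rho
  rw [aeval_X]
  rfl

theorem rho_dvd {k : Type} [Field k] {r : ℕ} (p : MvPolynomial (Fin (r + 1)) k) :
    ∃ q, p - rename Fin.succ (rho k r p) = X 0 * q := by
  let I : Ideal (MvPolynomial (Fin (r + 1)) k) := Ideal.span {X 0}
  have h : (Ideal.Quotient.mkₐ k I).comp ((rename Fin.succ).comp (rho k r)) =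
      Ideal.Quotient.mkₐ k I := by
    apply MvPolynomial.algHom_ext
    intro i
    refine Fin.cases ?_ (fun j => ?_) i
    · simp only [AlgHom.comp_apply, rho_X0, map_zero]
      symm
      exact Ideal.Quotient.eq_zero_iff_mem.2 (Ideal.mem_span_singleton_self _)
    · simp only [AlgHom.comp_apply, rho_Xs, rename_X]
  have h1 : Ideal.Quotient.mk I (p - rename Fin.succ (rho k r p)) = 0 := by
    rw [map_sub, sub_eq_zero]
    exact (DFunLike.congr_fun h p).symm
  obtain ⟨q, hq⟩ := Ideal.mem_span_singleton.1 (Ideal.Quotient.eq_zero_iff_mem.1 h1)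
  exact ⟨q, hq⟩

theorem rho_ker {k : Type} [Field k] {r : ℕ} (p : MvPolynomial (Fin (r + 1)) k) :
    rho k r p = 0 ↔ ∃ q, p = X 0 * q := by
  constructor
  · intro h
    obtain ⟨q, hq⟩ := rho_dvd p
    rw [h, map_zero, sub_zero] at hq
    exact ⟨q, hq⟩
  · rintro ⟨q, rfl⟩
    rw [map_mul, rho_X0, zero_mul]

theorem Lin_rho {k : Type} [Field k] {r t : ℕ} (c : Fin (r + 1) → Matrix (Fin t) (Fin (t + 1)) k) :
    (Lin c).map (rho k r) = Lin (fun l => c l.succ) := by
  ext1 i j
  rw [Matrix.map_apply]
  unfold Lin
  rw [map_sum, Fin.sum_univ_succ]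
  simp only [map_mul, rho_X0, mul_zero, zero_add, rho_Xs, algHom_C]
  rfl

/-- homogeneous components of products -/
theorem hc_mul {k : Type} [CommRing k] {σ : Type} {q : MvPolynomial σ k} {e : ℕ}
    (hq : q.IsHomogeneous e) (p : MvPolynomial σ k) (n : ℕ) :
    homogeneousComponent (n + e) (p * q) = homogeneousComponent n p * q := by
  conv_lhs => rw [← sum_homogeneousComponent p]
  rw [Finset.sum_mul, map_sum]
  have h1 : ∀ i ∈ Finset.range (p.totalDegree + 1),
      homogeneousComponent (n + e) (homogeneousComponent i p * q) =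
        if i = n then homogeneousComponent i p * q else 0 := by
    intro i _
    have h2 : (homogeneousComponent i p * q) ∈ homogeneousSubmodule σ k (i + e) :=
      (homogeneousComponent_isHomogeneous i p).mul hq
    rw [homogeneousComponent_of_mem h2]
    by_cases h : i = n
    · rw [if_pos h, if_pos (by omega)]
    · rw [if_neg h, if_neg (by omega)]
  rw [Finset.sum_congr rfl h1, Finset.sum_ite_eq']
  by_cases h : n ∈ Finset.range (p.totalDegree + 1)
  · rw [if_pos h]
  · rw [if_neg h, homogeneousComponent_eq_zero, zero_mul]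
    simpa [Nat.lt_succ_iff] using h

theorem hc_mul_low {k : Type} [CommRing k] {σ : Type} {q : MvPolynomial σ k} {e : ℕ}
    (hq : q.IsHomogeneous e) (p : MvPolynomial σ k) {n : ℕ} (hn : n < e) :
    homogeneousComponent n (p * q) = 0 := by
  conv_lhs => rw [← sum_homogeneousComponent p]
  rw [Finset.sum_mul, map_sum]
  apply Finset.sum_eq_zero
  intro i _
  have h2 : (homogeneousComponent i p * q) ∈ homogeneousSubmodule σ k (i + e) :=
    (homogeneousComponent_isHomogeneous i p).mul hq
  rw [homogeneousComponent_of_mem h2, if_neg (by omega)]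

theorem sum_hc {k : Type} [CommRing k] {σ : Type} (p : MvPolynomial σ k) {N : ℕ}
    (h : p.totalDegree < N) : ∑ n ∈ Finset.range N, homogeneousComponent n p = p := by
  conv_rhs => rw [← sum_homogeneousComponent p]
  symm
  apply Finset.sum_subset
  · intro i hi
    rw [Finset.mem_range] at hi ⊢
    omega
  · intro i _ hi
    apply homogeneousComponent_eq_zero
    rw [Finset.mem_range] at hi
    omega

theorem exists_bound {k : Type} [CommRing k] {σ : Type} {m : ℕ} (v : Fin m → MvPolynomial σ k) :
    ∃ N, ∀ j, (v j).totalDegree < N :=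
  ⟨Finset.univ.sup (fun j => (v j).totalDegree) + 1, fun j =>
    Nat.lt_succ_of_le (Finset.le_sup (f := fun j => (v j).totalDegree) (Finset.mem_univ j))⟩

/-- the minors of the reduced matrix -/
theorem rho_minor {k : Type} [Field k] {r t : ℕ}
    (M : Matrix (Fin t) (Fin (t + 1)) (MvPolynomial (Fin (r + 1)) k)) (j : Fin (t + 1)) :
    minor (M.map (rho k r)) j = rho k r (minor M j) :=
  minor_map (rho k r : MvPolynomial (Fin (r + 1)) k →+* MvPolynomial (Fin r) k) M j

/-- lift of a vector which is a combination of the rows modulo `x₀` -/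
theorem decomp {k : Type} [Field k] {r t : ℕ}
    (M : Matrix (Fin t) (Fin (t + 1)) (MvPolynomial (Fin (r + 1)) k))
    (h : HB (M.map (rho k r))) (v : Fin (t + 1) → MvPolynomial (Fin (r + 1)) k)
    (hv : ∑ j, rho k r (v j) * rho k r (minor M j) = 0) :
    ∃ (u : Fin t → MvPolynomial (Fin (r + 1)) k) (v' : Fin (t + 1) → MvPolynomial (Fin (r + 1)) k),
      ∀ j, v j = ∑ i, u i * M i j + X 0 * v' j := by
  obtain ⟨ub, hub⟩ := h (fun j => rho k r (v j)) (by
    rw [← hv]
    exact Finset.sum_congr rfl fun j _ => by rw [rho_minor])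
  have h1 : ∀ j, ∃ q, v j - ∑ i, rename Fin.succ (ub i) * M i j = X 0 * q := by
    intro j
    rw [← rho_ker, map_sub, hub j, map_sum, sub_eq_zero]
    exact Finset.sum_congr rfl fun i _ => by rw [map_mul, rho_surj, Matrix.map_apply]
  choose q hq using h1
  exact ⟨fun i => rename Fin.succ (ub i), q, fun j => by rw [← hq j]; ring⟩

theorem sum_rows_minor {D : Type} [CommRing D] {t : ℕ} (M : Matrix (Fin t) (Fin (t + 1)) D)
    (u : Fin t → D) : ∑ j, (∑ i, u i * M i j) * minor M j = 0 := by
  simp_rw [Finset.sum_mul]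
  rw [Finset.sum_comm]
  apply Finset.sum_eq_zero
  intro i _
  simp_rw [mul_assoc]
  rw [← Finset.mul_sum, row_minor, mul_zero]

/-- `x₀` is a nonzerodivisor modulo `DI M`. Proof: `x₀ p = ∑ v j * minor j` gives
`∑ rho (v j) * minor (M.map rho) j = 0`, so `rho v = ū (M.map rho)`, and with `u` a lift of `ū`,
`v = u M + x₀ v'`; the rows of `M` kill the minors, so `x₀ p = x₀ ∑ v' j * minor j`. -/
theorem lft_regular {k : Type} [Field k] {r t : ℕ}
    (M : Matrix (Fin t) (Fin (t + 1)) (MvPolynomial (Fin (r + 1)) k))
    (h : HB (M.map (rho k r))) (p : MvPolynomial (Fin (r + 1)) k) (hp : X 0 * p ∈ DI M) :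
    p ∈ DI M := by
  obtain ⟨v, hv⟩ := Ideal.mem_span_range_iff_exists_fun.1 hp
  obtain ⟨u, v', huv⟩ := decomp M h v (by
    have h1 := congrArg (rho k r) hv
    rw [map_sum, map_mul, rho_X0, zero_mul] at h1
    simpa only [map_mul] using h1)
  have h2 : X 0 * p = X 0 * ∑ j, v' j * minor M j := by
    rw [← hv]
    calc ∑ j, v j * minor M j = ∑ j, ((∑ i, u i * M i j) * minor M j + X 0 * (v' j * minor M j)) :=
          Finset.sum_congr rfl fun j _ => by rw [huv j]; ring
      _ = _ := by
          rw [Finset.sum_add_distrib, sum_rows_minor, zero_add, ← Finset.mul_sum]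
  have h3 : p = ∑ j, v' j * minor M j := mul_left_cancel₀ (X_ne_zero 0) h2
  rw [h3]
  exact Ideal.mem_span_range_iff_exists_fun.2 ⟨v', rfl⟩

theorem lft_mem {k : Type} [Field k] {r t : ℕ}
    (M : Matrix (Fin t) (Fin (t + 1)) (MvPolynomial (Fin (r + 1)) k))
    (p : MvPolynomial (Fin (r + 1)) k) :
    p ∈ DI M ⊔ Ideal.span {X 0} ↔ rho k r p ∈ DI (M.map (rho k r)) := by
  constructor
  · intro hp
    obtain ⟨a, ha, b, hb, rfl⟩ := Submodule.mem_sup.1 hp
    obtain ⟨c, rfl⟩ := Ideal.mem_span_singleton.1 hb
    obtain ⟨v, rfl⟩ := Ideal.mem_span_range_iff_exists_fun.1 ha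
    rw [map_add, map_mul, rho_X0, zero_mul, add_zero, map_sum]
    refine Ideal.mem_span_range_iff_exists_fun.2 ⟨fun j => rho k r (v j), ?_⟩
    exact Finset.sum_congr rfl fun j _ => by rw [map_mul, rho_minor]
  · intro hp
    obtain ⟨v, hv⟩ := Ideal.mem_span_range_iff_exists_fun.1 hp
    have h1 : rho k r (p - ∑ j, rename Fin.succ (v j) * minor M j) = 0 := by
      rw [map_sub, ← hv, map_sum, sub_eq_zero]
      exact Finset.sum_congr rfl fun j _ => by rw [map_mul, rho_surj, rho_minor]
    obtain ⟨q, hq⟩ := (rho_ker _).1 h1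
    have h2 : p = ∑ j, rename Fin.succ (v j) * minor M j + X 0 * q := by
      rw [← hq]; ring
    rw [h2]
    exact Submodule.add_mem_sup (Ideal.mem_span_range_iff_exists_fun.2 ⟨_, rfl⟩)
      (Ideal.mul_mem_right _ _ (Ideal.mem_span_singleton_self _))

/-- Proof: taking homogeneous components (the minors are homogeneous of degree `t`), it suffices to
treat vectors `v` all of whose entries are homogeneous of degree `n`; induct on `n`. As in
`lft_regular`, `v = u M + x₀ v'` with `u` homogeneous of degree `n - 1` and `v'` homogeneous of degree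
`n - 1` (take the component of degree `n`; for `n = 0` this gives `v = 0`), and
`∑ v' j * minor j = 0` (cancel `x₀`). -/
theorem lft_HB {k : Type} [Field k] {r t : ℕ}
    (M : Matrix (Fin t) (Fin (t + 1)) (MvPolynomial (Fin (r + 1)) k))
    (hM : ∀ i j, (M i j).IsHomogeneous 1) (h : HB (M.map (rho k r))) : HB M := by
  have hX : (X 0 : MvPolynomial (Fin (r + 1)) k).IsHomogeneous 1 := isHomogeneous_X _ _
  -- the homogeneous case
  have key : ∀ n : ℕ, ∀ v : Fin (t + 1) → MvPolynomial (Fin (r + 1)) k,
      (∀ j, (v j).IsHomogeneous n) → ∑ j, v j * minor M j = 0 →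
      ∃ u : Fin t → MvPolynomial (Fin (r + 1)) k, ∀ j, v j = ∑ i, u i * M i j := by
    intro n
    induction n with
    | zero =>
      intro v hv hs
      obtain ⟨u, v', huv⟩ := decomp M h v (by
        have h1 := congrArg (rho k r) hs
        rw [map_sum, map_zero] at h1
        simpa only [map_mul] using h1)
      refine ⟨0, fun j => ?_⟩
      have h1 : homogeneousComponent 0 (v j) = v j := by
        rw [homogeneousComponent_of_mem (hv j), if_pos rfl]
      rw [← h1, huv j, map_add, map_sum]
      rw [Finset.sum_eq_zero (fun i _ => hc_mul_low (hM i j) (u i) Nat.zero_lt_one), mul_comm,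
        hc_mul_low hX _ Nat.zero_lt_one]
      simp
    | succ n ih =>
      intro v hv hs
      obtain ⟨u, v', huv⟩ := decomp M h v (by
        have h1 := congrArg (rho k r) hs
        rw [map_sum, map_zero] at h1
        simpa only [map_mul] using h1)
      have h1 : ∀ j, v j = ∑ i, homogeneousComponent n (u i) * M i j +
          X 0 * homogeneousComponent n (v' j) := by
        intro j
        have h2 : homogeneousComponent (n + 1) (v j) = v j := by
          rw [homogeneousComponent_of_mem (hv j), if_pos rfl]
        rw [← h2, huv j, map_add, map_sum, mul_comm (X 0) (v' j), hc_mul hX, mul_comm _ (X 0)]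
        congr 1
        exact Finset.sum_congr rfl fun i _ => hc_mul (hM i j) _ _
      have h3 : ∑ j, homogeneousComponent n (v' j) * minor M j = 0 := by
        have h4 : X 0 * ∑ j, homogeneousComponent n (v' j) * minor M j = 0 := by
          rw [← hs]
          symm
          calc ∑ j, v j * minor M j = ∑ j, ((∑ i, homogeneousComponent n (u i) * M i j) * minor M j +
                X 0 * (homogeneousComponent n (v' j) * minor M j)) :=
                Finset.sum_congr rfl fun j _ => by
                  conv_lhs => rw [h1 j]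
                  ring
            _ = _ := by
                rw [Finset.sum_add_distrib, sum_rows_minor, zero_add, ← Finset.mul_sum]
        exact (mul_eq_zero.1 h4).resolve_left (X_ne_zero 0)
      obtain ⟨u', hu'⟩ := ih (fun j => homogeneousComponent n (v' j))
        (fun j => homogeneousComponent_isHomogeneous _ _) h3
      refine ⟨fun i => homogeneousComponent n (u i) + X 0 * u' i, fun j => ?_⟩
      rw [h1 j, hu' j, Finset.mul_sum, ← Finset.sum_add_distrib]
      exact Finset.sum_congr rfl fun i _ => by ring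
  intro v hv
  obtain ⟨N, hN⟩ := exists_bound v
  have h1 : ∀ n, ∃ u : Fin t → MvPolynomial (Fin (r + 1)) k,
      ∀ j, homogeneousComponent n (v j) = ∑ i, u i * M i j := by
    intro n
    apply key n _ (fun j => homogeneousComponent_isHomogeneous _ _)
    have h2 := congrArg (homogeneousComponent (n + t)) hv
    rw [map_sum, map_zero] at h2
    rw [← h2]
    exact Finset.sum_congr rfl fun j _ => (hc_mul (minor_isHomogeneous M hM j) _ _).symm
  choose u hu using h1
  refine ⟨fun i => ∑ n ∈ Finset.range N, u n i, fun j => ?_⟩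
  conv_lhs => rw [← sum_hc (v j) (hN j)]
  simp_rw [Finset.sum_mul]
  rw [Finset.sum_comm]
  exact Finset.sum_congr rfl fun n _ => hu n j

/-- Proof: as for `lft_HB`: if `M w = 0` with `w` homogeneous of degree `n` then
`rho w = h̄ * minor (M.map rho)`, so `w = h * minor M + x₀ w'` with `w'` homogeneous of degree `n - 1`
and `M w' = 0`. -/
theorem lft_CK {k : Type} [Field k] {r t : ℕ}
    (M : Matrix (Fin t) (Fin (t + 1)) (MvPolynomial (Fin (r + 1)) k))
    (hM : ∀ i j, (M i j).IsHomogeneous 1) (h : CK (M.map (rho k r))) : CK M := by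
  have hX : (X 0 : MvPolynomial (Fin (r + 1)) k).IsHomogeneous 1 := isHomogeneous_X _ _
  have hm := fun j => minor_isHomogeneous M hM j
  -- decomposition
  have dec : ∀ w : Fin (t + 1) → MvPolynomial (Fin (r + 1)) k, (∀ i, ∑ j, M i j * w j = 0) →
      ∃ (g : MvPolynomial (Fin (r + 1)) k) (w' : Fin (t + 1) → MvPolynomial (Fin (r + 1)) k),
        ∀ j, w j = g * minor M j + X 0 * w' j := by
    intro w hw
    obtain ⟨g, hg⟩ := h (fun j => rho k r (w j)) (fun i => by
      have h1 := congrArg (rho k r) (hw i)
      rw [map_sum, map_zero] at h1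
      simpa only [map_mul, Matrix.map_apply] using h1)
    have h1 : ∀ j, ∃ q, w j - rename Fin.succ g * minor M j = X 0 * q := by
      intro j
      rw [← rho_ker, map_sub, hg j, map_mul, rho_surj, rho_minor, sub_self]
    choose q hq using h1
    exact ⟨rename Fin.succ g, q, fun j => by rw [← hq j]; ring⟩
  -- a product with the minors in degree `n`
  have hg : ∀ (n : ℕ) (g : MvPolynomial (Fin (r + 1)) k), ∃ g' : MvPolynomial (Fin (r + 1)) k,
      ∀ j, homogeneousComponent n (g * minor M j) = g' * minor M j := by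
    intro n g
    by_cases hn : t ≤ n
    · obtain ⟨m, rfl⟩ := Nat.exists_eq_add_of_le' hn
      exact ⟨homogeneousComponent m g, fun j => hc_mul (hm j) _ _⟩
    · exact ⟨0, fun j => by rw [hc_mul_low (hm j) _ (not_le.1 hn), zero_mul]⟩
  have key : ∀ n : ℕ, ∀ w : Fin (t + 1) → MvPolynomial (Fin (r + 1)) k,
      (∀ j, (w j).IsHomogeneous n) → (∀ i, ∑ j, M i j * w j = 0) →
      ∃ g : MvPolynomial (Fin (r + 1)) k, ∀ j, w j = g * minor M j := by
    intro n
    induction n with
    | zero =>
      intro w hw hs
      obtain ⟨g, w', hgw⟩ := dec w hs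
      obtain ⟨g', hg'⟩ := hg 0 g
      refine ⟨g', fun j => ?_⟩
      have h1 : homogeneousComponent 0 (w j) = w j := by
        rw [homogeneousComponent_of_mem (hw j), if_pos rfl]
      rw [← h1, hgw j, map_add, hg' j, mul_comm (X 0), hc_mul_low hX _ Nat.zero_lt_one, add_zero]
    | succ n ih =>
      intro w hw hs
      obtain ⟨g, w', hgw⟩ := dec w hs
      obtain ⟨g', hg'⟩ := hg (n + 1) g
      have h1 : ∀ j, w j = g' * minor M j + X 0 * homogeneousComponent n (w' j) := by
        intro j
        have h2 : homogeneousComponent (n + 1) (w j) = w j := by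
          rw [homogeneousComponent_of_mem (hw j), if_pos rfl]
        rw [← h2, hgw j, map_add, hg' j, mul_comm (X 0) (w' j), hc_mul hX, mul_comm _ (X 0)]
      have h3 : ∀ i, ∑ j, M i j * homogeneousComponent n (w' j) = 0 := by
        intro i
        have h4 : X 0 * ∑ j, M i j * homogeneousComponent n (w' j) = 0 := by
          have h5 : ∑ j, M i j * w j = g' * ∑ j, M i j * minor M j +
              X 0 * ∑ j, M i j * homogeneousComponent n (w' j) := by
            rw [Finset.mul_sum, Finset.mul_sum, ← Finset.sum_add_distrib]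
            exact Finset.sum_congr rfl fun j _ => by
              conv_lhs => rw [h1 j]
              ring
          rw [hs i, row_minor, mul_zero, zero_add] at h5
          exact h5.symm
        exact (mul_eq_zero.1 h4).resolve_left (X_ne_zero 0)
      obtain ⟨g'', hg''⟩ := ih (fun j => homogeneousComponent n (w' j))
        (fun j => homogeneousComponent_isHomogeneous _ _) h3
      refine ⟨g' + X 0 * g'', fun j => ?_⟩
      rw [h1 j, hg'' j]
      ring
  intro w hw
  obtain ⟨N, hN⟩ := exists_bound w
  have h1 : ∀ n, ∃ g : MvPolynomial (Fin (r + 1)) k,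
      ∀ j, homogeneousComponent n (w j) = g * minor M j := by
    intro n
    apply key n _ (fun j => homogeneousComponent_isHomogeneous _ _)
    intro i
    have h2 := congrArg (homogeneousComponent (n + 1)) (hw i)
    rw [map_sum, map_zero] at h2
    rw [← h2]
    exact Finset.sum_congr rfl fun j _ => by
      rw [mul_comm (M i j) (w j), hc_mul (hM i j), mul_comm]
  choose g hg using h1
  refine ⟨∑ n ∈ Finset.range N, g n, fun j => ?_⟩
  conv_lhs => rw [← sum_hc (w j) (hN j)]
  rw [Finset.sum_mul]
  exact Finset.sum_congr rfl fun n _ => hg n j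

end Pool.Agent.H56.DC
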