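import Pool.Agent.H56.DC.RNK

/-!
Part SMT. The count which gives the smoothness of the curve.
-/

set_option autoImplicit false

namespace Pool.Agent.H56.DC

open MvPolynomial Matrix

theorem smt_co2 {t : ℕ} (a : Fin 2 → Fin t → Fin (t + 1) → ℂ) (u : Fin t → ℂ)
    (v : Fin (t + 1) → ℂ) : u ⬝ᵥ (co a 2 *ᵥ v) = ∑ i, u i * v i.castSucc := by
  have e2 : co a 2 = J0 ℂ t := rfl
  rw [e2]
  simp only [dotProduct, Matrix.mulVec, J0]
  refine Finset.sum_congr rfl fun i _ => ?_
  congr 1
  rw [Finset.sum_eq_single i.castSucc]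
  · simp
  · intro b _ hb
    rw [if_neg hb, zero_mul]
  · intro h
    exact absurd (Finset.mem_univ _) h

theorem smt_co3 {t : ℕ} (a : Fin 2 → Fin t → Fin (t + 1) → ℂ) (u : Fin t → ℂ)
    (v : Fin (t + 1) → ℂ) : u ⬝ᵥ (co a 3 *ᵥ v) = ∑ i, u i * v i.succ := by
  have e3 : co a 3 = J1 ℂ t := rfl
  rw [e3]
  simp only [dotProduct, Matrix.mulVec, J1]
  refine Finset.sum_congr rfl fun i _ => ?_
  congr 1
  rw [Finset.sum_eq_single i.succ]
  · simp
  · intro b _ hb
    rw [if_neg hb, zero_mul]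
  · intro h
    exact absurd (Finset.mem_univ _) h

theorem smt_coe {t : ℕ} (a : Fin 2 → Fin t → Fin (t + 1) → ℂ) (e : Fin 2) (u : Fin t → ℂ)
    (v : Fin (t + 1) → ℂ) : u ⬝ᵥ (co a (![0, 1] e) *ᵥ v) =
      ∑ p : Fin t × Fin (t + 1), u p.1 * a e p.1 p.2 * v p.2 := by
  have e1 : co a (![0, 1] e) = a e := by
    obtain rfl | rfl : e = 0 ∨ e = 1 := by omega
    · rfl
    · rfl
  rw [e1, Fintype.sum_prod_type]
  simp only [dotProduct, Matrix.mulVec]
  refine Finset.sum_congr rfl fun i _ => ?_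
  rw [Finset.mul_sum]
  refine Finset.sum_congr rfl fun j _ => ?_
  ring

/-- `v i0.succ` -/
theorem smt_succ {t : ℕ} (K : IntermediateField ℚ ℂ) (u : Fin t → ℂ) (v : Fin (t + 1) → ℂ)
    (i0 : Fin t) (h1 : u i0 = 1) (hlt : ∀ i, i < i0 → u i = 0) (h : ∑ i, u i * v i.succ = 0)
    (hK : ∀ i, i0 < i → u i * v i.succ ∈ K) : v i0.succ ∈ K := by
  have := rnk_solve K (fun i => u i * v i.succ) i0 h (by
    intro i hi
    rcases lt_or_gt_of_ne hi with h2 | h2
    · simp only [hlt i h2, zero_mul]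
      exact zero_mem _
    · exact hK i h2)
  simpa [h1] using this

theorem smt_castSucc {t : ℕ} (K : IntermediateField ℚ ℂ) (u : Fin t → ℂ) (v : Fin (t + 1) → ℂ)
    (i0 : Fin t) (h1 : u i0 = 1) (hlt : ∀ i, i < i0 → u i = 0) (h : ∑ i, u i * v i.castSucc = 0)
    (hK : ∀ i, i0 < i → u i * v i.castSucc ∈ K) : v i0.castSucc ∈ K := by
  have := rnk_solve K (fun i => u i * v i.castSucc) i0 h (by
    intro i hi
    rcases lt_or_gt_of_ne hi with h2 | h2
    · simp only [hlt i h2, zero_mul]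
      exact zero_mem _
    · exact hK i h2)
  simpa [h1] using this

/-- a nonzero coordinate of `v` different from `i0.castSucc`, `i0.succ` -/
theorem smt_exists {t : ℕ} (u : Fin t → ℂ) (v : Fin (t + 1) → ℂ) (hv0 : v ≠ 0)
    (i0 : Fin t) (h1 : u i0 = 1) (hlt : ∀ i, i < i0 → u i = 0) (h2 : ∑ i, u i * v i.castSucc = 0)
    (h3 : ∑ i, u i * v i.succ = 0) :
    ∃ j0, j0 ≠ i0.castSucc ∧ j0 ≠ i0.succ ∧ v j0 ≠ 0 := by
  by_contra hcon
  push Not at hcon
  have e3 : v i0.succ = 0 := by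
    have : ∑ i, u i * v i.succ = u i0 * v i0.succ := by
      refine Finset.sum_eq_single i0 (fun i _ hi => ?_) (fun hh => absurd (Finset.mem_univ _) hh)
      rcases lt_or_gt_of_ne hi with h | h
      · rw [hlt i h, zero_mul]
      · rw [hcon i.succ (fun hh => ?_) (fun hh => ?_), mul_zero]
        · have h5 := congrArg Fin.val hh
          have h6 : (i0 : ℕ) < i := h
          simp only [Fin.val_succ, Fin.val_castSucc] at h5
          omega
        · have h5 := congrArg Fin.val hh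
          have h6 : (i0 : ℕ) < i := h
          simp only [Fin.val_succ] at h5
          omega
    rw [h3, h1, one_mul] at this
    exact this.symm
  have e2 : v i0.castSucc = 0 := by
    have : ∑ i, u i * v i.castSucc = u i0 * v i0.castSucc := by
      refine Finset.sum_eq_single i0 (fun i _ hi => ?_) (fun hh => absurd (Finset.mem_univ _) hh)
      rcases lt_or_gt_of_ne hi with h | h
      · rw [hlt i h, zero_mul]
      · by_cases h7 : i.castSucc = i0.succ
        · rw [h7, e3, mul_zero]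
        · rw [hcon i.castSucc (fun hh => ?_) h7, mul_zero]
          have h5 := congrArg Fin.val hh
          have h6 : (i0 : ℕ) < i := h
          simp only [Fin.val_castSucc] at h5
          omega
    rw [h2, h1, one_mul] at this
    exact this.symm
  apply hv0
  funext j
  by_cases h4 : j = i0.castSucc
  · rw [h4, e2]
    rfl
  · by_cases h5 : j = i0.succ
    · rw [h5, e3]
      rfl
    · exact hcon j h4 h5

/-- the first index with `u i ≠ 0` -/
theorem smt_first {t : ℕ} (u : Fin t → ℂ) (hu0 : u ≠ 0) :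
    ∃ i0, u i0 ≠ 0 ∧ ∀ i, i < i0 → u i = 0 := by
  classical
  obtain ⟨i1, hi1⟩ := Function.ne_iff.mp hu0
  have hne : (Finset.univ.filter fun i : Fin t => u i ≠ 0).Nonempty :=
    ⟨i1, Finset.mem_filter.mpr ⟨Finset.mem_univ _, hi1⟩⟩
  refine ⟨(Finset.univ.filter fun i : Fin t => u i ≠ 0).min' hne, ?_, ?_⟩
  · exact (Finset.mem_filter.mp (Finset.min'_mem _ hne)).2
  · intro i hi
    by_contra hcon
    exact absurd (Finset.min'_le _ i (Finset.mem_filter.mpr ⟨Finset.mem_univ _, hcon⟩))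
      (not_le.mpr hi)

/-- the normalized version -/
theorem smt_main {t : ℕ} (a : Fin 2 → Fin t → Fin (t + 1) → ℂ) (ha : Generic a)
    (x : Fin 4 → ℂ) (e : Fin 2) (hxe : x (![0, 1] e) = 1) (u : Fin t → ℂ) (v : Fin (t + 1) → ℂ)
    (i0 : Fin t) (j0 : Fin (t + 1)) (hui : u i0 = 1) (hlt : ∀ i, i < i0 → u i = 0)
    (hj1 : j0 ≠ i0.castSucc) (hj2 : j0 ≠ i0.succ) (hvj : v j0 = 1)
    (hu : u ᵥ* Nx a x = 0) (hv : Nx a x *ᵥ v = 0) (h2 : ∑ i, u i * v i.castSucc = 0)
    (h3 : ∑ i, u i * v i.succ = 0)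
    (h4 : ∑ p : Fin t × Fin (t + 1), u p.1 * a (1 - e) p.1 p.2 * v p.2 = 0) : False := by
  classical
  set I : Finset (Fin t) := Finset.univ.erase i0 with hI
  set J : Finset (Fin (t + 1)) := Finset.univ.erase j0 with hJ
  set J' : Finset (Fin (t + 1)) := (J.erase i0.castSucc).erase i0.succ with hJ'
  have hcs : i0.succ ≠ i0.castSucc := by
    intro h
    have := congrArg Fin.val h
    simp at this
  have hIcard : I.card = t - 1 := by
    rw [hI, Finset.card_erase_of_mem (Finset.mem_univ _), Finset.card_univ, Fintype.card_fin]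
  have hJcard : J.card = t := by
    rw [hJ, Finset.card_erase_of_mem (Finset.mem_univ _), Finset.card_univ, Fintype.card_fin]
    omega
  have hJm1 : i0.castSucc ∈ J := Finset.mem_erase.mpr ⟨hj1.symm, Finset.mem_univ _⟩
  have hJm2 : i0.succ ∈ J.erase i0.castSucc :=
    Finset.mem_erase.mpr ⟨hcs, Finset.mem_erase.mpr ⟨hj2.symm, Finset.mem_univ _⟩⟩
  have hJcard' : J'.card = t - 2 := by
    rw [hJ', Finset.card_erase_of_mem hJm2, Finset.card_erase_of_mem hJm1, hJcard]
    omega
  have ht : 2 ≤ t := by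
    have h5 := i0.isLt
    have h6 : (j0 : ℕ) ≠ i0 := fun h => hj1 (Fin.ext (by simpa using h))
    have h7 : (j0 : ℕ) ≠ i0 + 1 := fun h => hj2 (Fin.ext (by simpa using h))
    have h8 := j0.isLt
    omega
  set S1 : Finset ℂ := (Finset.univ.erase (![0, 1] e)).image x with hS1
  set S2 : Finset ℂ := ((Finset.univ : Finset (Fin t × Fin (t + 1))).erase (i0, j0)).image
    (fun p => a (1 - e) p.1 p.2) with hS2
  set S3 : Finset ℂ := (I ×ˢ J).image (fun p => Nx a x p.1 p.2) with hS3
  set S4 : Finset ℂ := I.image u with hS4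
  set S5 : Finset ℂ := J'.image v with hS5
  set S : Finset ℂ := S1 ∪ (S2 ∪ (S3 ∪ (S4 ∪ S5))) with hS
  have hc1 : S1.card ≤ 3 := by
    refine Finset.card_image_le.trans ?_
    rw [Finset.card_erase_of_mem (Finset.mem_univ _), Finset.card_univ, Fintype.card_fin]
  have hc2 : S2.card ≤ t * (t + 1) - 1 := by
    refine Finset.card_image_le.trans ?_
    rw [Finset.card_erase_of_mem (Finset.mem_univ _), Finset.card_univ, Fintype.card_prod,
      Fintype.card_fin, Fintype.card_fin]
  have hc3 : S3.card ≤ (t - 1) * t := by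
    refine Finset.card_image_le.trans ?_
    rw [Finset.card_product, hIcard, hJcard]
  have hc4 : S4.card ≤ t - 1 := Finset.card_image_le.trans hIcard.le
  have hc5 : S5.card ≤ t - 2 := Finset.card_image_le.trans hJcard'.le
  have hc : S.card ≤ 3 + ((t * (t + 1) - 1) + ((t - 1) * t + ((t - 1) + (t - 2)))) :=
    (Finset.card_union_le _ _).trans (Nat.add_le_add hc1 ((Finset.card_union_le _ _).trans
      (Nat.add_le_add hc2 ((Finset.card_union_le _ _).trans (Nat.add_le_add hc3
        ((Finset.card_union_le _ _).trans (Nat.add_le_add hc4 hc5)))))))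
  set K := IntermediateField.adjoin ℚ (S : Set ℂ) with hK
  have hmem : ∀ z ∈ S, z ∈ K := fun z hz => IntermediateField.subset_adjoin ℚ _ hz
  have m1 : ∀ l, l ≠ ![0, 1] e → x l ∈ K := fun l hl => hmem _ (Finset.mem_union_left _
    (Finset.mem_image_of_mem _ (Finset.mem_erase.mpr ⟨hl, Finset.mem_univ _⟩)))
  have m2 : ∀ p : Fin t × Fin (t + 1), p ≠ (i0, j0) → a (1 - e) p.1 p.2 ∈ K := fun p hp =>
    hmem _ (Finset.mem_union_right _ (Finset.mem_union_left _ (Finset.mem_image.mpr
      ⟨p, Finset.mem_erase.mpr ⟨hp, Finset.mem_univ _⟩, rfl⟩)))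
  have m3 : ∀ i j, i ≠ i0 → j ≠ j0 → Nx a x i j ∈ K := fun i j hi hj => hmem _
    (Finset.mem_union_right _ (Finset.mem_union_right _ (Finset.mem_union_left _
      (Finset.mem_image.mpr ⟨(i, j), Finset.mem_product.mpr
        ⟨Finset.mem_erase.mpr ⟨hi, Finset.mem_univ _⟩, Finset.mem_erase.mpr
          ⟨hj, Finset.mem_univ _⟩⟩, rfl⟩))))
  have m4 : ∀ i, u i ∈ K := by
    intro i
    by_cases hi : i = i0
    · rw [hi, hui]
      exact one_mem _
    · exact hmem _ (Finset.mem_union_right _ (Finset.mem_union_right _ (Finset.mem_union_right _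
        (Finset.mem_union_left _ (Finset.mem_image_of_mem _
          (Finset.mem_erase.mpr ⟨hi, Finset.mem_univ _⟩))))))
  have m5 : ∀ j, j ≠ i0.castSucc → j ≠ i0.succ → v j ∈ K := by
    intro j hj hj'
    by_cases hj0 : j = j0
    · rw [hj0, hvj]
      exact one_mem _
    · exact hmem _ (Finset.mem_union_right _ (Finset.mem_union_right _ (Finset.mem_union_right _
        (Finset.mem_union_right _ (Finset.mem_image_of_mem _ (Finset.mem_erase.mpr
          ⟨hj', Finset.mem_erase.mpr ⟨hj, Finset.mem_erase.mpr ⟨hj0, Finset.mem_univ _⟩⟩⟩))))))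
  have m6 : v i0.succ ∈ K := by
    refine smt_succ K u v i0 hui hlt h3 fun i hi => mul_mem (m4 i) (m5 _ ?_ ?_)
    · intro hh
      have h5 := congrArg Fin.val hh
      have h6 : (i0 : ℕ) < i := hi
      simp only [Fin.val_succ, Fin.val_castSucc] at h5
      omega
    · intro hh
      have h5 := congrArg Fin.val hh
      have h6 : (i0 : ℕ) < i := hi
      simp only [Fin.val_succ] at h5
      omega
  have m7 : v i0.castSucc ∈ K := by
    refine smt_castSucc K u v i0 hui hlt h2 fun i hi => mul_mem (m4 i) ?_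
    by_cases h7 : i.castSucc = i0.succ
    · rw [h7]
      exact m6
    · refine m5 _ ?_ h7
      intro hh
      have h5 := congrArg Fin.val hh
      have h6 : (i0 : ℕ) < i := hi
      simp only [Fin.val_castSucc] at h5
      omega
  have m8 : ∀ j, v j ∈ K := by
    intro j
    by_cases h5 : j = i0.castSucc
    · rw [h5]
      exact m7
    · by_cases h6 : j = i0.succ
      · rw [h6]
        exact m6
      · exact m5 j h5 h6
  have m9 : ∀ i j, a (1 - e) i j ∈ K := by
    intro i j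
    by_cases hp : (i, j) = (i0, j0)
    · have h5 := rnk_solve K (fun p : Fin t × Fin (t + 1) => u p.1 * a (1 - e) p.1 p.2 * v p.2)
        (i0, j0) h4 (fun p hp => mul_mem (mul_mem (m4 _) (m2 p hp)) (m8 _))
      simp only [hui, hvj, one_mul, mul_one] at h5
      obtain ⟨rfl, rfl⟩ := Prod.mk.inj hp
      exact h5
    · exact m2 (i, j) hp
  have m10 : ∀ i, i ≠ i0 → Nx a x i j0 ∈ K := by
    intro i hi
    have h5 := rnk_solve K (fun j => Nx a x i j * v j) j0 (by
      have := congrFun hv i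
      simpa [Matrix.mulVec, dotProduct] using this) (fun j hj => mul_mem (m3 i j hi hj) (m8 j))
    simpa [hvj] using h5
  have m11 : ∀ i j, i ≠ i0 → Nx a x i j ∈ K := by
    intro i j hi
    by_cases hj : j = j0
    · rw [hj]
      exact m10 i hi
    · exact m3 i j hi hj
  have m12 : ∀ j, Nx a x i0 j ∈ K := by
    intro j
    have h5 := rnk_solve K (fun i => u i * Nx a x i j) i0 (by
      have := congrFun hu j
      simpa [Matrix.vecMul, dotProduct] using this) (fun i hi => mul_mem (m4 i) (m11 i j hi))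
    simpa [hui] using h5
  have m13 : ∀ i j, Nx a x i j ∈ K := by
    intro i j
    by_cases hi : i = i0
    · rw [hi]
      exact m12 j
    · exact m11 i j hi
  have hfin := generic_le a ha S (rnk_all K a x e hxe m1 m9 m13)
  have h5 := hfin.trans hc
  obtain ⟨s, rfl⟩ : ∃ s, t = s + 2 := ⟨t - 2, by omega⟩
  have e1 : s + 2 - 1 = s + 1 := by omega
  have e2 : s + 2 - 2 = s := by omega
  have e3 : (s + 2) * (s + 2 + 1) - 1 = s * s + 5 * s + 5 := by
    have : (s + 2) * (s + 2 + 1) = s * s + 5 * s + 6 := by ring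
    omega
  rw [e1, e2, e3] at h5
  nlinarith

/-- Proof. By `nx_row` there is `e ∈ {0, 1}` with `x e ≠ 0`, and after scaling `x` (`nx_smul`) we may
assume `x e = 1`. Let `i0` be the first index with `u i0 ≠ 0`; scale `u` so that `u i0 = 1`. The
conditions for `l = 2, 3` are (1) `∑ i, u i * v i.castSucc = 0` and (2) `∑ i, u i * v i.succ = 0`.
(2) expresses `v i0.succ` by the `u i` and the `v j` with `j > i0 + 1`, and (1) expresses
`v i0.castSucc` by the `u i` and the `v j` with `j > i0`. So `v` lies in the field generated by the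
`u i`, `i ≠ i0` (`t - 1` elements), and the `v j`, `j ≠ i0, i0 + 1` (`t - 1` elements); as `v ≠ 0`, one
of the latter, `v j0`, is not zero; scale `v` so that `v j0 = 1`. This leaves `t - 2` elements. With
`B = a (1 - e)` the condition `u ⬝ B v = 0` (`l = 1 - e`) expresses `B i0 j0` by the other
`t (t + 1) - 1` entries of `B` and `u`, `v`. Let `N = Nx a x`. `N v = 0` expresses `N i j0` by the
`N i j`, `j ≠ j0`, and `v`; `u N = 0` expresses `N i0 j` by the `N i j`, `i ≠ i0` and `u`. So all of `N`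
is expressed by the `(t - 1) t` entries `N i j`, `i ≠ i0`, `j ≠ j0`, and then `a e` is expressed by `N`,
`x`, `B` (`nx_solve0`, `nx_solve1`). Total with the `3` other coordinates of `x`:
`3 + (t-1) + (t-2) + (t(t+1) - 1) + t(t-1) = 2t(t+1) - 1 < 2t(t+1)`, contradicting `generic_le`. -/
theorem nx_smooth {t : ℕ} (a : Fin 2 → Fin t → Fin (t + 1) → ℂ) (ha : Generic a)
    (x : Fin 4 → ℂ) (hx : x ≠ 0) (u : Fin t → ℂ) (v : Fin (t + 1) → ℂ) (hu0 : u ≠ 0) (hv0 : v ≠ 0)
    (hu : u ᵥ* Nx a x = 0) (hv : Nx a x *ᵥ v = 0) (h : ∀ l, u ⬝ᵥ (co a l *ᵥ v) = 0) : False := by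
  obtain ⟨e, he⟩ := rnk_exists_e a x hx u hu hu0
  obtain ⟨i0, hi0, hlt⟩ := smt_first u hu0
  have h2 := h 2
  have h3 := h 3
  have h4 := h (![0, 1] (1 - e))
  rw [smt_co2] at h2
  rw [smt_co3] at h3
  rw [smt_coe] at h4
  have k2 : ∑ i, ((u i0)⁻¹ • u) i * v i.castSucc = 0 := by
    simp only [Pi.smul_apply, smul_eq_mul, mul_assoc]
    rw [← Finset.mul_sum, h2, mul_zero]
  have k3 : ∑ i, ((u i0)⁻¹ • u) i * v i.succ = 0 := by
    simp only [Pi.smul_apply, smul_eq_mul, mul_assoc]
    rw [← Finset.mul_sum, h3, mul_zero]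
  have kui : ((u i0)⁻¹ • u) i0 = 1 := by
    rw [Pi.smul_apply, smul_eq_mul, inv_mul_cancel₀ hi0]
  have klt : ∀ i, i < i0 → ((u i0)⁻¹ • u) i = 0 := by
    intro i hi
    rw [Pi.smul_apply, hlt i hi, smul_zero]
  obtain ⟨j0, hj1, hj2, hvj⟩ := smt_exists _ v hv0 i0 kui klt k2 k3
  refine smt_main a ha ((x (![0, 1] e))⁻¹ • x) e ?_ ((u i0)⁻¹ • u) ((v j0)⁻¹ • v) i0 j0 kui klt hj1
    hj2 ?_ ?_ ?_ ?_ ?_ ?_
  · rw [Pi.smul_apply, smul_eq_mul, inv_mul_cancel₀ he]
  · rw [Pi.smul_apply, smul_eq_mul, inv_mul_cancel₀ hvj]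
  · rw [nx_smul, Matrix.vecMul_smul, Matrix.smul_vecMul, hu, smul_zero, smul_zero]
  · rw [nx_smul, Matrix.mulVec_smul, Matrix.smul_mulVec, hv, smul_zero, smul_zero]
  · have : ∀ i : Fin t, ((u i0)⁻¹ • u) i * ((v j0)⁻¹ • v) i.castSucc =
        (v j0)⁻¹ * (((u i0)⁻¹ • u) i * v i.castSucc) := by
      intro i
      simp only [Pi.smul_apply, smul_eq_mul]
      ring
    rw [Finset.sum_congr rfl fun i _ => this i, ← Finset.mul_sum, k2, mul_zero]
  · have : ∀ i : Fin t, ((u i0)⁻¹ • u) i * ((v j0)⁻¹ • v) i.succ =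
        (v j0)⁻¹ * (((u i0)⁻¹ • u) i * v i.succ) := by
      intro i
      simp only [Pi.smul_apply, smul_eq_mul]
      ring
    rw [Finset.sum_congr rfl fun i _ => this i, ← Finset.mul_sum, k3, mul_zero]
  · have : ∀ p : Fin t × Fin (t + 1), ((u i0)⁻¹ • u) p.1 * a (1 - e) p.1 p.2 *
        ((v j0)⁻¹ • v) p.2 = ((u i0)⁻¹ * (v j0)⁻¹) * (u p.1 * a (1 - e) p.1 p.2 * v p.2) := by
      intro p
      simp only [Pi.smul_apply, smul_eq_mul]
      ring
    rw [Finset.sum_congr rfl fun p _ => this p, ← Finset.mul_sum, h4, mul_zero]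

end Pool.Agent.H56.DC
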