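import Pool.Agent.H56.DC.MTX
import Pool.Agent.H56.DC.SMT
import Pool.Agent.H56.DC.LCA
import Pool.Agent.H56.DC.LCB
import Pool.Agent.H56.DC.LCC

/-!
Part LOC. The ideal `DI (Mat a)` is locally generated by two functions with independent gradients.
-/

set_option autoImplicit false

namespace Pool.Agent.H56.DC

open MvPolynomial Matrix

theorem loc_grad {t : ℕ} (a : Fin 2 → Fin t → Fin (t + 1) → ℂ) (x : Fin 4 → ℂ)
    (j : Fin (t + 1)) (u : Fin t → ℂ) (v : Fin (t + 1) → ℂ)
    (h : ∀ E : Matrix (Fin t) (Fin (t + 1)) ℂ,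
        ∑ i, ∑ b, ((Nx a x).submatrix id j.succAbove).adjugate b i * E i (j.succAbove b) =
          u ⬝ᵥ (E *ᵥ v)) (l : Fin 4) :
    grad (minor (Mat a) j) x l = (-1) ^ (j : ℕ) * (u ⬝ᵥ (co a l *ᵥ v)) := by
  unfold grad minor
  have hc : ((-1 : MvPolynomial (Fin 4) ℂ) ^ (j : ℕ)) = C ((-1) ^ (j : ℕ)) := by
    rw [map_pow, map_neg, map_one]
  rw [hc, pderiv_C_mul, map_mul, eval_C, pderiv_det, ← h, map_sum]
  congr 1
  apply Finset.sum_congr rfl
  intro i _
  rw [map_sum]
  apply Finset.sum_congr rfl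
  intro b _
  rw [map_mul]
  congr 1
  · have h1 := congrFun (congrFun (RingHom.map_adjugate (eval x)
      ((Mat a).submatrix id j.succAbove)) b) i
    rw [RingHom.mapMatrix_apply, RingHom.mapMatrix_apply, Matrix.map_apply] at h1
    rw [h1, ← eval_mat a x]
    rfl
  · rw [Matrix.submatrix_apply, pderiv_mat, eval_C]
    rfl

/-- Proof: by `eval_mat` the maximal minors of `N = Nx a x` vanish; use `nx_corank`, `exists_adj_ne`,
`adj_structure` to get `i0, j0, j1', u, v0, v1`. Let `δ` be the entry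
`((Mat a).submatrix id j0.succAbove).adjugate j1' i0`, and `p, q` the minors of `Mat a` at `j0` and at
`j1 = j0.succAbove j1'`; use `delta_minor`. By `pderiv_det`, `pderiv_mat` and `adj_structure`,
`∂_l (minor j0) (x) = ± u ⬝ᵥ (co a l *ᵥ v0)` and the same for `j1`, `v1`. If
`α grad p + β grad q = 0` then `v = ± α v0 ± β v1` satisfies the hypotheses of `nx_smooth` unless
`v = 0`, and `v0, v1` are linearly independent. -/
theorem mat_loc {t : ℕ} (ht : 1 ≤ t) (a : Fin 2 → Fin t → Fin (t + 1) → ℂ) (ha : Generic a)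
    (x : Fin 4 → ℂ) (hx : x ≠ 0) (hV : ∀ F ∈ DI (Mat a), eval x F = 0) :
    ∃ p ∈ DI (Mat a), ∃ q ∈ DI (Mat a), ∃ δ : MvPolynomial (Fin 4) ℂ, eval x δ ≠ 0 ∧
      (∀ F ∈ DI (Mat a), δ * F ∈ Ideal.span {p, q}) ∧
      LinearIndependent ℂ ![grad p x, grad q x] := by
  have hN : (Mat a).map (eval x) = Nx a x := eval_mat a x
  have hmem : ∀ j, minor (Mat a) j ∈ DI (Mat a) := fun j => Ideal.subset_span ⟨j, rfl⟩
  have h1 : ∀ j : Fin (t + 1), ((Nx a x).submatrix id j.succAbove).det = 0 := by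
    intro j
    have h := hV _ (hmem j)
    rw [← minor_map (eval x) (Mat a) j, hN] at h
    unfold minor at h
    rcases mul_eq_zero.mp h with h2 | h2
    · exact absurd h2 (pow_ne_zero _ (by norm_num))
    · exact h2
  obtain ⟨i0, j0, j1', hne⟩ := exists_adj_ne (Nx a x) ht h1
    (fun u u' hu hu' => nx_corank a ha x hx u u' hu hu')
  obtain ⟨u, v0, v1, hu0, hu, hli, hv0, hv1, hE0, hE1⟩ := adj_structure (Nx a x) h1 i0 j0 j1' hne
  refine ⟨minor (Mat a) j0, hmem _, minor (Mat a) (j0.succAbove j1'), hmem _,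
    ((Mat a).submatrix id j0.succAbove).adjugate j1' i0, ?_, ?_, ?_⟩
  · have h2 := congrFun (congrFun (RingHom.map_adjugate (eval x)
      ((Mat a).submatrix id j0.succAbove)) j1') i0
    rw [RingHom.mapMatrix_apply, RingHom.mapMatrix_apply, Matrix.map_apply] at h2
    rw [h2, ← hN] at *
    exact hne
  · intro F hF
    refine Submodule.span_induction (p := fun F _ => _ * F ∈ _) ?_ ?_ ?_ ?_ hF
    · rintro _ ⟨j, rfl⟩
      exact delta_minor (Mat a) i0 j0 j1' j
    · rw [mul_zero]
      exact Ideal.zero_mem _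
    · intro F G _ _ h3 h4
      rw [mul_add]
      exact Ideal.add_mem _ h3 h4
    · intro r F _ h3
      rw [smul_eq_mul, mul_left_comm]
      exact Ideal.mul_mem_left _ _ h3
  · rw [LinearIndependent.pair_iff]
    intro α β hαβ
    set v : Fin (t + 1) → ℂ := (α * (-1) ^ (j0 : ℕ)) • v0 +
      (β * (-1) ^ ((j0.succAbove j1' : Fin (t + 1)) : ℕ)) • v1 with hv
    have hv00 : v = 0 := by
      by_contra hvne
      refine nx_smooth a ha x hx u v hu0 hvne hu ?_ ?_
      · rw [hv, Matrix.mulVec_add, Matrix.mulVec_smul, Matrix.mulVec_smul, hv0, hv1]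
        simp
      · intro l
        have h5 := congrFun hαβ l
        simp only [Pi.add_apply, Pi.smul_apply, smul_eq_mul, Pi.zero_apply] at h5
        rw [loc_grad a x j0 u v0 hE0 l, loc_grad a x _ u v1 hE1 l] at h5
        rw [hv, Matrix.mulVec_add, Matrix.mulVec_smul, Matrix.mulVec_smul, dotProduct_add,
          dotProduct_smul, dotProduct_smul, smul_eq_mul, smul_eq_mul]
        linear_combination h5
    have h6 := LinearIndependent.pair_iff.mp hli _ _ (hv ▸ hv00)
    constructor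
    · exact (mul_eq_zero.mp h6.1).resolve_right (pow_ne_zero _ (by norm_num))
    · exact (mul_eq_zero.mp h6.2).resolve_right (pow_ne_zero _ (by norm_num))

end Pool.Agent.H56.DC
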