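import Pool.Agent.H56.DC.BAS
import Pool.Agent.H56.DC.LFT

/-!
Part MTX. The matrix `Mat a` of the example over any field. Modulo `X 0` and then `X 0` it becomes
the matrix of part BAS; apply part LFT twice.
-/

set_option autoImplicit false

namespace Pool.Agent.H56.DC

open MvPolynomial

theorem mat_isHomogeneous {k : Type} [Field k] {t : ℕ} (a : Fin 2 → Fin t → Fin (t + 1) → k)
    (i : Fin t) (j : Fin (t + 1)) : (Mat a i j).IsHomogeneous 1 :=
  Lin_isHomogeneous _ i j

/-- the reduction of `Mat a` modulo `X 0` -/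
theorem mat_rho {k : Type} [Field k] {t : ℕ} (a : Fin 2 → Fin t → Fin (t + 1) → k) :
    (Mat a).map (rho k 3) = Lin ![a 1, J0 k t, J1 k t] := by
  unfold Mat
  rw [Lin_rho]
  congr 1

theorem lin3_rho {k : Type} [Field k] {t : ℕ} (b : Fin t → Fin (t + 1) → k) :
    (Lin ![b, J0 k t, J1 k t]).map (rho k 2) = Lin ![J0 k t, J1 k t] := by
  rw [Lin_rho]
  congr 1

theorem lin3_HB {k : Type} [Field k] {t : ℕ} (b : Fin t → Fin (t + 1) → k) :
    HB (Lin ![b, J0 k t, J1 k t]) := by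
  apply lft_HB _ (Lin_isHomogeneous _)
  rw [lin3_rho]
  exact bas_HB t

theorem lin3_CK {k : Type} [Field k] {t : ℕ} (b : Fin t → Fin (t + 1) → k) :
    CK (Lin ![b, J0 k t, J1 k t]) := by
  apply lft_CK _ (Lin_isHomogeneous _)
  rw [lin3_rho]
  exact bas_CK t

theorem mat_HB {k : Type} [Field k] {t : ℕ} (a : Fin 2 → Fin t → Fin (t + 1) → k) :
    HB (Mat a) := by
  apply lft_HB _ (mat_isHomogeneous a)
  rw [mat_rho]
  exact lin3_HB _

theorem mat_CK {k : Type} [Field k] {t : ℕ} (a : Fin 2 → Fin t → Fin (t + 1) → k) :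
    CK (Mat a) := by
  apply lft_CK _ (mat_isHomogeneous a)
  rw [mat_rho]
  exact lin3_CK _

theorem mat_R1 {k : Type} [Field k] {t : ℕ} (a : Fin 2 → Fin t → Fin (t + 1) → k) :
    R1 (DI (Mat a)) := by
  intro p hp
  refine lft_regular _ ?_ p hp
  rw [mat_rho]
  exact lin3_HB _

/-- `X 1 * p ∈ DI (Mat a) + (X 0)` means `rho (X 1) * rho p ∈ DI (Lin ![a 1, J0, J1])` by `lft_mem`,
and `rho (X 1) = X 0`; use `lft_regular` for the latter matrix. -/
theorem mat_R2 {k : Type} [Field k] {t : ℕ} (a : Fin 2 → Fin t → Fin (t + 1) → k) :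
    R2 (DI (Mat a)) := by
  intro p hp
  rw [lft_mem, mat_rho] at hp ⊢
  rw [map_mul] at hp
  have h2 : rho k 3 (X 1) = X 0 := rho_Xs (0 : Fin 3)
  rw [h2] at hp
  refine lft_regular _ ?_ _ hp
  rw [lin3_rho]
  exact bas_HB t

theorem mat_isHom {k : Type} [Field k] {t : ℕ} (a : Fin 2 → Fin t → Fin (t + 1) → k) :
    IsHom (DI (Mat a)) :=
  DI_isHom _ (mat_isHomogeneous a)

theorem mat_one {k : Type} [Field k] {t : ℕ} (ht : 1 ≤ t) (a : Fin 2 → Fin t → Fin (t + 1) → k) :
    (1 : MvPolynomial (Fin 4) k) ∉ DI (Mat a) := by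
  intro h
  exact one_ne_zero (DI_low _ (mat_isHomogeneous a) 0 (by omega) _ h (isHomogeneous_one _ _))

theorem mat_map {k l : Type} [Field k] [Field l] (f : k →+* l) {t : ℕ}
    (a : Fin 2 → Fin t → Fin (t + 1) → k) :
    (DI (Mat a)).map (MvPolynomial.map f) = DI (Mat (fun e i j => f (a e i j))) := by
  rw [DI_map]
  congr 1
  ext1 i j
  rw [Matrix.map_apply]
  unfold Mat Lin
  rw [map_sum, Fin.sum_univ_four, Fin.sum_univ_four]
  simp only [map_mul, map_C, map_X]
  have h0 : f (J0 k t i j) = J0 l t i j := by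
    unfold J0
    split_ifs
    · exact map_one f
    · exact map_zero f
  have h1 : f (J1 k t i j) = J1 l t i j := by
    unfold J1
    split_ifs
    · exact map_one f
    · exact map_zero f
  show C (f (a 0 i j)) * X 0 + C (f (a 1 i j)) * X 1 + C (f (J0 k t i j)) * X 2 +
    C (f (J1 k t i j)) * X 3 = C (f (a 0 i j)) * X 0 + C (f (a 1 i j)) * X 1 + C (J0 l t i j) * X 2 +
    C (J1 l t i j) * X 3
  rw [h0, h1]

/-- the vector of minors of `Mat a` is not zero: reduce to part BAS (`bas_minor`) -/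
theorem mat_minor_ne {k : Type} [Field k] {t : ℕ} (a : Fin 2 → Fin t → Fin (t + 1) → k) :
    ∃ j, minor (Mat a) j ≠ 0 := by
  refine ⟨Fin.last t, fun h => ?_⟩
  have h1 := rho_minor (Mat a) (Fin.last t)
  rw [h, map_zero, mat_rho] at h1
  have h2 := rho_minor (Lin ![a 1, J0 k t, J1 k t]) (Fin.last t)
  rw [h1, map_zero, lin3_rho, bas_last] at h2
  exact mul_ne_zero (pow_ne_zero _ (neg_ne_zero.2 one_ne_zero)) (pow_ne_zero _ (X_ne_zero 0)) h2

end Pool.Agent.H56.DC
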