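import Pool.Agent.H56.DC.HFN
import Pool.Agent.H56.DC.LOC
import Pool.Agent.H56.DC.DOM
import Pool.Agent.H56.DC.CNN
import Pool.Agent.H56.DC.FDC
import Pool.Agent.H56.DC.FDF

/-!
Assembly.
-/

set_option autoImplicit false

namespace Pool.Agent.H56.DC

open MvPolynomial

theorem mat_locDim {t : ℕ} (a : Fin 2 → Fin t → Fin (t + 1) → ℂ) :
    LocDim (DI (Mat a)) (4 * t * (t + 1)) := by
  intro A _ _ _ _ T _ _ 𝒯 _ sp hF
  obtain ⟨y, hy1, hy2⟩ := exists_coord A _ 𝒯 sp hF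
  have hy := good_of_coord A _ 𝒯 sp hF y hy1 hy2
  have hI : IRes A (DI (Mat a)) = DI (Mat (fun e i j => algebraMap ℂ (Res A) (a e i j))) :=
    mat_map _ a
  obtain ⟨L, hL, hk⟩ := ker_det hF hy _ (mat_isHomogeneous _) hI (mat_CK _) (mat_minor_ne _)
  exact genericOver A 𝒯 sp y hF hy L hL hk

theorem mat_prime {t : ℕ} (ht : 1 ≤ t) (a : Fin 2 → Fin t → Fin (t + 1) → ℂ) (ha : Generic a) :
    (DI (Mat a)).IsPrime := by
  refine con_prime _ (mat_isHom a) (mat_one ht a) (mat_R1 a) (mat_R2 a) ?_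
  intro x hx hV f g hfg
  obtain ⟨p, hp, q, hq, δ, hδ, hδI, hg⟩ := mat_loc ht a ha x hx hV
  have hle : Ideal.span {p, q} ≤ DI (Mat a) := by
    rw [Ideal.span_le]
    intro z hz
    rcases hz with rfl | hz
    · exact hp
    · rw [Set.mem_singleton_iff] at hz
      rw [hz]
      exact hq
  rcases dom_local x p q (hV p hp) (hV q hq) hg δ f g hδ (hδI _ hfg) with ⟨s, h1, h2⟩ | ⟨s, h1, h2⟩
  · exact Or.inl ⟨s, h1, hle h2⟩
  · exact Or.inr ⟨s, h1, hle h2⟩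

/-- the genus -/
theorem exists_genus (t : ℕ) (ht : 3 ≤ t) :
    ∃ g : ℕ, 6 * g + 5 * t * (t + 1) = 6 + 2 * t ^ 2 * (t + 1) := by
  induction t, ht using Nat.le_induction with
  | base => exact ⟨3, by norm_num⟩
  | succ n hn ih =>
    obtain ⟨g, hg⟩ := ih
    obtain ⟨e, rfl⟩ := Nat.exists_eq_add_of_le hn
    refine ⟨g + (4 + e) * (2 + e), ?_⟩
    ring_nf at hg ⊢
    omega

/-- the degree -/
theorem exists_degree (t : ℕ) : ∃ d : ℕ, 2 * d = t * (t + 1) := by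
  obtain ⟨d, hd⟩ := Nat.even_mul_succ_self t
  exact ⟨d, by omega⟩

theorem mat_curve {t : ℕ} (ht : 1 ≤ t) (a : Fin 2 → Fin t → Fin (t + 1) → ℂ) (ha : Generic a)
    (d g : ℕ) (hd : 2 * d = t * (t + 1))
    (hg : 6 * g + 5 * t * (t + 1) = 6 + 2 * t ^ 2 * (t + 1)) :
    IsCurve (DI (Mat a)) d g := by
  refine ⟨mat_prime ht a ha, mat_isHom a, ⟨t, ?_⟩, ?_⟩
  · intro n hn
    have h := mat_hf ht a n hn
    have h' : (6 * (hf (DI (Mat a)) n : ℤ) + 2 * t ^ 2 * (t + 1) =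
      3 * t * (t + 1) * n + 5 * t * (t + 1)) := by exact_mod_cast h
    have hg' : (6 * (g : ℤ) + 5 * t * (t + 1) = 6 + 2 * t ^ 2 * (t + 1)) := by exact_mod_cast hg
    have hd' : (2 * (d : ℤ) = t * (t + 1)) := by exact_mod_cast hd
    have h6 : (6 : ℤ) * (hf (DI (Mat a)) n : ℤ) = 6 * (d * n + 1 - g) := by
      linear_combination h' + hg' - 3 * n * hd'
    linarith
  · intro x hx hV
    obtain ⟨p, hp, q, hq, δ, hδ, hδI, hgr⟩ := mat_loc ht a ha x hx hV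
    exact ⟨p, hp, q, hq, hgr⟩

theorem main (c : ℝ) (hc : 0 < c) :
    ∃ (d g : ℕ) (I : Ideal (MvPolynomial (Fin 4) ℂ)) (N : ℕ), 2 ≤ g ∧ d ≤ g + 1 ∧
      IsCurve I d g ∧ ProjNormal I ∧ hf I 1 = 4 ∧ LocDim I N ∧ (N : ℝ) < c * g := by
  obtain ⟨t0, ht0⟩ := exists_nat_gt (12 / c + 5 / 2)
  set t : ℕ := t0 + 4 with htdef
  have ht : (12 / c + 5 / 2 : ℝ) < t := by
    rw [htdef]; push_cast; linarith
  have ht4 : 4 ≤ t := by omega
  obtain ⟨g, hg⟩ := exists_genus t (by omega)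
  obtain ⟨d, hd⟩ := exists_degree t
  obtain ⟨a, ha⟩ := exists_generic t
  refine ⟨d, g, DI (Mat a), 4 * t * (t + 1), ?_, ?_, mat_curve (by omega) a ha d g hd hg,
    projNormal _ (mat_isHom a) (mat_prime (by omega) a ha) (mat_R1 a) (mat_R2 a),
    mat_hf_one (by omega) a, mat_locDim a, ?_⟩
  · nlinarith [hg, ht4]
  · nlinarith [hg, hd, ht4]
  · have hgR : (6 * (g : ℝ) + 5 * t * (t + 1) = 6 + 2 * t ^ 2 * (t + 1)) := by exact_mod_cast hg
    have h12 : 12 < c * (t - 5 / 2) := by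
      have := (div_lt_iff₀ hc).mp (show 12 / c < (t : ℝ) - 5 / 2 by linarith)
      linarith
    have htt : (0 : ℝ) < t * (t + 1) := by positivity
    have hgg : (g : ℝ) = 1 + t * (t + 1) * (2 * t - 5) / 6 := by linarith
    rw [hgg]
    push_cast
    nlinarith [mul_lt_mul_of_pos_left h12 htt]

end Pool.Agent.H56.DC
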