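import Pool.Agent.H56.DC.Defs

/-!
Part NAK. Linear algebra over a valuation ring.
-/

set_option autoImplicit false

namespace Pool.Agent.H56.DC

open MvPolynomial

/-- the reduction of polynomials modulo the maximal ideal -/
noncomputable abbrev red (A : Type) [CommRing A] [IsLocalRing A] :
    MvPolynomial (Fin 4) A →+* MvPolynomial (Fin 4) (IsLocalRing.ResidueField A) :=
  MvPolynomial.map (IsLocalRing.residue A)

/-- forms can be lifted to forms: lift the coefficients in the support -/
theorem exists_lift {A : Type} [CommRing A] [IsLocalRing A] (n : ℕ)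
    (P : MvPolynomial (Fin 4) (IsLocalRing.ResidueField A)) (hP : P.IsHomogeneous n) :
    ∃ Q : MvPolynomial (Fin 4) A, Q.IsHomogeneous n ∧ red A Q = P := by
  classical
  have hs : Function.Surjective (IsLocalRing.residue A) := Ideal.Quotient.mk_surjective
  let g : IsLocalRing.ResidueField A → A := Function.surjInv hs
  have hg : ∀ z, IsLocalRing.residue A (g z) = z := Function.surjInv_eq hs
  refine ⟨∑ m ∈ P.support, monomial m (g (coeff m P)), ?_, ?_⟩
  · apply IsHomogeneous.sum
    intro m hm
    apply isHomogeneous_monomial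
    rw [Finsupp.degree_eq_weight_one]
    exact hP (mem_support_iff.1 hm)
  · show MvPolynomial.map (IsLocalRing.residue A) _ = P
    rw [map_sum]
    conv_rhs => rw [← support_sum_monomial_coeff P]
    apply Finset.sum_congr rfl
    intro m _
    rw [map_monomial, hg]

/-- a family of forms with reduction zero is divisible by an element of the maximal ideal: the ideal
generated by all coefficients is principal (`IsBezout`), generated by an element `a` of the maximal
ideal. -/
theorem exists_div {A : Type} [CommRing A] [IsDomain A] [ValuationRing A] {ι : Type} [Finite ι]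
    (n : ℕ) (P : ι → MvPolynomial (Fin 4) A) (hP : ∀ j, (P j).IsHomogeneous n)
    (h0 : ∀ j, red A (P j) = 0) :
    ∃ a ∈ IsLocalRing.maximalIdeal A, ∃ P' : ι → MvPolynomial (Fin 4) A,
      (∀ j, (P' j).IsHomogeneous n) ∧ (∀ j, P j = C a * P' j) ∧ (a = 0 → ∀ j, P' j = 0) := by
  classical
  have := Fintype.ofFinite ι
  let S : Finset A := Finset.univ.biUnion fun j => (P j).support.image fun m => coeff m (P j)
  have hS : ∀ j m, coeff m (P j) ≠ 0 → coeff m (P j) ∈ Ideal.span (S : Set A) := by
    intro j m hm
    apply Ideal.subset_span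
    exact Finset.mem_coe.2 (Finset.mem_biUnion.2 ⟨j, Finset.mem_univ _,
      Finset.mem_image.2 ⟨m, mem_support_iff.2 hm, rfl⟩⟩)
  have hp : (Ideal.span (S : Set A)).IsPrincipal := IsBezout.isPrincipal_of_FG _ ⟨S, rfl⟩
  obtain ⟨a, ha⟩ := hp
  have hmax : Ideal.span (S : Set A) ≤ IsLocalRing.maximalIdeal A := by
    rw [Ideal.span_le]
    intro z hz
    obtain ⟨j, -, hj⟩ := Finset.mem_biUnion.1 (Finset.mem_coe.1 hz)
    obtain ⟨m, -, rfl⟩ := Finset.mem_image.1 hj
    have h1 : coeff m (red A (P j)) = 0 := by rw [h0 j, coeff_zero]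
    have h2 : IsLocalRing.residue A (coeff m (P j)) = 0 := by
      rw [← coeff_map]
      exact h1
    exact (IsLocalRing.residue_eq_zero_iff _).1 h2
  have haS : a ∈ Ideal.span (S : Set A) := by
    rw [ha]
    exact Submodule.mem_span_singleton_self a
  have hq : ∀ j m, ∃ q, coeff m (P j) = a * q := by
    intro j m
    by_cases hm : coeff m (P j) = 0
    · exact ⟨0, by rw [hm, mul_zero]⟩
    · have h1 := hS j m hm
      rw [ha] at h1
      obtain ⟨q, hq⟩ := Submodule.mem_span_singleton.1 h1
      exact ⟨q, by rw [← hq, smul_eq_mul, mul_comm]⟩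
  choose q hq using hq
  refine ⟨a, hmax haS, fun j => ∑ m ∈ (P j).support, monomial m (q j m), ?_, ?_, ?_⟩
  · intro j
    apply IsHomogeneous.sum
    intro m hm
    apply isHomogeneous_monomial
    rw [Finsupp.degree_eq_weight_one]
    exact hP j (mem_support_iff.1 hm)
  · intro j
    conv_lhs => rw [← support_sum_monomial_coeff (P j)]
    rw [Finset.mul_sum]
    apply Finset.sum_congr rfl
    intro m _
    rw [C_mul_monomial, ← hq]
  · intro ha0 j
    have h1 : P j = 0 := by
      ext m
      rw [hq j m, ha0, zero_mul, coeff_zero]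
    show ∑ m ∈ (P j).support, monomial m (q j m) = 0
    rw [h1, support_zero, Finset.sum_empty]

/-- Nakayama for a kernel. Proof: the range of `φ` is finitely generated and torsion free, hence flat
(`Module.Flat.flat_iff_torsion_eq_bot_of_isBezout`), hence free (`Module.free_of_flat_of_isLocalRing`),
so it is finitely presented and `ker φ` is finitely generated (or: `φ` onto its range splits). Now
`ker φ ≤ W ⊔ m • ker φ` and Nakayama (`Submodule.le_of_le_smul_of_le_jacobson_bot`). -/
theorem nak_ker {A : Type} [CommRing A] [IsDomain A] [ValuationRing A] {E F : Type}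
    [AddCommGroup E] [Module A E] [Module.Finite A E] [AddCommGroup F] [Module A F]
    (htf : ∀ (a : A) (s : F), a • s = 0 → a = 0 ∨ s = 0) (φ : E →ₗ[A] F) (W : Submodule A E)
    (h : ∀ w, φ w = 0 → ∃ w' ∈ W, ∃ a ∈ IsLocalRing.maximalIdeal A, ∃ v, φ v = 0 ∧ w = w' + a • v) :
    ∀ w, φ w = 0 → w ∈ W := by
  have hfree : Module.Free A (LinearMap.range φ) := by
    have htor : Submodule.torsion A (LinearMap.range φ) = ⊥ := by
      rw [Submodule.eq_bot_iff]
      rintro s ⟨a, ha⟩
      have h1 : ((a : A) • (s : F)) = 0 := by
        have := congrArg (Subtype.val) ha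
        exact this
      rcases htf _ _ h1 with h2 | h2
      · exact absurd h2 (nonZeroDivisors.coe_ne_zero a)
      · exact Subtype.ext h2
    have hflat : Module.Flat A (LinearMap.range φ) :=
      Module.Flat.flat_iff_torsion_eq_bot_of_isBezout.2 htor
    exact Module.free_of_flat_of_isLocalRing
  have hfg : (LinearMap.ker φ).FG := by
    have : Module.FinitePresentation A (LinearMap.range φ) :=
      Module.finitePresentation_of_projective A _
    rw [← LinearMap.ker_rangeRestrict]
    exact Module.FinitePresentation.fg_ker _ φ.surjective_rangeRestrict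
  have hle : LinearMap.ker φ ≤ W ⊔ IsLocalRing.maximalIdeal A • LinearMap.ker φ := by
    intro w hw
    obtain ⟨w', hw', a, ha, v, hv, rfl⟩ := h w hw
    exact Submodule.add_mem_sup hw' (Submodule.smul_mem_smul ha hv)
  intro w hw
  exact Submodule.le_of_le_smul_of_le_jacobson_bot hfg
    (IsLocalRing.maximalIdeal_le_jacobson _) hle hw

/-- the forms of degree `n` are a finitely generated module -/
theorem forms_fg {A : Type} [CommRing A] (n : ℕ) :
    Module.Finite A (homogeneousSubmodule (Fin 4) A n) :=
  Module.Finite.iff_fg.2 (homogeneousSubmodule_fg _ _ n)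

end Pool.Agent.H56.DC
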