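import Pool.Agent.H56.DC.Defs

/-!
Part RGP. Powers of a regular sequence; projective normality.
-/

set_option autoImplicit false

namespace Pool.Agent.H56.DC

open MvPolynomial

theorem pow_R1 {k : Type} [Field k] (I : Ideal (MvPolynomial (Fin 4) k)) (h : R1 I) (n : ℕ)
    (p : MvPolynomial (Fin 4) k) (hp : X 0 ^ n * p ∈ I) : p ∈ I := by
  induction n with
  | zero => simpa using hp
  | succ n ih => exact ih (h _ (by rw [← mul_assoc, ← pow_succ']; exact hp))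

theorem rgp_mem_sup {k : Type} [Field k] (I : Ideal (MvPolynomial (Fin 4) k))
    (g p : MvPolynomial (Fin 4) k) :
    p ∈ I ⊔ Ideal.span {g} ↔ ∃ a ∈ I, ∃ b, p = a + b * g := by
  rw [Submodule.mem_sup]
  constructor
  · rintro ⟨a, ha, c, hc, rfl⟩
    obtain ⟨b, rfl⟩ := Ideal.mem_span_singleton'.mp hc
    exact ⟨a, ha, b, rfl⟩
  · rintro ⟨a, ha, b, rfl⟩
    exact ⟨a, ha, b * g, Ideal.mem_span_singleton'.mpr ⟨b, rfl⟩, rfl⟩

theorem rgp_one {k : Type} [Field k] (I : Ideal (MvPolynomial (Fin 4) k)) (h1 : R1 I) (h2 : R2 I)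
    (n : ℕ) : ∀ p : MvPolynomial (Fin 4) k, X 1 * p ∈ I ⊔ Ideal.span {X 0 ^ n} →
      p ∈ I ⊔ Ideal.span {X 0 ^ n} := by
  induction n with
  | zero =>
    intro p _
    rw [pow_zero, Ideal.span_singleton_one, sup_top_eq]
    trivial
  | succ n ih =>
    intro p hp
    obtain ⟨f, hf, g, e⟩ := (rgp_mem_sup I _ _).mp hp
    have hp' : X 1 * p ∈ I ⊔ Ideal.span {X 0 ^ n} :=
      (rgp_mem_sup I _ _).mpr ⟨f, hf, g * X 0, by rw [e]; ring⟩
    obtain ⟨f', hf', h, e'⟩ := (rgp_mem_sup I _ _).mp (ih p hp')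
    have h3 : X 0 ^ n * (X 1 * h - X 0 * g) ∈ I := by
      have : X 0 ^ n * (X 1 * h - X 0 * g) = f - X 1 * f' := by
        have e2 : X 1 * p = X 1 * (f' + h * X 0 ^ n) := by rw [← e']
        rw [e] at e2
        linear_combination -e2
      rw [this]
      exact I.sub_mem hf (I.mul_mem_left _ hf')
    have h4 := pow_R1 I h1 n _ h3
    have h5 : X 1 * h ∈ I ⊔ Ideal.span {X 0} :=
      (rgp_mem_sup I _ _).mpr ⟨_, h4, g, by ring⟩
    obtain ⟨f'', hf'', h', e''⟩ := (rgp_mem_sup I _ _).mp (h2 h h5)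
    refine (rgp_mem_sup I _ _).mpr ⟨f' + f'' * X 0 ^ n, I.add_mem hf' (I.mul_mem_right _ hf''),
      h', ?_⟩
    rw [e', e'']
    ring

/-- `x₁ ^ m` is a nonzerodivisor modulo `I + (x₀ ^ n)`. It suffices to treat `m = 1`; induct on `n`:
if `x₁ p = f + x₀ ^ (n+1) g` then `p = f' + x₀ ^ n h` by induction, and
`x₀ ^ n (x₁ h - x₀ g) ∈ I`, so `x₁ h - x₀ g ∈ I` by `R1` and `h ∈ I + (x₀)` by `R2`. -/
theorem pow_R2 {k : Type} [Field k] (I : Ideal (MvPolynomial (Fin 4) k)) (h1 : R1 I) (h2 : R2 I)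
    (m n : ℕ) (p : MvPolynomial (Fin 4) k) (hp : X 1 ^ m * p ∈ I ⊔ Ideal.span {X 0 ^ n}) :
    p ∈ I ⊔ Ideal.span {X 0 ^ n} := by
  induction m with
  | zero => simpa using hp
  | succ m ih => exact ih (rgp_one I h1 h2 n _ (by rw [← mul_assoc, ← pow_succ']; exact hp))

theorem rgp_component_mul {k : Type} [Field k] {m : ℕ} (n : ℕ) (G H : MvPolynomial (Fin 4) k)
    (hG : G.IsHomogeneous m) :
    homogeneousComponent (m + n) (G * H) = G * homogeneousComponent n H := by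
  conv_lhs => rw [← sum_homogeneousComponent H, Finset.mul_sum, map_sum]
  have h1 : ∀ i ∈ Finset.range (H.totalDegree + 1),
      homogeneousComponent (m + n) (G * homogeneousComponent i H) =
        if i = n then G * homogeneousComponent n H else 0 := by
    intro i _
    rw [homogeneousComponent_of_mem (n := m + i)
      (hG.mul (homogeneousComponent_isHomogeneous i H))]
    by_cases h : i = n
    · rw [if_pos h, if_pos (by omega), h]
    · rw [if_neg h, if_neg (by omega)]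
  rw [Finset.sum_congr rfl h1, Finset.sum_ite_eq' (Finset.range (H.totalDegree + 1)) n]
  split_ifs with h
  · rfl
  · rw [homogeneousComponent_eq_zero n H (by simpa using h), mul_zero]

/-- Proof: `x₀ ^ N F ≡ G A₀`, `x₁ ^ N F ≡ G A₁` modulo `I` (a common `N`). So
`G (x₁ ^ N A₀ - x₀ ^ N A₁) ∈ I`, hence (`I` prime, `G ∉ I`) `x₁ ^ N A₀ ∈ I + (x₀ ^ N)`, so
`A₀ ≡ x₀ ^ N H` modulo `I` by `pow_R2`, and `x₀ ^ N (F - G H) ∈ I`, so `F - G H ∈ I` by `pow_R1`. Replace `H`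
by its homogeneous component of degree `n`. -/
theorem projNormal (I : Ideal (MvPolynomial (Fin 4) ℂ)) (hI : IsHom I) (hp : I.IsPrime)
    (h1 : R1 I) (h2 : R2 I) : ProjNormal I := by
  intro m n F G hF hG hGI hreg
  obtain ⟨N0, hN0⟩ := hreg 0
  obtain ⟨N1, hN1⟩ := hreg 1
  have k0 : X 0 ^ (N0 + N1) * F ∈ I ⊔ Ideal.span {G} := by
    rw [add_comm, pow_add, mul_assoc]
    exact Ideal.mul_mem_left _ _ hN0
  have k1 : X 1 ^ (N0 + N1) * F ∈ I ⊔ Ideal.span {G} := by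
    rw [pow_add, mul_assoc]
    exact Ideal.mul_mem_left _ _ hN1
  generalize N0 + N1 = N at k0 k1
  obtain ⟨f0, hf0, A0, e0⟩ := (rgp_mem_sup I _ _).mp k0
  obtain ⟨f1, hf1, A1, e1⟩ := (rgp_mem_sup I _ _).mp k1
  have h3 : G * (X 1 ^ N * A0 - X 0 ^ N * A1) ∈ I := by
    have : G * (X 1 ^ N * A0 - X 0 ^ N * A1) = X 0 ^ N * f1 - X 1 ^ N * f0 := by
      linear_combination X 0 ^ N * e1 - X 1 ^ N * e0
    rw [this]
    exact I.sub_mem (I.mul_mem_left _ hf1) (I.mul_mem_left _ hf0)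
  have h4 : X 1 ^ N * A0 - X 0 ^ N * A1 ∈ I := (hp.mem_or_mem h3).resolve_left hGI
  have h5 : X 1 ^ N * A0 ∈ I ⊔ Ideal.span {X 0 ^ N} :=
    (rgp_mem_sup I _ _).mpr ⟨_, h4, A1, by ring⟩
  obtain ⟨f2, hf2, H, e2⟩ := (rgp_mem_sup I _ _).mp (pow_R2 I h1 h2 N N A0 h5)
  have h6 : X 0 ^ N * (F - G * H) ∈ I := by
    have : X 0 ^ N * (F - G * H) = f0 + f2 * G := by
      linear_combination e0 + G * e2
    rw [this]
    exact I.add_mem hf0 (I.mul_mem_right _ hf2)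
  have h7 := pow_R1 I h1 N _ h6
  refine ⟨homogeneousComponent n H, homogeneousComponent_isHomogeneous n H, ?_⟩
  have h8 := hI _ h7 (m + n)
  rw [map_sub, rgp_component_mul n G H hG, homogeneousComponent_eq_self hF] at h8
  exact h8

end Pool.Agent.H56.DC
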