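import Pool.Agent.H56.DC.GEN

/-!
Part RNK. The matrix `Nx a x` has rank at least `t - 1` for all `x ≠ 0`, by counting parameters.
-/

set_option autoImplicit false

namespace Pool.Agent.H56.DC

open MvPolynomial Matrix

theorem rnk_sum_lower {t : ℕ} (i0 : Fin t) (f : Fin t → ℂ) (h : ∀ i, i ≠ i0 → f i = 0) :
    ∑ i, f i = f i0 :=
  Finset.sum_eq_single i0 (fun b _ hb => h b hb) (fun hh => absurd (Finset.mem_univ _) hh)

/-- the value of `u ᵥ* Nx a x` when `x 0 = x 1 = 0` -/
theorem rnk_vec {t : ℕ} (a : Fin 2 → Fin t → Fin (t + 1) → ℂ) (x : Fin 4 → ℂ)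
    (h0 : x 0 = 0) (h1 : x 1 = 0) (u : Fin t → ℂ) (j : Fin (t + 1)) :
    (u ᵥ* Nx a x) j = x 2 * (∑ i, if j = i.castSucc then u i else 0) +
      x 3 * (∑ i, if j = i.succ then u i else 0) := by
  simp only [Matrix.vecMul, dotProduct, Nx]
  rw [Finset.mul_sum, Finset.mul_sum, ← Finset.sum_add_distrib]
  refine Finset.sum_congr rfl fun i _ => ?_
  have h00 : co a 2 = J0 ℂ t := rfl
  have h11 : co a 3 = J1 ℂ t := rfl
  simp only [Fin.sum_univ_four, h0, h1, h00, h11, J0, J1, zero_mul, zero_add]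
  split_ifs <;> ring

/-- if `x 0 = x 1 = 0` then `Nx a x = x₂ J0 + x₃ J1` has independent rows -/
theorem nx_row {t : ℕ} (a : Fin 2 → Fin t → Fin (t + 1) → ℂ) (x : Fin 4 → ℂ) (hx : x ≠ 0)
    (h0 : x 0 = 0) (h1 : x 1 = 0) (u : Fin t → ℂ) (hu : u ᵥ* Nx a x = 0) : u = 0 := by
  have key : ∀ j, x 2 * (∑ i, if j = i.castSucc then u i else 0) +
      x 3 * (∑ i, if j = i.succ then u i else 0) = 0 := by
    intro j
    rw [← rnk_vec a x h0 h1 u j, hu]
    rfl
  by_cases h3 : x 3 = 0
  · have h2 : x 2 ≠ 0 := by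
      intro h2
      apply hx
      funext l
      fin_cases l
      · exact h0
      · exact h1
      · exact h2
      · exact h3
    funext i
    have := key i.castSucc
    rw [h3, zero_mul, add_zero] at this
    have h4 := (mul_eq_zero.mp this).resolve_left h2
    rw [rnk_sum_lower i _ (fun b hb => by
      rw [if_neg]
      intro hh
      exact hb (Fin.castSucc_injective _ hh).symm)] at h4
    simpa using h4
  · -- strong induction from the top
    have main : ∀ n : ℕ, ∀ i : Fin t, t - 1 - (i : ℕ) = n → u i = 0 := by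
      intro n
      induction n using Nat.strong_induction_on with
      | _ n ih =>
        intro i hi
        have h5 := key i.succ
        have h6 : (∑ i', if i.succ = i'.succ then u i' else 0) = u i := by
          rw [rnk_sum_lower i _ (fun b hb => by
            rw [if_neg]
            intro hh
            exact hb (Fin.succ_injective _ hh).symm)]
          simp
        have h7 : (∑ i' : Fin t, if i.succ = i'.castSucc then u i' else 0) = 0 := by
          refine Finset.sum_eq_zero fun i' _ => ?_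
          split_ifs with h8
          · have h9 : (i' : ℕ) = (i : ℕ) + 1 := by
              have := congrArg Fin.val h8
              simpa using this.symm
            have h10 := i'.isLt
            exact ih (t - 1 - (i' : ℕ)) (by omega) i' rfl
          · rfl
        rw [h6, h7, mul_zero, zero_add] at h5
        exact (mul_eq_zero.mp h5).resolve_left h3
    funext i
    exact main _ i rfl

/-- scaling -/
theorem nx_smul {t : ℕ} (a : Fin 2 → Fin t → Fin (t + 1) → ℂ) (c : ℂ) (x : Fin 4 → ℂ) :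
    Nx a (c • x) = c • Nx a x := by
  ext i j
  simp only [Nx, Matrix.smul_apply, Pi.smul_apply, smul_eq_mul, Finset.mul_sum]
  exact Finset.sum_congr rfl fun l _ => by ring

/-- `a e` is determined by the rest: for `x 0 = 1` -/
theorem nx_solve0 {t : ℕ} (a : Fin 2 → Fin t → Fin (t + 1) → ℂ) (x : Fin 4 → ℂ) (h : x 0 = 1)
    (i : Fin t) (j : Fin (t + 1)) :
    a 0 i j = Nx a x i j - x 1 * a 1 i j - x 2 * J0 ℂ t i j - x 3 * J1 ℂ t i j := by
  have e0 : co a 0 = a 0 := rfl
  have e1 : co a 1 = a 1 := rfl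
  have e2 : co a 2 = J0 ℂ t := rfl
  have e3 : co a 3 = J1 ℂ t := rfl
  simp only [Nx, Fin.sum_univ_four, h, e0, e1, e2, e3]
  ring

theorem nx_solve1 {t : ℕ} (a : Fin 2 → Fin t → Fin (t + 1) → ℂ) (x : Fin 4 → ℂ) (h : x 1 = 1)
    (i : Fin t) (j : Fin (t + 1)) :
    a 1 i j = Nx a x i j - x 0 * a 0 i j - x 2 * J0 ℂ t i j - x 3 * J1 ℂ t i j := by
  have e0 : co a 0 = a 0 := rfl
  have e1 : co a 1 = a 1 := rfl
  have e2 : co a 2 = J0 ℂ t := rfl
  have e3 : co a 3 = J1 ℂ t := rfl
  simp only [Nx, Fin.sum_univ_four, h, e0, e1, e2, e3]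
  ring

/-- solving a linear equation in a field -/
theorem rnk_solve {ι : Type} [Fintype ι] [DecidableEq ι] (K : IntermediateField ℚ ℂ) (f : ι → ℂ)
    (i0 : ι) (h : ∑ i, f i = 0) (hK : ∀ i, i ≠ i0 → f i ∈ K) : f i0 ∈ K := by
  rw [← Finset.add_sum_erase _ _ (Finset.mem_univ i0)] at h
  rw [eq_neg_of_add_eq_zero_left h]
  exact neg_mem (sum_mem fun i hi => hK i (Finset.ne_of_mem_erase hi))

/-- all the entries lie in `K` -/
theorem rnk_all {t : ℕ} (K : IntermediateField ℚ ℂ) (a : Fin 2 → Fin t → Fin (t + 1) → ℂ)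
    (x : Fin 4 → ℂ) (e : Fin 2) (hxe : x (![0, 1] e) = 1) (hx : ∀ l, l ≠ ![0, 1] e → x l ∈ K)
    (hB : ∀ i j, a (1 - e) i j ∈ K) (hN : ∀ i j, Nx a x i j ∈ K) : ∀ e' i j, a e' i j ∈ K := by
  have hJ0 : ∀ i j, J0 ℂ t i j ∈ K := by
    intro i j
    unfold J0
    split_ifs
    · exact one_mem _
    · exact zero_mem _
  have hJ1 : ∀ i j, J1 ℂ t i j ∈ K := by
    intro i j
    unfold J1
    split_ifs
    · exact one_mem _
    · exact zero_mem _
  obtain rfl | rfl : e = 0 ∨ e = 1 := by omega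
  · have hxe : x 0 = 1 := hxe
    have hB : ∀ i j, a 1 i j ∈ K := hB
    have hx : ∀ l, l ≠ 0 → x l ∈ K := hx
    have hA : ∀ i j, a 0 i j ∈ K := by
      intro i j
      rw [nx_solve0 a x hxe]
      exact sub_mem (sub_mem (sub_mem (hN i j) (mul_mem (hx 1 (by decide)) (hB i j)))
        (mul_mem (hx 2 (by decide)) (hJ0 i j))) (mul_mem (hx 3 (by decide)) (hJ1 i j))
    intro e'
    obtain rfl | rfl : e' = 0 ∨ e' = 1 := by omega
    · exact hA
    · exact hB
  · have hxe : x 1 = 1 := hxe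
    have hB : ∀ i j, a 0 i j ∈ K := hB
    have hx : ∀ l, l ≠ 1 → x l ∈ K := hx
    have hA : ∀ i j, a 1 i j ∈ K := by
      intro i j
      rw [nx_solve1 a x hxe]
      exact sub_mem (sub_mem (sub_mem (hN i j) (mul_mem (hx 0 (by decide)) (hB i j)))
        (mul_mem (hx 2 (by decide)) (hJ0 i j))) (mul_mem (hx 3 (by decide)) (hJ1 i j))
    intro e'
    obtain rfl | rfl : e' = 0 ∨ e' = 1 := by omega
    · exact hB
    · exact hA

/-- two independent vectors in echelon form -/
theorem rnk_echelon {t : ℕ} (M : Matrix (Fin t) (Fin (t + 1)) ℂ) (u u' : Fin t → ℂ)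
    (hu : u ᵥ* M = 0) (hu' : u' ᵥ* M = 0) (h : LinearIndependent ℂ ![u, u']) :
    ∃ i0 i1 : Fin t, i0 ≠ i1 ∧ ∃ w w' : Fin t → ℂ, w ᵥ* M = 0 ∧ w' ᵥ* M = 0 ∧ w i0 = 1 ∧
      w i1 = 0 ∧ w' i0 = 0 ∧ w' i1 = 1 := by
  rw [LinearIndependent.pair_iff] at h
  have hu0 : u ≠ 0 := by
    intro h0
    have := h 1 0 (by simp [h0])
    simp at this
  obtain ⟨i0, hi0⟩ := Function.ne_iff.mp hu0
  simp only [Pi.zero_apply] at hi0
  have hv0 : u' - (u' i0 / u i0) • u ≠ 0 := by
    intro h0
    have := h (-(u' i0 / u i0)) 1 (by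
      rw [one_smul, neg_smul, neg_add_eq_sub]
      exact h0)
    simp at this
  obtain ⟨i1, hi1⟩ := Function.ne_iff.mp hv0
  simp only [Pi.zero_apply, Pi.sub_apply, Pi.smul_apply, smul_eq_mul] at hi1
  set d := u' i1 - u' i0 / u i0 * u i1 with hd
  have h01 : i0 ≠ i1 := by
    rintro rfl
    apply hi1
    rw [hd, div_mul_cancel₀ _ hi0, sub_self]
  refine ⟨i0, i1, h01, (u i0)⁻¹ • u - ((u i0)⁻¹ * u i1 * d⁻¹) • (u' - (u' i0 / u i0) • u),
    d⁻¹ • (u' - (u' i0 / u i0) • u), ?_, ?_, ?_, ?_, ?_, ?_⟩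
  · simp [Matrix.sub_vecMul, Matrix.smul_vecMul, hu, hu']
  · simp [Matrix.sub_vecMul, Matrix.smul_vecMul, hu, hu']
  · simp only [Pi.sub_apply, Pi.smul_apply, smul_eq_mul]
    rw [div_mul_cancel₀ _ hi0, sub_self, mul_zero, sub_zero, inv_mul_cancel₀ hi0]
  · simp only [Pi.sub_apply, Pi.smul_apply, smul_eq_mul]
    rw [← hd, mul_assoc _ d⁻¹, inv_mul_cancel₀ hi1, mul_one, sub_self]
  · simp only [Pi.sub_apply, Pi.smul_apply, smul_eq_mul]
    rw [div_mul_cancel₀ _ hi0, sub_self, mul_zero]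
  · simp only [Pi.sub_apply, Pi.smul_apply, smul_eq_mul]
    rw [← hd, inv_mul_cancel₀ hi1]

/-- some `x e`, `e = 0` or `1`, is not zero -/
theorem rnk_exists_e {t : ℕ} (a : Fin 2 → Fin t → Fin (t + 1) → ℂ) (x : Fin 4 → ℂ) (hx : x ≠ 0)
    (u : Fin t → ℂ) (hu : u ᵥ* Nx a x = 0) (hu0 : u ≠ 0) : ∃ e : Fin 2, x (![0, 1] e) ≠ 0 := by
  by_contra hcon
  push Not at hcon
  exact hu0 (nx_row a x hx (hcon 0) (hcon 1) u hu)

/-- Proof: suppose `u, u'` are linearly independent. By `nx_row` some `x e ≠ 0` with `e = 0` or `1`;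
scaling `x`, we may assume `x e = 1` (`nx_smul`). Replacing `u, u'` by linear combinations (still left
kernel vectors) there are `i0 ≠ i1` with `u i0 = 1, u i1 = 0, u' i0 = 0, u' i1 = 1`. Let `S` be the
finite set consisting of the `3` other coordinates of `x`, the entries of `a (1 - e)` (`t(t+1)` of
them), the entries of the rows `i ≠ i0, i1` of `Nx a x` (`(t-2)(t+1)` of them) and the `u i`, `u' i`,
`i ≠ i0, i1` (`2(t-2)` of them), in total at most `3 + t(t+1) + (t-2)(t+1) + 2(t-2) = 2t(t+1) - 3`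
elements. The field generated by `S` contains the rows `i0` and `i1` of `Nx a x` (as `u ᵥ* N = 0`,
`u' ᵥ* N = 0`), hence all of `Nx a x` and therefore `a e` (`nx_solve0`, `nx_solve1`). This contradicts
`generic_le`. -/
theorem nx_corank {t : ℕ} (a : Fin 2 → Fin t → Fin (t + 1) → ℂ) (ha : Generic a)
    (x : Fin 4 → ℂ) (hx : x ≠ 0) (u u' : Fin t → ℂ) (hu : u ᵥ* Nx a x = 0)
    (hu' : u' ᵥ* Nx a x = 0) : ¬ LinearIndependent ℂ ![u, u'] := by
  classical
  intro hlin
  have hu0 : u ≠ 0 := by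
    rw [LinearIndependent.pair_iff] at hlin
    intro h0
    have := hlin 1 0 (by simp [h0])
    simp at this
  obtain ⟨e, he⟩ := rnk_exists_e a x hx u hu hu0
  -- scale `x`
  set y : Fin 4 → ℂ := (x (![0, 1] e))⁻¹ • x with hy
  have hye : y (![0, 1] e) = 1 := by
    rw [hy, Pi.smul_apply, smul_eq_mul, inv_mul_cancel₀ he]
  have huy : u ᵥ* Nx a y = 0 := by
    rw [hy, nx_smul, Matrix.vecMul_smul, hu, smul_zero]
  have huy' : u' ᵥ* Nx a y = 0 := by
    rw [hy, nx_smul, Matrix.vecMul_smul, hu', smul_zero]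
  obtain ⟨i0, i1, h01, w, w', hw, hw', w1, w2, w3, w4⟩ := rnk_echelon _ u u' huy huy' hlin
  -- the finite set
  set I : Finset (Fin t) := (Finset.univ.erase i0).erase i1 with hI
  have hIcard : I.card = t - 2 := by
    rw [hI, Finset.card_erase_of_mem (Finset.mem_erase.mpr ⟨h01.symm, Finset.mem_univ _⟩),
      Finset.card_erase_of_mem (Finset.mem_univ _), Finset.card_univ, Fintype.card_fin]
    omega
  have ht : 2 ≤ t := by
    have h1 := i0.isLt
    have h2 := i1.isLt
    have h3 : (i0 : ℕ) ≠ i1 := fun h => h01 (Fin.ext h)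
    omega
  set S1 : Finset ℂ := (Finset.univ.erase (![0, 1] e)).image y with hS1
  set S2 : Finset ℂ := (Finset.univ : Finset (Fin t × Fin (t + 1))).image
    (fun p => a (1 - e) p.1 p.2) with hS2
  set S3 : Finset ℂ := (I ×ˢ (Finset.univ : Finset (Fin (t + 1)))).image
    (fun p => Nx a y p.1 p.2) with hS3
  set S4 : Finset ℂ := I.image w with hS4
  set S5 : Finset ℂ := I.image w' with hS5
  set S : Finset ℂ := S1 ∪ (S2 ∪ (S3 ∪ (S4 ∪ S5))) with hS
  have hc1 : S1.card ≤ 3 := by
    refine Finset.card_image_le.trans ?_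
    rw [Finset.card_erase_of_mem (Finset.mem_univ _), Finset.card_univ, Fintype.card_fin]
  have hc2 : S2.card ≤ t * (t + 1) := by
    refine Finset.card_image_le.trans ?_
    rw [Finset.card_univ, Fintype.card_prod, Fintype.card_fin, Fintype.card_fin]
  have hc3 : S3.card ≤ (t - 2) * (t + 1) := by
    refine Finset.card_image_le.trans ?_
    rw [Finset.card_product, hIcard, Finset.card_univ, Fintype.card_fin]
  have hc4 : S4.card ≤ t - 2 := Finset.card_image_le.trans hIcard.le
  have hc5 : S5.card ≤ t - 2 := Finset.card_image_le.trans hIcard.le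
  have hc : S.card ≤ 3 + (t * (t + 1) + ((t - 2) * (t + 1) + ((t - 2) + (t - 2)))) :=
    (Finset.card_union_le _ _).trans (Nat.add_le_add hc1 ((Finset.card_union_le _ _).trans
      (Nat.add_le_add hc2 ((Finset.card_union_le _ _).trans (Nat.add_le_add hc3
        ((Finset.card_union_le _ _).trans (Nat.add_le_add hc4 hc5)))))))
  -- membership
  set K := IntermediateField.adjoin ℚ (S : Set ℂ) with hK
  have hmem : ∀ z ∈ S, z ∈ K := fun z hz => IntermediateField.subset_adjoin ℚ _ hz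
  have m1 : ∀ l, l ≠ ![0, 1] e → y l ∈ K := fun l hl => hmem _ (Finset.mem_union_left _
    (Finset.mem_image_of_mem _ (Finset.mem_erase.mpr ⟨hl, Finset.mem_univ _⟩)))
  have m2 : ∀ i j, a (1 - e) i j ∈ K := fun i j => hmem _ (Finset.mem_union_right _
    (Finset.mem_union_left _ (Finset.mem_image.mpr ⟨(i, j), Finset.mem_univ _, rfl⟩)))
  have hImem : ∀ i, i ≠ i0 → i ≠ i1 → i ∈ I := fun i h0 h1 =>
    Finset.mem_erase.mpr ⟨h1, Finset.mem_erase.mpr ⟨h0, Finset.mem_univ _⟩⟩
  have m3 : ∀ i j, i ≠ i0 → i ≠ i1 → Nx a y i j ∈ K := fun i j h0 h1 => hmem _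
    (Finset.mem_union_right _ (Finset.mem_union_right _ (Finset.mem_union_left _
      (Finset.mem_image.mpr ⟨(i, j), Finset.mem_product.mpr ⟨hImem i h0 h1, Finset.mem_univ _⟩,
        rfl⟩))))
  have m4 : ∀ i, i ≠ i0 → i ≠ i1 → w i ∈ K := fun i h0 h1 => hmem _
    (Finset.mem_union_right _ (Finset.mem_union_right _ (Finset.mem_union_right _
      (Finset.mem_union_left _ (Finset.mem_image_of_mem _ (hImem i h0 h1))))))
  have m5 : ∀ i, i ≠ i0 → i ≠ i1 → w' i ∈ K := fun i h0 h1 => hmem _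
    (Finset.mem_union_right _ (Finset.mem_union_right _ (Finset.mem_union_right _
      (Finset.mem_union_right _ (Finset.mem_image_of_mem _ (hImem i h0 h1))))))
  have m6 : ∀ j, Nx a y i0 j ∈ K := by
    intro j
    have := rnk_solve K (fun i => w i * Nx a y i j) i0 (by
      have := congrFun hw j
      simpa [Matrix.vecMul, dotProduct] using this) (by
      intro i hi
      by_cases h1 : i = i1
      · subst h1
        rw [w2, zero_mul]
        exact zero_mem _
      · exact mul_mem (m4 i hi h1) (m3 i j hi h1))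
    simpa [w1] using this
  have m7 : ∀ j, Nx a y i1 j ∈ K := by
    intro j
    have := rnk_solve K (fun i => w' i * Nx a y i j) i1 (by
      have := congrFun hw' j
      simpa [Matrix.vecMul, dotProduct] using this) (by
      intro i hi
      by_cases h1 : i = i0
      · subst h1
        rw [w3, zero_mul]
        exact zero_mem _
      · exact mul_mem (m5 i h1 hi) (m3 i j h1 hi))
    simpa [w4] using this
  have m8 : ∀ i j, Nx a y i j ∈ K := by
    intro i j
    by_cases h0 : i = i0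
    · rw [h0]
      exact m6 j
    · by_cases h1 : i = i1
      · rw [h1]
        exact m7 j
      · exact m3 i j h0 h1
  have hfin := generic_le a ha S (rnk_all K a y e hye m1 m2 m8)
  have h2 := hfin.trans hc
  obtain ⟨s, rfl⟩ : ∃ s, t = s + 2 := ⟨t - 2, by omega⟩
  simp only [Nat.add_sub_cancel] at h2
  nlinarith

end Pool.Agent.H56.DC
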